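import Pool.Agent.Y95.ZL.Theta

/-!
# The algebra generated by the operators which act as zero on `V_1`
-/

open Finset Module Polynomial Matrix
open Pool.Agent.W544.PG Pool.Agent.W216.PG

namespace Pool.Agent.Y95.ZL

noncomputable section

variable {p q : ℕ} (G : Zr p q)

/-- the action on `V_0` of the elements of degree zero which act as zero on `V_1` -/
def Zr.kk : Submodule ℂ (Matrix (Fin q) (Fin q) ℂ) :=
  G.h0.comap (LinearMap.inr ℂ (Matrix (Fin p) (Fin p) ℂ) (Matrix (Fin q) (Fin q) ℂ))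

theorem Zr.mem_kk {k : Matrix (Fin q) (Fin q) ℂ} :
    k ∈ G.kk ↔ ((0, k) : Matrix (Fin p) (Fin p) ℂ × Matrix (Fin q) (Fin q) ℂ) ∈ G.h0 := Iff.rfl

/-- the algebra generated by `kk` -/
def Zr.al : Subalgebra ℂ (Matrix (Fin q) (Fin q) ℂ) :=
  Algebra.adjoin ℂ (G.kk : Set (Matrix (Fin q) (Fin q) ℂ))

variable {G}

theorem Zr.kk_al {k : Matrix (Fin q) (Fin q) ℂ} (hk : k ∈ G.kk) : k ∈ G.al :=
  Algebra.subset_adjoin hk

theorem Zr.kk_T {k : Matrix (Fin q) (Fin q) ℂ} (hk : k ∈ G.kk) : kᵀ = -k := G.skew0 _ hk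

theorem Zr.kk_br {X : Matrix (Fin p) (Fin p) ℂ × Matrix (Fin q) (Fin q) ℂ} (hX : X ∈ G.h0)
    {k : Matrix (Fin q) (Fin q) ℂ} (hk : k ∈ G.kk) : X.2 * k - k * X.2 ∈ G.kk := by
  have h1 := G.b00 X hX _ hk
  simp only [LinearMap.inr_apply, Matrix.mul_zero, Matrix.zero_mul, sub_zero] at h1
  exact h1

theorem Zr.al1 {F : Matrix (Fin p) (Fin q) ℂ} (hF : F ∈ G.h1) {a : Matrix (Fin q) (Fin q) ℂ}
    (ha : a ∈ G.al) : F * a ∈ G.h1 := by
  have key : ∀ F ∈ G.h1, F * a ∈ G.h1 := by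
    induction ha using Algebra.adjoin_induction with
    | mem k hk =>
      intro F hF
      have h1 := G.b01 _ hk F hF
      simp only [LinearMap.inr_apply, Matrix.zero_mul, zero_sub] at h1
      exact (Submodule.neg_mem_iff _).1 h1
    | algebraMap c =>
      intro F hF
      rw [Algebra.algebraMap_eq_smul_one, Matrix.mul_smul, Matrix.mul_one]
      exact G.h1.smul_mem c hF
    | add a b _ _ ha hb =>
      intro F hF
      rw [Matrix.mul_add]
      exact G.h1.add_mem (ha F hF) (hb F hF)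
    | mul a b _ _ ha hb =>
      intro F hF
      rw [← Matrix.mul_assoc]
      exact hb _ (ha F hF)
  exact key F hF

theorem Zr.alm {F : Matrix (Fin q) (Fin p) ℂ} (hF : F ∈ G.hm) {a : Matrix (Fin q) (Fin q) ℂ}
    (ha : a ∈ G.al) : a * F ∈ G.hm := by
  have key : ∀ F ∈ G.hm, a * F ∈ G.hm := by
    induction ha using Algebra.adjoin_induction with
    | mem k hk =>
      intro F hF
      have h1 := G.b0m _ hk F hF
      simp only [LinearMap.inr_apply, Matrix.mul_zero, sub_zero] at h1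
      exact h1
    | algebraMap c =>
      intro F hF
      rw [Algebra.algebraMap_eq_smul_one, Matrix.smul_mul, Matrix.one_mul]
      exact G.hm.smul_mem c hF
    | add a b _ _ ha hb =>
      intro F hF
      rw [Matrix.add_mul]
      exact G.hm.add_mem (ha F hF) (hb F hF)
    | mul a b _ _ ha hb =>
      intro F hF
      rw [Matrix.mul_assoc]
      exact ha _ (hb F hF)
  exact key F hF

theorem Zr.al0 {X : Matrix (Fin p) (Fin p) ℂ × Matrix (Fin q) (Fin q) ℂ} (hX : X ∈ G.h0)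
    {a : Matrix (Fin q) (Fin q) ℂ} (ha : a ∈ G.al) : X.2 * a - a * X.2 ∈ G.al := by
  induction ha using Algebra.adjoin_induction with
  | mem k hk => exact Zr.kk_al (Zr.kk_br hX hk)
  | algebraMap c =>
    rw [← Algebra.commutes c, sub_self]
    exact G.al.zero_mem
  | add a b _ _ ha hb =>
    have h1 : X.2 * (a + b) - (a + b) * X.2 = (X.2 * a - a * X.2) + (X.2 * b - b * X.2) := by
      rw [mul_add, add_mul]; abel
    rw [h1]
    exact G.al.add_mem ha hb
  | mul a b ha' hb' ha hb =>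
    have h1 : X.2 * (a * b) - a * b * X.2 = (X.2 * a - a * X.2) * b + a * (X.2 * b - b * X.2) := by
      rw [sub_mul, mul_sub]
      simp only [mul_assoc]
      abel
    rw [h1]
    exact G.al.add_mem (G.al.mul_mem ha hb') (G.al.mul_mem ha' hb)

theorem Zr.alT {a : Matrix (Fin q) (Fin q) ℂ} (ha : a ∈ G.al) : aᵀ ∈ G.al := by
  induction ha using Algebra.adjoin_induction with
  | mem k hk =>
    rw [Zr.kk_T hk]
    exact G.al.neg_mem (Zr.kk_al hk)
  | algebraMap c =>
    rw [Algebra.algebraMap_eq_smul_one, Matrix.transpose_smul, Matrix.transpose_one]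
    exact G.al.smul_mem G.al.one_mem c
  | add a b _ _ ha hb =>
    rw [Matrix.transpose_add]
    exact G.al.add_mem ha hb
  | mul a b ha' hb' ha hb =>
    rw [Matrix.transpose_mul]
    exact G.al.mul_mem hb ha

/-- `kk` is not commutative -/
theorem Zr.nonab (hq : 0 < q) (hκ : 2 ≤ finrank ℂ G.kk) :
    ∃ k ∈ G.kk, ∃ k' ∈ G.kk, k * k' ≠ k' * k := by
  by_contra hcon
  push Not at hcon
  haveI : Nonempty (Fin q) := ⟨⟨0, hq⟩⟩
  -- `kk` is central
  let m : Submodule ℂ (Matrix (Fin q) (Fin q) ℂ) :=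
    Submodule.span ℂ {z | ∃ X ∈ G.h0, ∃ k ∈ G.kk, z = X.2 * k - k * X.2}
  have hm : m ≤ G.kk := Submodule.span_le.2 (by
    rintro _ ⟨X, hX, k, hk, rfl⟩
    exact Zr.kk_br hX hk)
  have hnil : ∀ z ∈ m, IsNilpotent z := by
    intro z hz
    obtain ⟨R, hR⟩ := exists_rep (starRingEnd ℂ) z
    obtain ⟨r, -, h2, h3⟩ := tr_rep hR
    have h4 : ∀ w ∈ m, (w * aeval z R).trace = 0 := by
      intro w hw
      induction hw using Submodule.span_induction with
      | mem w hw =>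
        obtain ⟨X, hX, k, hk, rfl⟩ := hw
        have h5 := aeval_commM' R (hcon z (hm hz) k hk)
        rw [Matrix.sub_mul, Matrix.trace_sub, Matrix.mul_assoc, Matrix.mul_assoc k, ← h5,
          Matrix.trace_mul_comm k, Matrix.mul_assoc, sub_self]
      | zero => rw [Matrix.zero_mul, Matrix.trace_zero]
      | add a b _ _ ha hb => rw [Matrix.add_mul, Matrix.trace_add, ha, hb, add_zero]
      | smul c a _ ha => rw [Matrix.smul_mul, Matrix.trace_smul, ha, smul_zero]
    apply h3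
    have h5 := h4 z hz
    rw [h2] at h5
    exact_mod_cast h5
  obtain ⟨v, hv0, hv⟩ := engel m (fun x hx y hy => by
    rw [hcon x (hm hx) y (hm hy), sub_self]
    exact m.zero_mem) hnil
  have hm0 := G.ideal m (fun k hk => hm hk) (fun X hX k hk =>
    Submodule.subset_span ⟨X, hX, k, hm hk, rfl⟩) hv0 hv
  have hcen : ∀ X ∈ G.h0, ∀ k ∈ G.kk, X.2 * k - k * X.2 = 0 := fun X hX k hk =>
    hm0 _ (Submodule.subset_span ⟨X, hX, k, hk, rfl⟩)
  -- singular elements are zero
  have hsing : ∀ k ∈ G.kk, k.det = 0 → k = 0 := by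
    intro k hk hdet
    obtain ⟨v, hv0, hv⟩ := Matrix.exists_mulVec_eq_zero_iff.2 hdet
    have h1 := G.ideal (Submodule.span ℂ {k}) (fun k' hk' => by
      obtain ⟨c, rfl⟩ := Submodule.mem_span_singleton.1 hk'
      exact G.kk.smul_mem c hk) (fun X hX k' hk' => by
      obtain ⟨c, rfl⟩ := Submodule.mem_span_singleton.1 hk'
      rw [Matrix.mul_smul, Matrix.smul_mul, ← smul_sub, hcen X hX k hk, smul_zero]
      exact Submodule.zero_mem _) hv0 (fun k' hk' => by
      obtain ⟨c, rfl⟩ := Submodule.mem_span_singleton.1 hk'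
      rw [Matrix.smul_mulVec, hv, smul_zero])
    exact h1 k (Submodule.mem_span_singleton_self k)
  have hlt : 1 < finrank ℂ G.kk := by omega
  obtain ⟨k, hk0⟩ : ∃ k : G.kk, k ≠ 0 := by
    have : 0 < finrank ℂ G.kk := by omega
    haveI := Module.finrank_pos_iff.1 this
    exact exists_ne 0
  have hk0' : (k : Matrix (Fin q) (Fin q) ℂ) ≠ 0 := fun h => hk0 (Subtype.ext h)
  have hdet : (k : Matrix (Fin q) (Fin q) ℂ).det ≠ 0 := fun h => hk0' (hsing k k.2 h)
  have hall : ∀ k' ∈ G.kk, ∃ c : ℂ, k' = c • (k : Matrix (Fin q) (Fin q) ℂ) := by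
    intro k' hk'
    obtain ⟨c, hc⟩ := Module.End.exists_eigenvalue
      (Matrix.toLin' (k' * (k : Matrix (Fin q) (Fin q) ℂ)⁻¹))
    obtain ⟨v, hv⟩ := hc.exists_hasEigenvector
    refine ⟨c, ?_⟩
    rw [← sub_eq_zero]
    apply hsing _ (G.kk.sub_mem hk' (G.kk.smul_mem c k.2))
    have h1 : (k' * (k : Matrix (Fin q) (Fin q) ℂ)⁻¹ - c • 1) *ᵥ v = 0 := by
      have h2 := hv.1
      rw [End.mem_eigenspace_iff, Matrix.toLin'_apply] at h2
      rw [Matrix.sub_mulVec, h2, Matrix.smul_mulVec, Matrix.one_mulVec, sub_self]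
    have h3 := Matrix.exists_mulVec_eq_zero_iff.1 ⟨v, hv.2, h1⟩
    have h4 : k' - c • (k : Matrix (Fin q) (Fin q) ℂ) =
        (k' * (k : Matrix (Fin q) (Fin q) ℂ)⁻¹ - c • 1) * k := by
      rw [Matrix.sub_mul, Matrix.mul_assoc, Matrix.nonsing_inv_mul _ (isUnit_iff_ne_zero.2 hdet),
        Matrix.mul_one, Matrix.smul_mul, Matrix.one_mul]
    rw [h4, Matrix.det_mul, h3, zero_mul]
  have hle : finrank ℂ G.kk ≤ 1 := by
    apply finrank_le_one k
    intro w
    obtain ⟨c, hc⟩ := hall w w.2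
    exact ⟨c, Subtype.ext hc.symm⟩
  omega

/-- nothing is killed by the commutators -/
theorem Zr.ann (hq : 0 < q) (hκ : 2 ≤ finrank ℂ G.kk) {m : ℕ} {M : Matrix (Fin q) (Fin m) ℂ}
    (hM : ∀ k ∈ G.kk, ∀ k' ∈ G.kk, (k * k' - k' * k) * M = 0) : M = 0 := by
  by_contra hM0
  obtain ⟨j, hj⟩ : ∃ j, M.col j ≠ 0 := by
    by_contra hcon
    push Not at hcon
    apply hM0
    ext i j
    exact congrFun (hcon j) i
  let s : Submodule ℂ (Matrix (Fin q) (Fin q) ℂ) :=
    Submodule.span ℂ {z | ∃ k ∈ G.kk, ∃ k' ∈ G.kk, z = k * k' - k' * k}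
  have hs : s ≤ G.kk := Submodule.span_le.2 (by
    rintro _ ⟨k, hk, k', hk', rfl⟩
    exact Zr.kk_br hk hk')
  have h1 := G.ideal s (fun k hk => hs hk) (fun X hX k hk => by
    induction hk using Submodule.span_induction with
    | mem w hw =>
      obtain ⟨k, hk, k', hk', rfl⟩ := hw
      have h2 : X.2 * (k * k' - k' * k) - (k * k' - k' * k) * X.2 =
          ((X.2 * k - k * X.2) * k' - k' * (X.2 * k - k * X.2)) +
          (k * (X.2 * k' - k' * X.2) - (X.2 * k' - k' * X.2) * k) := by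
        simp only [mul_sub, sub_mul, mul_assoc]
        abel
      rw [h2]
      exact s.add_mem (Submodule.subset_span ⟨_, Zr.kk_br hX hk, k', hk', rfl⟩)
        (Submodule.subset_span ⟨k, hk, _, Zr.kk_br hX hk', rfl⟩)
    | zero => rw [Matrix.mul_zero, Matrix.zero_mul, sub_zero]; exact s.zero_mem
    | add a b _ _ ha hb =>
      have h2 : X.2 * (a + b) - (a + b) * X.2 = (X.2 * a - a * X.2) + (X.2 * b - b * X.2) := by
        rw [mul_add, add_mul]; abel
      rw [h2]
      exact s.add_mem ha hb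
    | smul c a _ ha =>
      rw [Matrix.mul_smul, Matrix.smul_mul, ← smul_sub]
      exact s.smul_mem c ha) (v := M.col j) hj (fun k hk => by
    induction hk using Submodule.span_induction with
    | mem w hw =>
      obtain ⟨k, hk, k', hk', rfl⟩ := hw
      have h2 := hM k hk k' hk'
      funext i
      exact congrFun (congrFun h2 i) j
    | zero => rw [Matrix.zero_mulVec]
    | add a b _ _ ha hb => rw [Matrix.add_mulVec, ha, hb, add_zero]
    | smul c a _ ha => rw [Matrix.smul_mulVec, ha, smul_zero])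
  obtain ⟨k, hk, k', hk', hne⟩ := Zr.nonab hq hκ
  exact hne (sub_eq_zero.1 (h1 _ (Submodule.subset_span ⟨k, hk, k', hk', rfl⟩)))

theorem Zr.ann' (hq : 0 < q) (hκ : 2 ≤ finrank ℂ G.kk) {m : ℕ} {M : Matrix (Fin m) (Fin q) ℂ}
    (hM : ∀ k ∈ G.kk, ∀ k' ∈ G.kk, M * (k * k' - k' * k) = 0) : M = 0 := by
  have h1 : Mᵀ = 0 := by
    apply Zr.ann hq hκ
    intro k hk k' hk'
    have h2 := congrArg Matrix.transpose (hM k' hk' k hk)
    rw [Matrix.transpose_mul, Matrix.transpose_sub, Matrix.transpose_mul, Matrix.transpose_mul,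
      Zr.kk_T hk, Zr.kk_T hk', Matrix.transpose_zero, neg_mul_neg, neg_mul_neg] at h2
    exact h2
  rw [← Matrix.transpose_transpose M, h1, Matrix.transpose_zero]

/-- the trace form is nondegenerate on the algebra generated by `kk` -/
theorem Zr.al_nd (hq : 0 < q) (hκ : 2 ≤ finrank ℂ G.kk) : ND G.al.toSubmodule := by
  haveI : Nonempty (Fin q) := ⟨⟨0, hq⟩⟩
  let N : Submodule ℂ (Matrix (Fin q) (Fin q) ℂ) :=
    { carrier := {x | x ∈ G.al ∧ ∀ y ∈ G.al, (x * y).trace = 0}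
      zero_mem' := ⟨G.al.zero_mem, fun y _ => by rw [Matrix.zero_mul, Matrix.trace_zero]⟩
      add_mem' := fun {a b} ha hb => ⟨G.al.add_mem ha.1 hb.1, fun y hy => by
        rw [Matrix.add_mul, Matrix.trace_add, ha.2 y hy, hb.2 y hy, add_zero]⟩
      smul_mem' := fun c a ha => ⟨G.al.smul_mem ha.1 c, fun y hy => by
        rw [Matrix.smul_mul, Matrix.trace_smul, ha.2 y hy, smul_zero]⟩ }
  have hmul : ∀ x ∈ N, ∀ y ∈ G.al, x * y ∈ N := fun x hx y hy =>
    ⟨G.al.mul_mem hx.1 hy, fun z hz => by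
      rw [Matrix.mul_assoc]; exact hx.2 _ (G.al.mul_mem hy hz)⟩
  have hmul' : ∀ x ∈ N, ∀ y ∈ G.al, y * x ∈ N := fun x hx y hy =>
    ⟨G.al.mul_mem hy hx.1, fun z hz => by
      rw [Matrix.mul_assoc, Matrix.trace_mul_comm, Matrix.mul_assoc]
      exact hx.2 _ (G.al.mul_mem hz hy)⟩
  have hT : ∀ x ∈ N, xᵀ ∈ N := fun x hx => ⟨Zr.alT hx.1, fun y hy => by
    rw [← Matrix.trace_transpose, Matrix.transpose_mul, Matrix.transpose_transpose,
      Matrix.trace_mul_comm]
    exact hx.2 _ (Zr.alT hy)⟩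
  have hbr : ∀ X ∈ G.h0, ∀ x ∈ N, X.2 * x - x * X.2 ∈ N := fun X hX x hx =>
    ⟨Zr.al0 hX hx.1, fun y hy => by
      have h1 := hx.2 _ (Zr.al0 hX hy)
      rw [Matrix.mul_sub, Matrix.trace_sub] at h1
      rw [Matrix.sub_mul, Matrix.trace_sub, Matrix.mul_assoc, Matrix.trace_mul_comm,
        Matrix.mul_assoc, Matrix.mul_assoc]
      linear_combination -h1⟩
  have hnil : ∀ x ∈ N, IsNilpotent x := by
    intro x hx
    obtain ⟨R, hR⟩ := exists_rep (starRingEnd ℂ) x
    obtain ⟨r, -, h2, h3⟩ := tr_rep hR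
    apply h3
    have h4 := hx.2 _ (aeval_memB hx.1 R)
    rw [h2] at h4
    exact_mod_cast h4
  obtain ⟨v, hv0, hv⟩ := engel N (fun x hx y hy => N.sub_mem (hmul x hx y hy.1)
    (hmul y hy x hx.1)) hnil
  let W : Submodule ℂ (Fin q → ℂ) :=
    { carrier := {v | ∀ k ∈ N, k *ᵥ v = 0}
      zero_mem' := fun x _ => Matrix.mulVec_zero x
      add_mem' := fun {a b} ha hb x hx => by rw [Matrix.mulVec_add, ha x hx, hb x hx, add_zero]
      smul_mem' := fun c a ha x hx => by rw [Matrix.mulVec_smul, ha x hx, smul_zero] }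
  have hWs : ∀ X ∈ G.h0, ∀ w ∈ W, X.2 *ᵥ w ∈ W := by
    intro X hX w hw k hk
    have h1 := hw _ (hbr X hX k hk)
    rw [Matrix.sub_mulVec, ← Matrix.mulVec_mulVec, hw k hk, Matrix.mulVec_zero, zero_sub,
      neg_eq_zero, ← Matrix.mulVec_mulVec] at h1
    exact h1
  have hon := G.onto W hWs (w := v) hv hv0
  have hkk : ∀ n' ∈ N, ∀ n ∈ N, n' * n = 0 := by
    intro n' hn' n hn
    apply G.cancel
    intro F' hF'
    apply mul_eq_zero_of_spans (n := 0) hon
    rintro _ ⟨F, hF, w, hw, rfl⟩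
    have h2 := hWs _ (G.b1m F hF _ (Zr.alm hF' hn.1)) w hw
    have h3 : ((n * F' * F)ᵀ - n * F' * F) *ᵥ w = -(n *ᵥ (F' *ᵥ (F *ᵥ w))) := by
      rw [Matrix.sub_mulVec, Matrix.mul_assoc, Matrix.transpose_mul,
        ← Matrix.mulVec_mulVec w _ nᵀ, hw _ (hT n hn), Matrix.mulVec_zero,
        zero_sub, ← Matrix.mulVec_mulVec, ← Matrix.mulVec_mulVec]
    change ((n * F' * F)ᵀ - n * F' * F) *ᵥ w ∈ W at h2
    rw [h3] at h2
    have h4 := h2 n' hn'
    rw [Matrix.mulVec_neg, neg_eq_zero] at h4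
    rw [← Matrix.mulVec_mulVec, ← Matrix.mulVec_mulVec]
    exact h4
  have hskew : ∀ n ∈ N, nᵀ = -n → n = 0 := by
    intro n hn hnT
    apply G.cancel'
    intro F hF
    apply G.nd1 _ (Zr.al1 hF hn.1)
    intro F' hF'
    have hX := G.b1m F hF F' hF'
    set Z := (F' * F)ᵀ - F' * F with hZ
    have h1 : Z * n - n * Z ∈ N := hbr _ hX n hn
    have h2 : IsNilpotent (n * Z) := by
      refine ⟨2, ?_⟩
      have h3 : n * Z * (n * Z) = n * n * Z * Z + n * (Z * n - n * Z) * Z := by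
        simp only [mul_sub, sub_mul, mul_assoc]
        abel
      rw [pow_two, h3, hkk n hn n hn, hkk n hn _ h1]
      simp
    have h4 := tr_nil h2
    rw [hZ, Matrix.mul_sub, Matrix.trace_sub] at h4
    have h5 : (n * (F' * F)ᵀ).trace = -(n * (F' * F)).trace := by
      rw [← Matrix.trace_transpose, Matrix.transpose_mul, Matrix.transpose_transpose, hnT,
        Matrix.mul_neg, Matrix.trace_neg, Matrix.trace_mul_comm]
    rw [h5] at h4
    have h6 : (F * n * F').trace = (n * (F' * F)).trace := by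
      rw [Matrix.mul_assoc, Matrix.trace_mul_comm, Matrix.mul_assoc]
    rw [h6]
    linear_combination (-1 / 2 : ℂ) * h4
  have hsym : ∀ n ∈ N, nᵀ = n := by
    intro n hn
    have h1 := hskew (nᵀ - n) (N.sub_mem (hT n hn) hn) (by
      rw [Matrix.transpose_sub, Matrix.transpose_transpose]; abel)
    exact sub_eq_zero.1 h1
  intro n hn hnn
  have hnN : n ∈ N := ⟨hn, hnn⟩
  apply Zr.ann' hq hκ
  intro k hk k' hk'
  have e0 := hsym n hnN
  have e1 := hsym _ (hmul n hnN k (Zr.kk_al hk))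
  have e2 := hsym _ (hmul n hnN k' (Zr.kk_al hk'))
  have e3 := hsym _ (hmul n hnN _ (G.al.mul_mem (Zr.kk_al hk) (Zr.kk_al hk')))
  rw [Matrix.transpose_mul, e0, Zr.kk_T hk, Matrix.neg_mul] at e1
  rw [Matrix.transpose_mul, e0, Zr.kk_T hk', Matrix.neg_mul] at e2
  rw [Matrix.transpose_mul, Matrix.transpose_mul, e0, Zr.kk_T hk, Zr.kk_T hk', neg_mul_neg] at e3
  -- `k' * k * n = n * k * k'`
  have e4 : n * (k' * k) = k' * k * n := by
    rw [← Matrix.mul_assoc, ← e2, Matrix.neg_mul, Matrix.mul_assoc, ← e1, Matrix.mul_neg, neg_neg,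
      Matrix.mul_assoc]
  rw [Matrix.mul_sub, ← e3, e4, sub_self]

end

end Pool.Agent.Y95.ZL
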