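import Pool.Agent.Y95.ZL.Form

/-!
# Algebras of matrices with a nondegenerate trace form, II
-/

open Finset Module Polynomial Matrix

namespace Pool.Agent.Y95.ZL

noncomputable section

variable {ι : Type} [Fintype ι] [DecidableEq ι]

/-- The only idempotents of `B` are `0` and `1`. -/
def TI (B : Subalgebra ℂ (Matrix ι ι ℂ)) : Prop := ∀ e ∈ B, e * e = e → e = 0 ∨ e = 1

theorem aeval_memB {B : Subalgebra ℂ (Matrix ι ι ℂ)} {b : Matrix ι ι ℂ} (hb : b ∈ B)
    (R : ℂ[X]) : aeval b R ∈ B :=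
  Algebra.adjoin_le (Set.singleton_subset_iff.2 hb) (Polynomial.aeval_mem_adjoin_singleton ℂ b)

theorem ext_gen {V : Type} [AddCommGroup V] [Module ℂ V] [FiniteDimensional ℂ V]
    {f g h : End ℂ V} (hg : ∀ l, ∀ v ∈ f.maxGenEigenspace l, g v = h v) : g = h := by
  have h4 : (⨆ l, f.maxGenEigenspace l) ≤ LinearMap.ker (g - h) := by
    refine iSup_le fun l v hv => ?_
    rw [LinearMap.mem_ker, LinearMap.sub_apply, hg l v hv, sub_self]
  rw [End.iSup_maxGenEigenspace_eq_top f] at h4
  ext v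
  have h5 := h4 (Submodule.mem_top (x := v))
  rw [LinearMap.mem_ker, LinearMap.sub_apply, sub_eq_zero] at h5
  exact h5

/-- spectral idempotents -/
theorem exists_idem (x : Matrix ι ι ℂ) (l : ℂ) : ∃ R : ℂ[X],
    (aeval x R) * (aeval x R) = aeval x R ∧
    (∀ v ∈ End.maxGenEigenspace (Matrix.toLin' x) l, (aeval x R) *ᵥ v = v) ∧
    (∀ m, m ≠ l → ∀ v ∈ End.maxGenEigenspace (Matrix.toLin' x) m, (aeval x R) *ᵥ v = 0) := by
  obtain ⟨R, hR⟩ := exists_rep (fun m => if m = l then 1 else 0) x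
  have h1 : ∀ m, ∀ v ∈ End.maxGenEigenspace (Matrix.toLin' x) m,
      (aeval x R) *ᵥ v = (if m = l then (1 : ℂ) else 0) • v := by
    intro m v hv
    have := hR m v hv
    rwa [aeval_lin, Matrix.toLin'_apply] at this
  refine ⟨R, ?_, ?_, ?_⟩
  · apply (Matrix.toLin' (R := ℂ)).injective
    apply ext_gen (f := Matrix.toLin' x)
    intro m v hv
    rw [Matrix.toLin'_apply, Matrix.toLin'_apply, ← Matrix.mulVec_mulVec, h1 m v hv,
      Matrix.mulVec_smul, h1 m v hv]
    split_ifs <;> simp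
  · intro v hv
    rw [h1 l v hv, if_pos rfl, one_smul]
  · intro m hm v hv
    rw [h1 m v hv, if_neg hm, zero_smul]

theorem single [Nonempty ι] {B : Subalgebra ℂ (Matrix ι ι ℂ)} (hB : TI B) {b : Matrix ι ι ℂ}
    (hb : b ∈ B) : ∃ l : ℂ, IsNilpotent (b - l • (1 : Matrix ι ι ℂ)) := by
  obtain ⟨l, hl⟩ := Module.End.exists_eigenvalue (Matrix.toLin' b)
  obtain ⟨R, h1, h2, h3⟩ := exists_idem b l
  obtain ⟨v, hv⟩ := hl.exists_hasEigenvector
  have hvm : v ∈ End.maxGenEigenspace (Matrix.toLin' b) l :=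
    End.eigenspace_le_maxGenEigenspace hv.1
  refine ⟨l, ?_⟩
  rcases hB _ (aeval_memB hb R) h1 with h | h
  · exfalso
    apply hv.2
    rw [← h2 v hvm, h, Matrix.zero_mulVec]
  · have h4 : End.maxGenEigenspace (Matrix.toLin' b) l = ⊤ := by
      rw [eq_top_iff, ← End.iSup_maxGenEigenspace_eq_top (Matrix.toLin' b)]
      refine iSup_le fun m => ?_
      by_cases hm : m = l
      · rw [hm]
      · intro w hw
        have := h3 m hm w hw
        rw [h, Matrix.one_mulVec] at this
        rw [this]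
        exact Submodule.zero_mem _
    rw [End.maxGenEigenspace_eq_genEigenspace_finrank] at h4
    rw [← nil_lin]
    refine ⟨finrank ℂ (ι → ℂ), ?_⟩
    rw [map_sub, map_smul, Matrix.toLin'_one]
    ext1 i
    apply LinearMap.ext
    intro c
    have h5 : ((LinearMap.single ℂ (fun _ => ℂ) i) c) ∈
        End.genEigenspace (Matrix.toLin' b) l (finrank ℂ (ι → ℂ)) := by rw [h4]; trivial
    rw [End.mem_genEigenspace_nat] at h5
    exact h5

theorem tr_nil {x : Matrix ι ι ℂ} (h : IsNilpotent x) : x.trace = 0 :=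
  (Matrix.isNilpotent_trace_of_isNilpotent h).eq_zero

theorem nil_det [Nonempty ι] {x : Matrix ι ι ℂ} (h : IsNilpotent x) : x.det = 0 := by
  obtain ⟨k, hk⟩ := h
  have := congrArg Matrix.det hk
  rw [Matrix.det_pow, Matrix.det_zero] at this
  exact eq_zero_of_pow_eq_zero this

/-- an algebra with nondegenerate trace form and trivial idempotents is the algebra of scalars -/
theorem loc [Nonempty ι] {B : Subalgebra ℂ (Matrix ι ι ℂ)} (hnd : ND B.toSubmodule)
    (hB : TI B) {b : Matrix ι ι ℂ} (hb : b ∈ B) : ∃ c : ℂ, b = c • (1 : Matrix ι ι ℂ) := by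
  obtain ⟨l, hl⟩ := single hB hb
  refine ⟨l, ?_⟩
  rw [← sub_eq_zero]
  have hm : b - l • (1 : Matrix ι ι ℂ) ∈ B := B.sub_mem hb (B.smul_mem B.one_mem l)
  apply hnd _ hm
  intro y hy
  have hy' : y ∈ B := hy
  obtain ⟨m, hm'⟩ := single hB (B.mul_mem hm hy')
  have hm0 : m = 0 := by
    by_contra hne
    have h1 : IsUnit (m • (1 : Matrix ι ι ℂ)) := by
      rw [← Algebra.algebraMap_eq_smul_one]
      exact (isUnit_iff_ne_zero.2 hne).map _
    have h2 : IsUnit (((b - l • (1 : Matrix ι ι ℂ)) * y - m • (1 : Matrix ι ι ℂ)) +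
        m • (1 : Matrix ι ι ℂ)) := by
      apply IsNilpotent.isUnit_add_right_of_commute hm' h1
      exact (Commute.one_right _).smul_right m
    rw [sub_add_cancel, Matrix.isUnit_iff_isUnit_det, Matrix.det_mul, nil_det hl, zero_mul] at h2
    exact not_isUnit_zero h2
  rw [hm0, zero_smul, sub_zero] at hm'
  exact tr_nil hm'

theorem sum_commutes {A : Submodule ℂ (Matrix ι ι ℂ)} {k : ℕ} {b : Fin k → Matrix ι ι ℂ}
    (hb : ∀ i, b i ∈ A) (hx : ∀ x ∈ A, x = ∑ j, (x * b j).trace • b j) {a : Matrix ι ι ℂ}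
    (h1 : ∀ x ∈ A, a * x ∈ A) (h2 : ∀ x ∈ A, x * a ∈ A) (M : Matrix ι ι ℂ) :
    a * (∑ i, b i * M * b i) = (∑ i, b i * M * b i) * a := by
  rw [Finset.mul_sum, Finset.sum_mul]
  have e1 : ∀ i, a * (b i * M * b i) = ∑ j, (a * b i * b j).trace • (b j * M * b i) := by
    intro i
    have h3 := hx _ (h1 _ (hb i))
    calc a * (b i * M * b i) = (a * b i) * M * b i := by simp only [Matrix.mul_assoc]
      _ = (∑ j, (a * b i * b j).trace • b j) * M * b i := by rw [← h3]
      _ = _ := by simp only [Finset.sum_mul, Matrix.smul_mul]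
  have e2 : ∀ i, (b i * M * b i) * a = ∑ j, (b i * a * b j).trace • (b i * M * b j) := by
    intro i
    have h3 := hx _ (h2 _ (hb i))
    calc (b i * M * b i) * a = b i * M * (b i * a) := by simp only [Matrix.mul_assoc]
      _ = b i * M * (∑ j, (b i * a * b j).trace • b j) := by rw [← h3]
      _ = _ := by simp only [Finset.mul_sum, Matrix.mul_smul]
  simp only [e1, e2]
  rw [Finset.sum_comm]
  refine Finset.sum_congr rfl fun i _ => Finset.sum_congr rfl fun j _ => ?_
  congr 1
  rw [Matrix.mul_assoc, Matrix.trace_mul_comm, Matrix.mul_assoc, Matrix.trace_mul_comm,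
    Matrix.mul_assoc, Matrix.trace_mul_comm, Matrix.mul_assoc]

theorem smul_one_inj [Nonempty ι] {c d : ℂ} (h : c • (1 : Matrix ι ι ℂ) = d • 1) : c = d := by
  obtain ⟨i⟩ := ‹Nonempty ι›
  have := congrFun (congrFun h i) i
  simpa using this

/-- an algebra with nondegenerate trace form and trivial commutant is everything -/
theorem full [Nonempty ι] {A : Subalgebra ℂ (Matrix ι ι ℂ)} (hnd : ND A.toSubmodule)
    (hc : ∀ c, (∀ a ∈ A, a * c = c * a) → ∃ z : ℂ, c = z • (1 : Matrix ι ι ℂ))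
    (X : Matrix ι ι ℂ) : X ∈ A := by
  obtain ⟨b, hb, hbb, hx⟩ := hnd.basis
  have hcard : (Fintype.card ι : ℂ) ≠ 0 := by
    rw [Nat.cast_ne_zero]
    exact Fintype.card_ne_zero
  have hT : ∀ M, ∃ z : ℂ, ∑ i, b i * M * b i = z • (1 : Matrix ι ι ℂ) := fun M =>
    hc _ fun a ha => sum_commutes hb hx (fun x hx' => A.mul_mem ha hx')
      (fun x hx' => A.mul_mem hx' ha) M
  obtain ⟨ω, hω⟩ := hT 1
  have hT2 : ∀ M, ∑ i, b i * M * b i = ((ω / Fintype.card ι) * M.trace) • (1 : Matrix ι ι ℂ) := by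
    intro M
    obtain ⟨z, hz⟩ := hT M
    have h1 : (∑ i, b i * M * b i).trace = (M * ∑ i, b i * 1 * b i).trace := by
      rw [Finset.mul_sum, Matrix.trace_sum, Matrix.trace_sum]
      refine Finset.sum_congr rfl fun i _ => ?_
      rw [Matrix.mul_one, Matrix.trace_mul_comm, ← Matrix.mul_assoc, Matrix.trace_mul_comm]
    rw [hz, hω, Matrix.mul_smul, Matrix.mul_one, Matrix.trace_smul, Matrix.trace_smul,
      Matrix.trace_one, smul_eq_mul, smul_eq_mul] at h1
    rw [hz]
    congr 1
    field_simp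
    linear_combination h1
  have key : ∀ Y, ∑ i, (Y * b i).trace • b i = (ω / Fintype.card ι) • Y := by
    intro Y
    ext k l
    rw [Matrix.sum_apply]
    simp only [Matrix.smul_apply, smul_eq_mul]
    have e1 : ∀ r s, ∑ i, b i k l * b i r s = if l = r ∧ k = s then ω / Fintype.card ι else 0 := by
      intro r s
      have h1 := congrFun (congrFun (hT2 (Matrix.single l r 1)) k) s
      rw [Matrix.sum_apply] at h1
      have h2 : ∀ i, (b i * (Matrix.single l r (1 : ℂ) : Matrix ι ι ℂ) * b i) k s =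
          b i k l * b i r s := by
        intro i
        rw [Matrix.mul_apply, Finset.sum_eq_single r]
        · rw [Matrix.mul_single_apply_same, mul_one]
        · intro t _ ht
          rw [Matrix.mul_single_apply_of_ne _ _ _ _ _ ht, zero_mul]
        · simp
      simp only [h2] at h1
      rw [h1, Matrix.smul_apply, Matrix.one_apply, smul_eq_mul]
      by_cases hlr : l = r
      · subst hlr
        rw [Matrix.trace_single_eq_same]
        by_cases hks : k = s <;> simp [hks]
      · rw [Matrix.trace_single_eq_of_ne _ _ _ hlr]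
        simp [hlr]
    calc ∑ i, (Y * b i).trace * b i k l
        = ∑ i, ∑ s, ∑ r, Y s r * (b i k l * b i r s) := by
          refine Finset.sum_congr rfl fun i _ => ?_
          rw [Matrix.trace, Finset.sum_mul]
          refine Finset.sum_congr rfl fun s _ => ?_
          rw [Matrix.diag_apply, Matrix.mul_apply, Finset.sum_mul]
          refine Finset.sum_congr rfl fun r _ => ?_
          ring
      _ = ∑ s, ∑ r, Y s r * ∑ i, (b i k l * b i r s) := by
          rw [Finset.sum_comm]
          refine Finset.sum_congr rfl fun s _ => ?_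
          rw [Finset.sum_comm]
          refine Finset.sum_congr rfl fun r _ => ?_
          rw [Finset.mul_sum]
      _ = ω / Fintype.card ι * Y k l := by
          simp only [e1, mul_ite, mul_zero]
          rw [Finset.sum_eq_single k, Finset.sum_eq_single l]
          · simp [mul_comm]
          · intro r _ hr
            rw [if_neg]
            exact fun h => hr h.1.symm
          · simp
          · intro s _ hs
            refine Finset.sum_eq_zero fun r _ => ?_
            rw [if_neg]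
            exact fun h => hs h.2.symm
          · simp
  have hs : ω / Fintype.card ι = 1 := by
    have h1 := hx 1 A.one_mem
    rw [key 1] at h1
    apply smul_one_inj (ι := ι)
    rw [← h1, one_smul]
  have h2 := key X
  rw [hs, one_smul] at h2
  rw [← h2]
  exact A.sum_mem fun i _ => A.smul_mem (hb i) _

/-- the trace form on `A` is nondegenerate and the centre is the field of scalars -/
structure Fac (A : Subalgebra ℂ (Matrix ι ι ℂ)) : Prop where
  nd : ND A.toSubmodule
  cen : ∀ z ∈ A, (∀ a ∈ A, a * z = z * a) → ∃ c : ℂ, z = c • (1 : Matrix ι ι ℂ)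

/-- the tools for a central simple algebra -/
theorem Fac.tools [Nonempty ι] {A : Subalgebra ℂ (Matrix ι ι ℂ)} (h : Fac A) :
    ∃ (T : Matrix ι ι ℂ → Matrix ι ι ℂ) (ω : ℂ), ω ≠ 0 ∧
      (∀ M, ∀ a ∈ A, a * T M = T M * a) ∧
      (∀ a ∈ A, T a = (ω / Fintype.card ι * a.trace) • (1 : Matrix ι ι ℂ)) ∧
      (∀ c, (∀ a ∈ A, a * c = c * a) → ∀ M, T (M * c) = T M * c) ∧
      (∀ M N, T (M + N) = T M + T N) ∧
      (∀ c, (∀ a ∈ A, a * c = c * a) → T c = ω • c) ∧
      (∀ M N, (T M * N).trace = (M * T N).trace) ∧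
      (∀ u ∈ A, ∀ M, (∀ x ∈ A, u * x * M = 0) → u = 0 ∨ M = 0) := by
  obtain ⟨b, hb, hbb, hx⟩ := h.nd.basis
  have hcard : (Fintype.card ι : ℂ) ≠ 0 := by
    rw [Nat.cast_ne_zero]
    exact Fintype.card_ne_zero
  let T : Matrix ι ι ℂ → Matrix ι ι ℂ := fun M => ∑ i, b i * M * b i
  have hT : ∀ M, T M = ∑ i, b i * M * b i := fun _ => rfl
  have t1 : ∀ M, ∀ a ∈ A, a * T M = T M * a := fun M a ha =>
    sum_commutes hb hx (fun x hx' => A.mul_mem ha hx') (fun x hx' => A.mul_mem hx' ha) M
  have t2 : ∀ a ∈ A, T a ∈ A := fun a ha =>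
    A.sum_mem fun i _ => A.mul_mem (A.mul_mem (hb i) ha) (hb i)
  obtain ⟨ω, hω⟩ := h.cen _ (t2 1 A.one_mem) (t1 1)
  have t3 : ∀ M N, (T M * N).trace = (M * T N).trace := by
    intro M N
    rw [hT, hT, Finset.sum_mul, Finset.mul_sum, Matrix.trace_sum, Matrix.trace_sum]
    refine Finset.sum_congr rfl fun i _ => ?_
    rw [Matrix.mul_assoc, Matrix.mul_assoc, Matrix.trace_mul_comm]
    simp only [Matrix.mul_assoc]
  have t4 : ∀ a ∈ A, T a = (ω / Fintype.card ι * a.trace) • (1 : Matrix ι ι ℂ) := by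
    intro a ha
    obtain ⟨z, hz⟩ := h.cen _ (t2 a ha) (t1 a)
    have h1 := t3 a 1
    rw [hz, hω, Matrix.mul_one, Matrix.mul_smul, Matrix.mul_one, Matrix.trace_smul,
      Matrix.trace_smul, Matrix.trace_one, smul_eq_mul, smul_eq_mul] at h1
    rw [hz]
    congr 1
    field_simp
    linear_combination h1
  have t5 : ∀ c, (∀ a ∈ A, a * c = c * a) → ∀ M, T (M * c) = T M * c := by
    intro c hc M
    rw [hT, hT, Finset.sum_mul]
    refine Finset.sum_congr rfl fun i _ => ?_
    rw [Matrix.mul_assoc, Matrix.mul_assoc, Matrix.mul_assoc (b i) M, Matrix.mul_assoc (b i)]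
    congr 1
    rw [Matrix.mul_assoc]
    congr 1
    exact (hc _ (hb i)).symm
  have t6 : ∀ c, (∀ a ∈ A, a * c = c * a) → T c = ω • c := by
    intro c hc
    have := t5 c hc 1
    rw [Matrix.one_mul] at this
    rw [this, hω, Matrix.smul_mul, Matrix.one_mul]
  have hω0 : ω ≠ 0 := by
    intro h0
    have h1 : (∑ i, (b i * b i).trace) = 0 := by
      have := congrArg Matrix.trace hω
      rw [h0, zero_smul, Matrix.trace_zero, hT, Matrix.trace_sum] at this
      rw [← this]
      exact Finset.sum_congr rfl fun i _ => by rw [Matrix.mul_one]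
    simp only [hbb, if_true, Finset.sum_const, Finset.card_univ, Fintype.card_fin,
      nsmul_eq_mul, mul_one, Nat.cast_eq_zero] at h1
    have h2 := hx 1 A.one_mem
    have h3 : IsEmpty (Fin (finrank ℂ A.toSubmodule)) := by rw [h1]; infer_instance
    rw [Finset.univ_eq_empty, Finset.sum_empty] at h2
    exact one_ne_zero h2
  refine ⟨T, ω, hω0, t1, t4, t5, ?_, t6, t3, ?_⟩
  · intro M N
    rw [hT, hT, hT, ← Finset.sum_add_distrib]
    exact Finset.sum_congr rfl fun i _ => by rw [Matrix.mul_add, Matrix.add_mul]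
  · intro u hu M hM
    by_cases hu0 : u = 0
    · exact Or.inl hu0
    right
    obtain ⟨y, hy, hyu⟩ : ∃ y ∈ A, (u * y).trace ≠ 0 := by
      by_contra hcon
      push Not at hcon
      exact hu0 (h.nd u hu fun y hy => hcon y hy)
    have h1 : T (y * u) * M = 0 := by
      rw [hT, Finset.sum_mul]
      refine Finset.sum_eq_zero fun i _ => ?_
      rw [← Matrix.mul_assoc, Matrix.mul_assoc (b i * y), Matrix.mul_assoc (b i * y),
        hM _ (hb i), Matrix.mul_zero]
    rw [t4 _ (A.mul_mem hy hu), Matrix.smul_mul, Matrix.one_mul, Matrix.trace_mul_comm] at h1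
    rcases smul_eq_zero.1 h1 with h2 | h2
    · exfalso
      rcases mul_eq_zero.1 h2 with h3 | h3
      · rcases div_eq_zero_iff.1 h3 with h4 | h4
        · exact hω0 h4
        · exact hcard h4
      · exact hyu h3
    · exact h2

/-- the commutant -/
def cm (A : Subalgebra ℂ (Matrix ι ι ℂ)) : Subalgebra ℂ (Matrix ι ι ℂ) :=
  Subalgebra.centralizer ℂ (A : Set (Matrix ι ι ℂ))

theorem mem_cm {A : Subalgebra ℂ (Matrix ι ι ℂ)} {c : Matrix ι ι ℂ} :
    c ∈ cm A ↔ ∀ a ∈ A, a * c = c * a := by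
  rw [cm, Subalgebra.mem_centralizer_iff]
  rfl

/-- the trace form is nondegenerate on the commutant -/
theorem Fac.nd_cm [Nonempty ι] {A : Subalgebra ℂ (Matrix ι ι ℂ)} (h : Fac A) :
    ND (cm A).toSubmodule := by
  obtain ⟨T, ω, hω, t1, t2, t3, t4, t5, t6, t7⟩ := h.tools
  intro c hc hcc
  have hc' := mem_cm.1 hc
  apply tr_ext
  intro y
  rw [Matrix.zero_mul, Matrix.trace_zero]
  have h1 := t6 c y
  rw [t5 c hc', Matrix.smul_mul, Matrix.trace_smul, hcc (T y) (mem_cm.2 (t1 y)), smul_eq_zero] at h1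
  exact h1.resolve_left hω

/-- `T` is a trace for the left action of `A` -/
theorem Fac.tr_cm [Nonempty ι] {A : Subalgebra ℂ (Matrix ι ι ℂ)} (h : Fac A)
    {a c : Matrix ι ι ℂ} (ha : a ∈ A) (hc : c ∈ cm A) :
    (a * c).trace = a.trace * c.trace / Fintype.card ι := by
  obtain ⟨T, ω, hω, t1, t2, t3, t4, t5, t6, t7⟩ := h.tools
  have hcard : (Fintype.card ι : ℂ) ≠ 0 := by
    rw [Nat.cast_ne_zero]
    exact Fintype.card_ne_zero
  have h1 := t6 a c
  rw [t5 c (mem_cm.1 hc), t2 a ha, Matrix.mul_smul, Matrix.smul_mul, Matrix.one_mul,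
    Matrix.trace_smul, Matrix.trace_smul, smul_eq_mul, smul_eq_mul] at h1
  have h2 : ω * (a * c).trace = ω * (a.trace * c.trace / Fintype.card ι) := by
    rw [← h1]
    ring
  exact mul_left_cancel₀ hω h2

end

end Pool.Agent.Y95.ZL
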