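import Pool.Agent.Y95.ZL.Theta

/-!
# The Casimir inequality
-/

open Finset Module Polynomial Matrix
open Pool.Agent.W544.PG Pool.Agent.W216.PG

namespace Pool.Agent.Y95.ZL

noncomputable section

/-- the Casimir operator commutes with the Lie algebra -/
theorem casimir {ι κ : Type} [Fintype ι] [DecidableEq ι] [Fintype κ]
    {h : Submodule ℂ (Matrix ι ι ℂ)} (hbr : ∀ x ∈ h, ∀ y ∈ h, x * y - y * x ∈ h)
    (x x' : κ → Matrix ι ι ℂ) (hx : ∀ k, x k ∈ h) (hx' : ∀ k, x' k ∈ h)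
    (e1 : ∀ Z ∈ h, Z = ∑ k, (Z * x' k).trace • x k)
    (e2 : ∀ Z ∈ h, Z = ∑ k, (Z * x k).trace • x' k) :
    ∀ Z ∈ h, Z * (∑ k, x k * x' k) = (∑ k, x k * x' k) * Z := by
  intro Z hZ
  rw [← sub_eq_zero, Finset.mul_sum, Finset.sum_mul, ← Finset.sum_sub_distrib]
  have h1 : ∀ k, Z * (x k * x' k) - x k * x' k * Z =
      (Z * x k - x k * Z) * x' k + x k * (Z * x' k - x' k * Z) := by
    intro k
    rw [sub_mul, mul_sub]
    simp only [mul_assoc]
    abel
  have h2 : ∀ k, (Z * x k - x k * Z) * x' k =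
      ∑ j, ((Z * x k - x k * Z) * x' j).trace • (x j * x' k) := by
    intro k
    conv_lhs => rw [e1 _ (hbr Z hZ _ (hx k)), Finset.sum_mul]
    exact Finset.sum_congr rfl fun j _ => by rw [smul_mul_assoc]
  have h3 : ∀ k, x k * (Z * x' k - x' k * Z) =
      ∑ j, ((Z * x' k - x' k * Z) * x j).trace • (x k * x' j) := by
    intro k
    conv_lhs => rw [e2 _ (hbr Z hZ _ (hx' k)), Finset.mul_sum]
    exact Finset.sum_congr rfl fun j _ => by rw [mul_smul_comm]
  simp only [h1, Finset.sum_add_distrib, h2, h3]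
  rw [Finset.sum_comm, ← Finset.sum_add_distrib]
  refine Finset.sum_eq_zero fun j _ => ?_
  rw [← Finset.sum_add_distrib]
  refine Finset.sum_eq_zero fun k _ => ?_
  rw [← add_smul]
  have h4 : ((Z * x k - x k * Z) * x' j).trace + ((Z * x' j - x' j * Z) * x k).trace = 0 := by
    rw [Matrix.sub_mul, Matrix.sub_mul, Matrix.trace_sub, Matrix.trace_sub,
      Matrix.mul_assoc (x k), Matrix.trace_mul_comm (x k), Matrix.mul_assoc (x' j),
      Matrix.trace_mul_comm (x' j)]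
    ring
  rw [h4, zero_smul]

variable {p q : ℕ} {h : Submodule ℂ (Matrix (I p q) (I p q) ℂ)}

/-- the projection on the part of degree one -/
def P1 (p q : ℕ) : Matrix (I p q) (I p q) ℂ := bl 1 0 0 0 0 0 0 0 0

theorem LA.cas_aux (H : LA h) (hp : 0 < p) (hnd : ND h)
    (hrep : ∀ x ∈ h, ∀ R, Rm R x → aeval x R ∈ h)
    (hcom : ∀ c, (∀ s ∈ h, s * c = c * s) → ∃ z : ℂ, c = z • (1 : Matrix (I p q) (I p q) ℂ))
    {d0 a b : ℕ} {X : Fin d0 → Matrix (Fin p) (Fin p) ℂ × Matrix (Fin q) (Fin q) ℂ}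
    {F : Fin a → Matrix (Fin p) (Fin q) ℂ} {G : Fin a → Matrix (Fin q) (Fin p) ℂ}
    {Y Y' : Fin b → Matrix (Fin p) (Fin p) ℂ} (hX : ∀ i, big0 (X i) ∈ h)
    (hXX : ∀ i j, B00 p q (X i) (X j) = if i = j then 1 else 0)
    (hXd : ∀ x, big0 x ∈ h → x = ∑ j, B00 p q x (X j) • X j)
    (hF : ∀ i, big1 (F i) ∈ h) (hG : ∀ i, bigm (G i) ∈ h)
    (hFG : ∀ i j, trB _ _ (F i) (G j) = if i = j then 1 else 0)
    (hFd : ∀ x, big1 x ∈ h → x = ∑ j, trB _ _ x (G j) • F j)
    (hGd : ∀ y, bigm y ∈ h → y = ∑ j, trB _ _ (F j) y • G j)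
    (hY : ∀ i, (big2 (Y i) : Matrix (I p q) (I p q) ℂ) ∈ h)
    (hY' : ∀ i, (bign (Y' i) : Matrix (I p q) (I p q) ℂ) ∈ h)
    (hYY : ∀ i j, trB _ _ (Y i) (Y' j) = if i = j then 1 else 0)
    (hYd : ∀ x, (big2 x : Matrix (I p q) (I p q) ℂ) ∈ h → x = ∑ j, trB _ _ x (Y' j) • Y j)
    (hYd' : ∀ y, (bign y : Matrix (I p q) (I p q) ℂ) ∈ h → y = ∑ j, trB _ _ (Y j) y • Y' j) :
    q * (d0 + 2 * a + 2 * b) + (2 * p + q) ≤ (2 * p + q) * (d0 + a) := by
  obtain ⟨θ, hθ1, hθ2⟩ := (H.zr hp hnd hrep).theta hp hX hXX hXd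
  have hexp : ∀ Z ∈ h, Z = ∑ i, (Z * big0 (X i)).trace • big0 (X i) +
      ∑ i, (Z * ((1 / 2 : ℂ) • bigm (G i))).trace • big1 (F i) +
      ∑ i, (Z * big1 (F i)).trace • ((1 / 2 : ℂ) • bigm (G i)) +
      ∑ i, (Z * bign (Y' i)).trace • big2 (Y i) +
      ∑ i, (Z * big2 (Y i)).trace • bign (Y' i) := by
    intro Z hZ
    obtain ⟨X0, F0, G0, Y0, Y0', rfl, m0, m1, mm, m2, mn⟩ := H.dec hZ
    have c0 : ∀ i, ((big0 X0 + big1 F0 + bigm G0 + big2 Y0 + bign Y0') * big0 (X i)).trace =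
        B00 p q X0 (X i) := by
      intro i
      simp only [add_mul, Matrix.trace_add]
      rw [tr00, Matrix.trace_mul_comm (big1 F0), tr01, Matrix.trace_mul_comm (bigm G0), tr0m,
        Matrix.trace_mul_comm (big2 Y0), tr02, Matrix.trace_mul_comm (bign Y0'), tr0n, B00_apply]
      ring
    have c1 : ∀ i, ((big0 X0 + big1 F0 + bigm G0 + big2 Y0 + bign Y0') *
        ((1 / 2 : ℂ) • bigm (G i))).trace = trB _ _ F0 (G i) := by
      intro i
      simp only [add_mul, Matrix.trace_add, Matrix.mul_smul, Matrix.trace_smul]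
      rw [tr0m, tr1m, trmm, Matrix.trace_mul_comm (big2 Y0), trm2,
        Matrix.trace_mul_comm (bign Y0'), trmn, trB_apply]
      simp
    have c2 : ∀ i, ((big0 X0 + big1 F0 + bigm G0 + big2 Y0 + bign Y0') * big1 (F i)).trace =
        2 * trB _ _ (F i) G0 := by
      intro i
      simp only [add_mul, Matrix.trace_add]
      rw [tr01, tr11, Matrix.trace_mul_comm (bigm G0), tr1m, Matrix.trace_mul_comm (big2 Y0),
        tr12, Matrix.trace_mul_comm (bign Y0'), tr1n, trB_apply]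
      ring
    have c3 : ∀ i, ((big0 X0 + big1 F0 + bigm G0 + big2 Y0 + bign Y0') * bign (Y' i)).trace =
        trB _ _ Y0 (Y' i) := by
      intro i
      simp only [add_mul, Matrix.trace_add]
      rw [tr0n, tr1n, trmn, tr2n, trnn, trB_apply]
      ring
    have c4 : ∀ i, ((big0 X0 + big1 F0 + bigm G0 + big2 Y0 + bign Y0') * big2 (Y i)).trace =
        trB _ _ (Y i) Y0' := by
      intro i
      simp only [add_mul, Matrix.trace_add]
      rw [tr02, tr12, trm2, tr22, Matrix.trace_mul_comm (bign Y0'), tr2n, trB_apply]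
      ring
    simp only [c0, c1, c2, c3, c4]
    have f0 : ∑ i, B00 p q X0 (X i) • big0 (X i) = big0 X0 := by
      conv_rhs => rw [hXd X0 m0]
      change _ = GRD.L0 _
      rw [map_sum]
      exact Finset.sum_congr rfl fun i _ => by rw [map_smul]; rfl
    have f1 : ∑ i, trB _ _ F0 (G i) • big1 (F i) = big1 F0 := by
      conv_rhs => rw [hFd F0 m1]
      change _ = GRD.L1 _
      rw [map_sum]
      exact Finset.sum_congr rfl fun i _ => by rw [map_smul]; rfl
    have f2 : ∑ i, (2 * trB _ _ (F i) G0) • ((1 / 2 : ℂ) • bigm (G i)) = bigm G0 := by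
      conv_rhs => rw [hGd G0 mm]
      change _ = Lm _
      rw [map_sum]
      refine Finset.sum_congr rfl fun i _ => ?_
      rw [map_smul, smul_smul]
      change _ = _ • bigm (G i)
      congr 1
      ring
    have f3 : ∑ i, trB _ _ Y0 (Y' i) • (big2 (Y i) : Matrix (I p q) (I p q) ℂ) = big2 Y0 := by
      conv_rhs => rw [hYd Y0 m2]
      change _ = GRD.L2 p q _
      rw [map_sum]
      exact Finset.sum_congr rfl fun i _ => by rw [map_smul]; rfl
    have f4 : ∑ i, trB _ _ (Y i) Y0' • (bign (Y' i) : Matrix (I p q) (I p q) ℂ) = bign Y0' := by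
      conv_rhs => rw [hYd' Y0' mn]
      change _ = Ln p q _
      rw [map_sum]
      exact Finset.sum_congr rfl fun i _ => by rw [map_smul]; rfl
    rw [f0, f1, f2, f3, f4]
  let x : Fin d0 ⊕ ((Fin a ⊕ Fin a) ⊕ (Fin b ⊕ Fin b)) → Matrix (I p q) (I p q) ℂ :=
    Sum.elim (fun i => big0 (X i)) (Sum.elim (Sum.elim (fun i => big1 (F i))
      (fun i => (1 / 2 : ℂ) • bigm (G i))) (Sum.elim (fun i => big2 (Y i)) (fun i => bign (Y' i))))
  let x' : Fin d0 ⊕ ((Fin a ⊕ Fin a) ⊕ (Fin b ⊕ Fin b)) → Matrix (I p q) (I p q) ℂ :=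
    Sum.elim (fun i => big0 (X i)) (Sum.elim (Sum.elim (fun i => (1 / 2 : ℂ) • bigm (G i))
      (fun i => big1 (F i))) (Sum.elim (fun i => bign (Y' i)) (fun i => big2 (Y i))))
  have hx : ∀ k, x k ∈ h := by
    rintro (i | (i | i) | (i | i))
    · exact hX i
    · exact hF i
    · exact h.smul_mem _ (hG i)
    · exact hY i
    · exact hY' i
  have hx' : ∀ k, x' k ∈ h := by
    rintro (i | (i | i) | (i | i))
    · exact hX i
    · exact h.smul_mem _ (hG i)
    · exact hF i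
    · exact hY' i
    · exact hY i
  obtain ⟨c, hc⟩ := hcom _ (casimir H.br x x' hx hx' (fun Z hZ => by
      rw [Fintype.sum_sum_type, Fintype.sum_sum_type, Fintype.sum_sum_type, Fintype.sum_sum_type]
      have := hexp Z hZ
      rw [add_assoc, add_assoc, add_assoc] at this
      rw [add_assoc]
      exact this) (fun Z hZ => by
      rw [Fintype.sum_sum_type, Fintype.sum_sum_type, Fintype.sum_sum_type, Fintype.sum_sum_type]
      have := hexp Z hZ
      refine this.trans ?_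
      simp only [x, x', Sum.elim_inl, Sum.elim_inr]
      abel))
  have hcard : (Fintype.card (I p q) : ℂ) = 2 * p + q := by
    simp only [I, Fintype.card_sum, Fintype.card_fin]
    push_cast
    ring
  have t1 : c * (2 * p + q) = d0 + 2 * a + 2 * b := by
    have h1 := congrArg Matrix.trace hc
    rw [Matrix.trace_smul, Matrix.trace_one, hcard, smul_eq_mul, Matrix.trace_sum,
      Fintype.sum_sum_type, Fintype.sum_sum_type, Fintype.sum_sum_type, Fintype.sum_sum_type] at h1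
    rw [← h1]
    have g0 : ∀ i, (x (Sum.inl i) * x' (Sum.inl i)).trace = 1 := by
      intro i
      change (big0 (X i) * big0 (X i)).trace = 1
      rw [tr00, ← B00_apply, hXX, if_pos rfl]
    have g1 : ∀ i, (x (Sum.inr (Sum.inl (Sum.inl i))) *
        x' (Sum.inr (Sum.inl (Sum.inl i)))).trace = 1 := by
      intro i
      change (big1 (F i) * ((1 / 2 : ℂ) • bigm (G i))).trace = 1
      rw [Matrix.mul_smul, Matrix.trace_smul, tr1m, ← trB_apply, hFG, if_pos rfl]
      norm_num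
    have g2 : ∀ i, (x (Sum.inr (Sum.inl (Sum.inr i))) *
        x' (Sum.inr (Sum.inl (Sum.inr i)))).trace = 1 := by
      intro i
      change (((1 / 2 : ℂ) • bigm (G i)) * big1 (F i)).trace = 1
      rw [Matrix.trace_mul_comm, Matrix.mul_smul, Matrix.trace_smul, tr1m, ← trB_apply, hFG,
        if_pos rfl]
      norm_num
    have g3 : ∀ i, (x (Sum.inr (Sum.inr (Sum.inl i))) *
        x' (Sum.inr (Sum.inr (Sum.inl i)))).trace = 1 := by
      intro i
      change (big2 (Y i) * bign (Y' i)).trace = 1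
      rw [tr2n, ← trB_apply, hYY, if_pos rfl]
    have g4 : ∀ i, (x (Sum.inr (Sum.inr (Sum.inr i))) *
        x' (Sum.inr (Sum.inr (Sum.inr i)))).trace = 1 := by
      intro i
      change (bign (Y' i) * big2 (Y i)).trace = 1
      rw [Matrix.trace_mul_comm, tr2n, ← trB_apply, hYY, if_pos rfl]
    simp only [g0, g1, g2, g3, g4, Finset.sum_const, Finset.card_univ, Fintype.card_fin,
      nsmul_eq_mul, mul_one]
    ring
  have t2 : c * p = θ + a / 2 + b := by
    have h1 := congrArg (fun t => (P1 p q * t).trace) hc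
    simp only [Matrix.mul_smul, Matrix.mul_one, Matrix.trace_smul, smul_eq_mul] at h1
    have hP : (P1 p q).trace = p := by
      rw [P1, bl_trace]
      simp
    rw [hP, Finset.mul_sum, Matrix.trace_sum,
      Fintype.sum_sum_type, Fintype.sum_sum_type, Fintype.sum_sum_type, Fintype.sum_sum_type] at h1
    rw [← h1, ← hθ2]
    have g0 : ∀ i, (P1 p q * (x (Sum.inl i) * x' (Sum.inl i))).trace =
        ((X i).1 * (X i).1).trace := by
      intro i
      change (P1 p q * (big0 (X i) * big0 (X i))).trace = _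
      rw [P1, big0_eq, bl_mul, bl_mul, bl_trace]
      simp
    have g1 : ∀ i, (P1 p q * (x (Sum.inr (Sum.inl (Sum.inl i))) *
        x' (Sum.inr (Sum.inl (Sum.inl i))))).trace = 1 / 2 := by
      intro i
      change (P1 p q * (big1 (F i) * ((1 / 2 : ℂ) • bigm (G i)))).trace = _
      rw [Matrix.mul_smul, Matrix.mul_smul, Matrix.trace_smul, P1, big1_eq, bigm, bl_mul, bl_mul,
        bl_trace]
      have := hFG i i
      rw [trB_apply, if_pos rfl] at this
      simp [this]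
    have g2 : ∀ i, (P1 p q * (x (Sum.inr (Sum.inl (Sum.inr i))) *
        x' (Sum.inr (Sum.inl (Sum.inr i))))).trace = 0 := by
      intro i
      change (P1 p q * (((1 / 2 : ℂ) • bigm (G i)) * big1 (F i))).trace = _
      rw [Matrix.smul_mul, Matrix.mul_smul, Matrix.trace_smul, P1, big1_eq, bigm, bl_mul, bl_mul,
        bl_trace]
      simp
    have g3 : ∀ i, (P1 p q * (x (Sum.inr (Sum.inr (Sum.inl i))) *
        x' (Sum.inr (Sum.inr (Sum.inl i))))).trace = 1 := by
      intro i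
      change (P1 p q * (big2 (Y i) * bign (Y' i))).trace = 1
      rw [P1, big2_eq, bign, bl_mul, bl_mul, bl_trace]
      have := hYY i i
      rw [trB_apply, if_pos rfl] at this
      simp [this]
    have g4 : ∀ i, (P1 p q * (x (Sum.inr (Sum.inr (Sum.inr i))) *
        x' (Sum.inr (Sum.inr (Sum.inr i))))).trace = 0 := by
      intro i
      change (P1 p q * (bign (Y' i) * big2 (Y i))).trace = 0
      rw [P1, big2_eq, bign, bl_mul, bl_mul, bl_trace]
      simp
    simp only [g0, g1, g2, g3, g4, Finset.sum_const, Finset.card_univ, Fintype.card_fin,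
      nsmul_eq_mul, mul_one, mul_zero]
    ring
  have t3 : ((p * (d0 + 2 * a + 2 * b) : ℝ) : ℂ) = (((2 * p + q) * (θ + a / 2 + b) : ℝ) : ℂ) := by
    push_cast
    rw [← t1, ← t2]
    ring
  have t4 : (p * (d0 + 2 * a + 2 * b) : ℝ) = (2 * p + q) * (θ + a / 2 + b) := by
    exact_mod_cast t3
  have t5 : ((q * (d0 + 2 * a + 2 * b) + (2 * p + q) : ℕ) : ℝ) ≤
      (((2 * p + q) * (d0 + a) : ℕ) : ℝ) := by
    push_cast
    have h1 : ((2 * p + q : ℕ) : ℝ) * (1 / 2) ≤ (2 * p + q : ℕ) * θ :=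
      mul_le_mul_of_nonneg_left hθ1 (Nat.cast_nonneg _)
    push_cast at h1
    nlinarith [h1, t4]
  exact_mod_cast t5

theorem LA.cas (H : LA h) (hp : 0 < p) (hnd : ND h)
    (hrep : ∀ x ∈ h, ∀ R, Rm R x → aeval x R ∈ h)
    (hcom : ∀ c, (∀ s ∈ h, s * c = c * s) → ∃ z : ℂ, c = z • (1 : Matrix (I p q) (I p q) ℂ)) :
    q * (finrank ℂ (h.comap (GRD.L0 : _ →ₗ[ℂ] Matrix (I p q) (I p q) ℂ)) +
      2 * finrank ℂ (h.comap (GRD.L1 : _ →ₗ[ℂ] Matrix (I p q) (I p q) ℂ)) +
      2 * finrank ℂ (h.comap (GRD.L2 p q))) + (2 * p + q) ≤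
    (2 * p + q) * (finrank ℂ (h.comap (GRD.L0 : _ →ₗ[ℂ] Matrix (I p q) (I p q) ℂ)) +
      finrank ℂ (h.comap (GRD.L1 : _ →ₗ[ℂ] Matrix (I p q) (I p q) ℂ))) := by
  obtain ⟨X, hX, hXX, hXd⟩ := orthoS (B00 p q) (fun x y => by
    rw [B00_apply, B00_apply, Matrix.trace_mul_comm x.1, Matrix.trace_mul_comm x.2])
    (h.comap (GRD.L0 : _ →ₗ[ℂ] Matrix (I p q) (I p q) ℂ)) (fun x hx hxx =>
      big0_inj ((H.nd0 hnd hx hxx).trans big0_zero.symm))
  obtain ⟨F, G, hF, hG, hFG, hFd, hGd⟩ := dualS (trB (Fin p) (Fin q))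
    (h.comap (GRD.L1 : _ →ₗ[ℂ] Matrix (I p q) (I p q) ℂ))
    (h.comap (Lm : _ →ₗ[ℂ] Matrix (I p q) (I p q) ℂ))
    (fun x hx hxx => big1_z (H.nd1 hnd hx hxx)) (fun x hx hxx => bigm_z (H.ndm hnd hx hxx))
  obtain ⟨Y, Y', hY, hY', hYY, hYd, hYd'⟩ := dualS (trB (Fin p) (Fin p))
    (h.comap (GRD.L2 p q)) (h.comap (Ln p q))
    (fun x hx hxx => big2_z (q := q) (H.nd2 hnd hx hxx))
    (fun x hx hxx => bign_z (q := q) (H.ndn hnd hx hxx))
  exact H.cas_aux hp hnd hrep hcom hX hXX hXd hF hG hFG hFd hGd hY hY' hYY hYd hYd'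

end

end Pool.Agent.Y95.ZL
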