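import Pool.Agent.Y95.ZL.Adj

/-!
# The centre of the algebra generated by `kk`
-/

open Finset Module Polynomial Matrix
open Pool.Agent.W544.PG Pool.Agent.W216.PG

namespace Pool.Agent.Y95.ZL

noncomputable section

variable {p q : ℕ} {G : Zr p q}

/-- central idempotents commute with the degree zero part -/
theorem Zr.idem0 {e : Matrix (Fin q) (Fin q) ℂ} (he : e ∈ G.al) (hc : ∀ a ∈ G.al, a * e = e * a)
    (hee : e * e = e) {X : Matrix (Fin p) (Fin p) ℂ × Matrix (Fin q) (Fin q) ℂ}
    (hX : X ∈ G.h0) : X.2 * e = e * X.2 := by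
  have hd := Zr.al0 hX he
  set d := X.2 * e - e * X.2 with hdd
  have h1 : d = e * d + e * d := by
    have h2 : d = d * e + e * d := by
      rw [hdd]
      simp only [sub_mul, mul_sub]
      rw [mul_assoc X.2, hee, ← mul_assoc e e, hee, mul_assoc e X.2]
      abel
    conv_lhs => rw [h2, hc d hd]
  have h3 : e * d = 0 := by
    have h4 := congrArg (fun t => e * t) h1
    simp only [mul_add, ← mul_assoc, hee] at h4
    exact left_eq_add.1 h4
  rw [← sub_eq_zero, ← hdd, h1, h3, add_zero]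

/-- the range of a central idempotent -/
theorem Zr.idem_onto {e : Matrix (Fin q) (Fin q) ℂ} (he : e ∈ G.al)
    (hc : ∀ a ∈ G.al, a * e = e * a) (hee : e * e = e) (he0 : e ≠ 0) {m : ℕ}
    {A : Matrix (Fin m) (Fin q) ℂ} (hA : ∀ F' ∈ G.hm, ∀ F ∈ G.h1, A * F' * F * e = 0) :
    A = 0 := by
  obtain ⟨j, hj⟩ : ∃ j, e.col j ≠ 0 := by
    by_contra hcon
    push Not at hcon
    apply he0
    ext i j
    exact congrFun (hcon j) i
  have hon := G.onto (LinearMap.range (Matrix.toLin' e)) (by
    rintro X hX _ ⟨w, rfl⟩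
    refine ⟨X.2 *ᵥ w, ?_⟩
    rw [Matrix.toLin'_apply, Matrix.toLin'_apply, Matrix.mulVec_mulVec, Matrix.mulVec_mulVec,
      Zr.idem0 he hc hee hX]) (w := e.col j) ⟨Pi.single j 1, by
      rw [Matrix.toLin'_apply, Matrix.mulVec_single_one]⟩ hj
  apply G.cancel
  intro F' hF'
  apply mul_eq_zero_of_spans (n := 0) hon
  rintro _ ⟨F, hF, _, ⟨w, rfl⟩, rfl⟩
  rw [Matrix.toLin'_apply, Matrix.mulVec_mulVec, Matrix.mulVec_mulVec,
    hA F' hF' F hF, Matrix.zero_mulVec]

/-- symmetric central idempotents are trivial -/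
theorem Zr.cen1 {e : Matrix (Fin q) (Fin q) ℂ} (he : e ∈ G.al)
    (hc : ∀ a ∈ G.al, a * e = e * a) (hee : e * e = e) (heT : eᵀ = e) : e = 0 ∨ e = 1 := by
  by_cases he0 : e = 0
  · exact Or.inl he0
  right
  rw [eq_comm, ← sub_eq_zero]
  have hf : (1 - e) ∈ G.al := G.al.sub_mem G.al.one_mem he
  apply Zr.idem_onto he hc hee he0
  intro F' hF' F hF
  have h1 := G.b1m _ (Zr.al1 hF he) _ (Zr.alm hF' hf)
  have h2 : F * e * ((1 - e) * F') = 0 := by
    rw [Matrix.mul_assoc F, ← Matrix.mul_assoc e, Matrix.mul_sub, Matrix.mul_one, hee, sub_self,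
      Matrix.zero_mul, Matrix.mul_zero]
  rw [h2] at h1
  obtain ⟨S, hS⟩ : ∃ S, S = (1 - e) * F' * (F * e) := ⟨_, rfl⟩
  rw [← hS] at h1
  have heS : e * S = 0 := by
    rw [hS, Matrix.mul_assoc (1 - e), ← Matrix.mul_assoc e, Matrix.mul_sub, Matrix.mul_one, hee,
      sub_self, Matrix.zero_mul]
  have hSe : S * e = S := by
    rw [hS, Matrix.mul_assoc, Matrix.mul_assoc F, hee]
  have hST : e * Sᵀ = Sᵀ := by
    conv_lhs => rw [← heT]
    rw [← Matrix.transpose_mul, hSe]
  have h3 := hc _ (Zr.kk_al (k := Sᵀ - S) h1)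
  have hSTe : Sᵀ * e = 0 := by
    conv_lhs => rw [← heT]
    rw [← Matrix.transpose_mul, heS, Matrix.transpose_zero]
  rw [Matrix.sub_mul, Matrix.mul_sub, hSTe, hSe, hST, heS, zero_sub, sub_zero] at h3
  have h4 : S = 0 := by
    have h5 := congrArg (fun t => e * t) h3
    simp only [Matrix.mul_neg, heS, neg_zero, hST] at h5
    rw [← Matrix.transpose_transpose S, ← h5, Matrix.transpose_zero]
  rw [Matrix.mul_assoc _ F, ← hS, h4]

/-- central idempotents are trivial -/
theorem Zr.cen2 (hq : 0 < q) (hκ : 2 ≤ finrank ℂ G.kk) {e : Matrix (Fin q) (Fin q) ℂ}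
    (he : e ∈ G.al) (hc : ∀ a ∈ G.al, a * e = e * a) (hee : e * e = e) : e = 0 ∨ e = 1 := by
  have heT := Zr.alT he
  have hcT : ∀ a ∈ G.al, a * eᵀ = eᵀ * a := by
    intro a ha
    have h1 := congrArg Matrix.transpose (hc _ (Zr.alT ha))
    rw [Matrix.transpose_mul, Matrix.transpose_mul, Matrix.transpose_transpose] at h1
    exact h1.symm
  have heeT : eᵀ * eᵀ = eᵀ := by
    rw [← Matrix.transpose_mul, hee]
  have hcomm : eᵀ * e = e * eᵀ := hc _ heT
  rcases Zr.cen1 (G := G) (e := e * eᵀ) (G.al.mul_mem he heT) (fun a ha => by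
    rw [← mul_assoc, hc a ha, mul_assoc, hcT a ha, mul_assoc]) (by
    rw [mul_assoc, ← mul_assoc eᵀ, hcomm, mul_assoc, heeT, ← mul_assoc, hee]) (by
    rw [Matrix.transpose_mul, Matrix.transpose_transpose]) with h0 | h1
  · rcases Zr.cen1 (G := G) (e := e + eᵀ) (G.al.add_mem he heT) (fun a ha => by
      rw [mul_add, add_mul, hc a ha, hcT a ha]) (by
      rw [add_mul, mul_add, mul_add, hee, h0, hcomm, h0, heeT]; abel) (by
      rw [Matrix.transpose_add, Matrix.transpose_transpose, add_comm]) with h2 | h2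
    · left
      have h3 : e = -eᵀ := eq_neg_of_add_eq_zero_left h2
      calc e = e * e := hee.symm
        _ = e * -eᵀ := by rw [← h3]
        _ = 0 := by rw [mul_neg, h0, neg_zero]
    · left
      by_contra he0
      have hzero : eᵀ = 0 := by
        apply Zr.idem_onto he hc hee he0
        -- symmetric operators
        have hsym : ∀ F' ∈ G.hm, ∀ F ∈ G.h1, (eᵀ * F' * (F * e))ᵀ = eᵀ * F' * (F * e) := by
          intro F' hF' F hF
          have h4 := G.b1m _ (Zr.al1 hF he) _ (Zr.alm hF' heT)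
          have h5 : F * e * (eᵀ * F') = 0 := by
            rw [Matrix.mul_assoc F, ← Matrix.mul_assoc e, h0, Matrix.zero_mul, Matrix.mul_zero]
          rw [h5] at h4
          obtain ⟨S, hS⟩ : ∃ S, S = eᵀ * F' * (F * e) := ⟨_, rfl⟩
          rw [← hS] at h4 ⊢
          have heS : e * S = 0 := by
            rw [hS, Matrix.mul_assoc eᵀ, ← Matrix.mul_assoc e, h0, Matrix.zero_mul]
          have hSe : S * e = S := by
            rw [hS, Matrix.mul_assoc, Matrix.mul_assoc F, hee]
          have heSt : eᵀ * S = S := by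
            rw [hS, Matrix.mul_assoc eᵀ, ← Matrix.mul_assoc eᵀ eᵀ, heeT]
          have hSTe : Sᵀ * e = Sᵀ := by
            conv_lhs => rw [← Matrix.transpose_transpose e]
            rw [← Matrix.transpose_mul, heSt]
          have heSTt : e * Sᵀ = 0 := by
            have : e * Sᵀ = (S * eᵀ)ᵀ := by
              rw [Matrix.transpose_mul, Matrix.transpose_transpose]
            rw [this, ← hSe, Matrix.mul_assoc, h0, Matrix.mul_zero, Matrix.transpose_zero]
          have h6 := hc _ (Zr.kk_al (k := Sᵀ - S) h4)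
          rw [Matrix.sub_mul, Matrix.mul_sub, hSTe, hSe, heSTt, heS, sub_zero] at h6
          exact sub_eq_zero.1 h6
        intro F' hF' F hF
        have hleft : ∀ a ∈ G.al, eᵀ * (a * F') * (F * e) = a * (eᵀ * F' * (F * e)) := by
          intro a ha
          calc eᵀ * (a * F') * (F * e) = (eᵀ * a) * (F' * (F * e)) := by
                simp only [Matrix.mul_assoc]
            _ = (a * eᵀ) * (F' * (F * e)) := by rw [hcT a ha]
            _ = _ := by simp only [Matrix.mul_assoc]
        have k1 : ∀ a ∈ G.al, (eᵀ * F' * (F * e)) * aᵀ = a * (eᵀ * F' * (F * e)) := by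
          intro a ha
          have h4 := hsym _ (Zr.alm hF' ha) F hF
          rw [hleft a ha, Matrix.transpose_mul, hsym F' hF' F hF] at h4
          exact h4
        have h4 : eᵀ * F' * (F * e) = 0 := by
          apply Zr.ann' hq hκ
          intro k hk k' hk'
          have e1 := k1 k (Zr.kk_al hk)
          have e2 := k1 k' (Zr.kk_al hk')
          have e3 := k1 _ (G.al.mul_mem (Zr.kk_al hk') (Zr.kk_al hk))
          rw [Zr.kk_T hk, Matrix.mul_neg] at e1
          rw [Zr.kk_T hk', Matrix.mul_neg] at e2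
          rw [Matrix.transpose_mul, Zr.kk_T hk, Zr.kk_T hk', neg_mul_neg] at e3
          obtain ⟨S, hS⟩ : ∃ S, S = eᵀ * F' * (F * e) := ⟨_, rfl⟩
          rw [← hS] at e1 e2 e3 ⊢
          have e4 : S * (k' * k) = k' * k * S := by
            calc S * (k' * k) = -(-(S * k')) * k := by rw [neg_neg, Matrix.mul_assoc]
              _ = -(k' * S) * k := by rw [e2]
              _ = k' * -(S * k) := by rw [Matrix.neg_mul, Matrix.mul_neg, Matrix.mul_assoc]
              _ = k' * (k * S) := by rw [e1]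
              _ = k' * k * S := by rw [Matrix.mul_assoc]
          rw [Matrix.mul_sub, e3, e4, sub_self]
        rw [Matrix.mul_assoc _ F, h4]
      apply he0
      rw [← Matrix.transpose_transpose e, hzero, Matrix.transpose_zero]
  · right
    calc e = e * 1 := (mul_one e).symm
      _ = e * (e * eᵀ) := by rw [h1]
      _ = e * eᵀ := by rw [← mul_assoc, hee]
      _ = 1 := h1

/-- the algebra generated by `kk` is central simple -/
theorem Zr.fac (hq : 0 < q) (hκ : 2 ≤ finrank ℂ G.kk) : Fac G.al := by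
  haveI : Nonempty (Fin q) := ⟨⟨0, hq⟩⟩
  have hnd := Zr.al_nd hq hκ
  refine ⟨hnd, ?_⟩
  intro z hz hzc
  let Z : Subalgebra ℂ (Matrix (Fin q) (Fin q) ℂ) := G.al ⊓ cm G.al
  have hZ : ∀ z, z ∈ Z ↔ z ∈ G.al ∧ ∀ c ∈ G.al, c * z = z * c := fun z => by
    rw [Algebra.mem_inf, mem_cm]
  apply loc (B := Z)
  · intro x hx hxx
    have hx' := (hZ x).1 hx
    obtain ⟨R, hR⟩ := exists_rep (starRingEnd ℂ) x
    obtain ⟨r, -, h2, h3⟩ := tr_rep hR
    have hn : IsNilpotent x := by
      apply h3
      have h4 := hxx _ (aeval_memB (B := Z) hx R)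
      rw [h2] at h4
      exact_mod_cast h4
    apply hnd x hx'.1
    intro y hy
    have h4 : Commute x y := (hx'.2 y hy).symm
    exact tr_nil (h4.isNilpotent_mul_right hn)
  · intro e he hee
    have he' := (hZ e).1 he
    exact Zr.cen2 hq hκ he'.1 he'.2 hee
  · exact (hZ z).2 ⟨hz, hzc⟩

end

end Pool.Agent.Y95.ZL
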