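import Pool.Agent.Y95.ZL.Core
import Pool.Agent.W557.PG.Ahl

/-!
# Coordinates adapted to a cocharacter; the main theorem without coordinates
-/

open Finset Module Polynomial Matrix
open Pool.Agent.W544.PG

namespace Pool.Agent.Y95.ZL

noncomputable section

/-- rank factorisation of a projection -/
theorem fac_idem {n k : ℕ} {E : Matrix (Fin n) (Fin n) ℂ} (hE : E * E = E) (ht : E.trace = k) :
    ∃ (A : Matrix (Fin n) (Fin k) ℂ) (A' : Matrix (Fin k) (Fin n) ℂ), A * A' = E ∧ A' * A = 1 := by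
  let f := Matrix.toLin' E
  have hf : ∀ v, f (f v) = f v := by
    intro v
    change Matrix.toLin' E (Matrix.toLin' E v) = Matrix.toLin' E v
    rw [Matrix.toLin'_apply, Matrix.toLin'_apply, Matrix.mulVec_mulVec, hE]
  have hp : LinearMap.IsProj (LinearMap.range f) f :=
    ⟨fun x => ⟨x, rfl⟩, by rintro _ ⟨w, rfl⟩; exact hf w⟩
  have h1 := hp.trace
  have h2 : finrank ℂ (LinearMap.range f) = k := by
    have h3 : LinearMap.trace ℂ _ f = E.trace := Matrix.trace_toLin'_eq E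
    rw [h3, ht] at h1
    exact_mod_cast h1.symm
  let b := Module.finBasisOfFinrankEq ℂ (LinearMap.range f) h2
  refine ⟨LinearMap.toMatrix' ((LinearMap.range f).subtype.comp b.equivFun.symm.toLinearMap),
    LinearMap.toMatrix' (b.equivFun.toLinearMap.comp f.rangeRestrict), ?_, ?_⟩
  · rw [← LinearMap.toMatrix'_comp]
    have h4 : ((LinearMap.range f).subtype.comp b.equivFun.symm.toLinearMap).comp
        (b.equivFun.toLinearMap.comp f.rangeRestrict) = f := by
      ext1 i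
      apply LinearMap.ext
      intro c
      simp
    rw [h4]
    exact LinearMap.toMatrix'_toLin' E
  · rw [← LinearMap.toMatrix'_comp]
    have h4 : (b.equivFun.toLinearMap.comp f.rangeRestrict).comp
        ((LinearMap.range f).subtype.comp b.equivFun.symm.toLinearMap) = LinearMap.id := by
      apply LinearMap.ext
      intro c
      have h5 : ∀ w : LinearMap.range f, f.rangeRestrict w.1 = w := by
        rintro ⟨w, v, rfl⟩
        exact Subtype.ext (hf v)
      change b.equivFun (f.rangeRestrict (b.equivFun.symm c).1) = c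
      rw [h5, LinearEquiv.apply_symm_apply]
    rw [h4, LinearMap.toMatrix'_id]

theorem coord {n p q : ℕ} {Q D : Matrix (Fin n) (Fin n) ℂ} (hQ : Qᵀ = Q) (hQd : Q.det ≠ 0)
    (hD : D * D * D = D) (hsk : Dᵀ * Q + Q * D = 0) (htr : (D * D).trace = 2 * p)
    (hn : n = q + 2 * p) :
    ∃ (M : Matrix (Fin n) (I p q) ℂ) (M' : Matrix (I p q) (Fin n) ℂ), M' * M = 1 ∧ M * M' = 1 ∧
      Mᵀ * Q * M = B0 p q ∧ D * M = M * x0 p q := by
  have hu : IsUnit Q.det := isUnit_iff_ne_zero.2 hQd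
  have hDt : Dᵀ * Q = -(Q * D) := eq_neg_of_add_eq_zero_left hsk
  have hQi : Q⁻¹ᵀ = Q⁻¹ := by rw [Matrix.transpose_nonsing_inv, hQ]
  have hDi : D * Q⁻¹ = -(Q⁻¹ * Dᵀ) := by
    calc D * Q⁻¹ = Q⁻¹ * (Q * D) * Q⁻¹ := by
          rw [← Matrix.mul_assoc Q⁻¹, Matrix.nonsing_inv_mul _ hu, Matrix.one_mul]
      _ = -(Q⁻¹ * Dᵀ * (Q * Q⁻¹)) := by
          rw [← neg_eq_iff_eq_neg.2 hDt, Matrix.mul_neg, Matrix.neg_mul]
          simp only [Matrix.mul_assoc]
      _ = -(Q⁻¹ * Dᵀ) := by rw [Matrix.mul_nonsing_inv _ hu, Matrix.mul_one]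
  have htD : D.trace = 0 := by
    have h1 := congrArg Matrix.trace hDi
    have h2 : D = -(Q⁻¹ * Dᵀ * Q) := by
      rw [← Matrix.neg_mul, ← hDi, Matrix.mul_assoc, Matrix.nonsing_inv_mul _ hu, Matrix.mul_one]
    have h3 := congrArg Matrix.trace h2
    rw [Matrix.trace_neg, Matrix.mul_assoc, Matrix.trace_mul_comm, Matrix.mul_assoc,
      Matrix.mul_nonsing_inv _ hu, Matrix.mul_one, Matrix.trace_transpose] at h3
    linear_combination (1 / 2 : ℂ) * h3
  obtain ⟨E, hE⟩ : ∃ E, E = (1 / 2 : ℂ) • (D * D + D) := ⟨_, rfl⟩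
  obtain ⟨Z, hZ⟩ : ∃ Z, Z = 1 - D * D := ⟨_, rfl⟩
  have hD4 : D * (D * (D * D)) = D * D := by
    have := congrArg (fun X => D * X) hD
    simpa [Matrix.mul_assoc] using this
  have hD3 : D * (D * D) = D := by rw [← Matrix.mul_assoc]; exact hD
  have hEE : E * E = E := by
    rw [hE, Matrix.smul_mul, Matrix.mul_smul, smul_smul, Matrix.add_mul, Matrix.mul_add,
      Matrix.mul_add, Matrix.mul_assoc, hD4, Matrix.mul_assoc, hD3]
    rw [show D * D + D + (D + D * D) = (2 : ℂ) • (D * D + D) by rw [two_smul]; abel, smul_smul]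
    norm_num
  have hDE : D * E = E := by
    rw [hE, Matrix.mul_smul, Matrix.mul_add, hD3, add_comm]
  have hED : E * D = E := by
    rw [hE, Matrix.smul_mul, Matrix.add_mul, hD, add_comm]
  have hZZ : Z * Z = Z := by
    rw [hZ, Matrix.sub_mul, Matrix.mul_sub, Matrix.mul_sub, Matrix.one_mul, Matrix.one_mul,
      Matrix.mul_one, Matrix.mul_assoc, hD4]
    abel
  have hDZ : D * Z = 0 := by
    rw [hZ, Matrix.mul_sub, Matrix.mul_one, hD3, sub_self]
  have htE : E.trace = p := by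
    rw [hE, Matrix.trace_smul, Matrix.trace_add, htr, htD, smul_eq_mul]
    ring
  have htZ : Z.trace = q := by
    rw [hZ, Matrix.trace_sub, htr, Matrix.trace_one, Fintype.card_fin, hn]
    push_cast
    ring
  obtain ⟨A, A', hAA, hA1⟩ := fac_idem hEE htE
  obtain ⟨C, C', hCC, hC1⟩ := fac_idem hZZ htZ
  have hDA : D * A = A := by
    have h1 : A = E * A := by rw [← hAA, Matrix.mul_assoc, hA1, Matrix.mul_one]
    rw [h1, ← Matrix.mul_assoc, hDE]
  have hA'D : A' * D = A' := by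
    have h1 : A' = A' * E := by rw [← hAA, ← Matrix.mul_assoc, hA1, Matrix.one_mul]
    rw [h1, Matrix.mul_assoc, hED]
  have hZC : Z * C = C := by rw [← hCC, Matrix.mul_assoc, hC1, Matrix.mul_one]
  have hDC : D * C = 0 := by
    rw [← hZC, ← Matrix.mul_assoc, hDZ, Matrix.zero_mul]
  have hZQ : Q * Z = Zᵀ * Q := by
    rw [hZ, Matrix.transpose_sub, Matrix.transpose_one, Matrix.transpose_mul, Matrix.mul_sub,
      Matrix.sub_mul, Matrix.mul_one, Matrix.one_mul, Matrix.mul_assoc Dᵀ, hDt, Matrix.mul_neg,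
      ← Matrix.mul_assoc Dᵀ, hDt, Matrix.neg_mul, neg_neg, Matrix.mul_assoc]
  obtain ⟨B, hB⟩ : ∃ B, B = Q⁻¹ * A'ᵀ := ⟨_, rfl⟩
  have hDB : D * B = -B := by
    rw [hB, ← Matrix.mul_assoc, hDi, Matrix.neg_mul, Matrix.mul_assoc, ← Matrix.transpose_mul,
      hA'D]
  -- the form on the kernel
  obtain ⟨S, hS⟩ : ∃ S, S = Cᵀ * Q * C := ⟨_, rfl⟩
  have hSt : Sᵀ = S := by
    rw [hS, Matrix.transpose_mul, Matrix.transpose_mul, Matrix.transpose_transpose, hQ,
      Matrix.mul_assoc]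
  have hSd : S.det ≠ 0 := by
    have h1 : S * (C' * Q⁻¹ * C'ᵀ) = 1 := by
      calc S * (C' * Q⁻¹ * C'ᵀ) = Cᵀ * (Q * (C * C')) * Q⁻¹ * C'ᵀ := by
            rw [hS]; simp only [Matrix.mul_assoc]
        _ = (Z * C)ᵀ * (Q * Q⁻¹) * C'ᵀ := by
            rw [hCC, hZQ, Matrix.transpose_mul]; simp only [Matrix.mul_assoc]
        _ = 1 := by
            rw [hZC, Matrix.mul_nonsing_inv _ hu, Matrix.mul_one, ← Matrix.transpose_mul, hC1,
              Matrix.transpose_one]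
    intro h0
    have h2 := congrArg Matrix.det h1
    rw [Matrix.det_mul, h0, zero_mul, Matrix.det_one] at h2
    exact zero_ne_one h2
  obtain ⟨g, hg⟩ := Pool.Agent.W557.PG.orth S hSt hSd
  obtain ⟨C1, hC1'⟩ : ∃ C1, C1 = C * g := ⟨_, rfl⟩
  have hDC1 : D * C1 = 0 := by rw [hC1', ← Matrix.mul_assoc, hDC, Matrix.zero_mul]
  have hform : ∀ {k l : ℕ} (X : Matrix (Fin n) (Fin k) ℂ) (Y : Matrix (Fin n) (Fin l) ℂ),
      (D * X)ᵀ * Q * Y = -(Xᵀ * Q * (D * Y)) := by
    intro k l X Y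
    rw [Matrix.transpose_mul, Matrix.mul_assoc, Matrix.mul_assoc Xᵀ, ← Matrix.mul_assoc Dᵀ, hDt,
      Matrix.neg_mul, Matrix.mul_neg]
    simp only [Matrix.mul_assoc]
  have self0 : ∀ {k l : ℕ} {W : Matrix (Fin k) (Fin l) ℂ}, W = -W → W = 0 := by
    intro k l W h
    ext i j
    have := congrFun (congrFun h i) j
    rw [Matrix.neg_apply] at this
    rw [Matrix.zero_apply]
    linear_combination (1 / 2 : ℂ) * this
  have fAA : Aᵀ * Q * A = 0 := by
    have h1 := hform A A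
    rw [hDA] at h1
    exact self0 h1
  have fAC : Aᵀ * Q * C1 = 0 := by
    have h1 := hform A C1
    rw [hDA, hDC1, Matrix.mul_zero, neg_zero] at h1
    exact h1
  have fAB : Aᵀ * Q * B = 1 := by
    rw [hB, Matrix.mul_assoc, ← Matrix.mul_assoc Q, Matrix.mul_nonsing_inv _ hu, Matrix.one_mul,
      ← Matrix.transpose_mul, hA1, Matrix.transpose_one]
  have fCC : C1ᵀ * Q * C1 = 1 := by
    rw [← hg, hS, hC1', Matrix.transpose_mul]
    simp only [Matrix.mul_assoc]
  have fBB : Bᵀ * Q * B = 0 := by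
    have h1 := hform B B
    rw [hDB, Matrix.transpose_neg, Matrix.neg_mul, Matrix.neg_mul, Matrix.mul_neg, neg_neg] at h1
    exact self0 h1.symm
  have fBC : Bᵀ * Q * C1 = 0 := by
    have h1 := hform B C1
    rw [hDB, hDC1, Matrix.mul_zero, neg_zero, Matrix.transpose_neg, Matrix.neg_mul,
      Matrix.neg_mul, neg_eq_zero] at h1
    exact h1
  have hswap : ∀ {k l : ℕ} (X : Matrix (Fin n) (Fin k) ℂ) (Y : Matrix (Fin n) (Fin l) ℂ),
      Xᵀ * Q * Y = (Yᵀ * Q * X)ᵀ := by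
    intro k l X Y
    rw [Matrix.transpose_mul, Matrix.transpose_mul, Matrix.transpose_transpose, hQ,
      Matrix.mul_assoc]
  have fCA : C1ᵀ * Q * A = 0 := by rw [hswap, fAC, Matrix.transpose_zero]
  have fBA : Bᵀ * Q * A = 1 := by rw [hswap, fAB, Matrix.transpose_one]
  have fCB : C1ᵀ * Q * B = 0 := by rw [hswap, fBC, Matrix.transpose_zero]
  obtain ⟨M, hM⟩ : ∃ M : Matrix (Fin n) (I p q) ℂ, M = fromCols A (fromCols C1 B) := ⟨_, rfl⟩
  have hMQM : Mᵀ * Q * M = B0 p q := by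
    rw [hM, Matrix.transpose_fromCols, Matrix.transpose_fromCols, Matrix.fromRows_mul,
      Matrix.fromRows_mul, Matrix.fromRows_mul, Matrix.mul_fromCols, Matrix.mul_fromCols,
      Matrix.mul_fromCols, Matrix.mul_fromCols, Matrix.fromRows_mul, Matrix.fromRows_mul,
      Matrix.fromRows_mul, fAA, fAC, fAB, fCA, fCC, fCB, fBA, fBC, fBB, B0]
    ext i j
    rcases i with i | i | i <;> rcases j with j | j | j <;> simp
  have hM1 : (B0 p q * Mᵀ * Q) * M = 1 := by
    rw [Matrix.mul_assoc, Matrix.mul_assoc, ← Matrix.mul_assoc Mᵀ, hMQM, B0_sq]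
  refine ⟨M, B0 p q * Mᵀ * Q, hM1, ?_, hMQM, ?_⟩
  · rw [Matrix.mul_eq_one_comm_of_card_eq]
    · exact hM1
    · simp only [I, Fintype.card_fin, Fintype.card_sum]
      omega
  · rw [hM, Matrix.mul_fromCols, Matrix.mul_fromCols, hDA, hDC1, hDB, x0, big0,
      Matrix.fromCols_mul_fromBlocks]
    simp [Matrix.fromCols_mul_fromBlocks]

theorem SIrr.conj {n : ℕ} {ι : Type} [Fintype ι] [DecidableEq ι] {Γ : Type} [Group Γ]
    {g : Γ →* Matrix (Fin n) (Fin n) ℂ} (hg : SIrr g) {M : Matrix (Fin n) ι ℂ}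
    {M' : Matrix ι (Fin n) ℂ} (h1 : M' * M = 1) (h2 : M * M' = 1)
    {g' : Γ →* Matrix ι ι ℂ} (hg' : ∀ γ, g' γ = M' * g γ * M) : SIrr g' := by
  intro Δ hΔ W hW
  have h3 : W.map (Matrix.toLin' M) = ⊥ ∨ W.map (Matrix.toLin' M) = ⊤ := by
    refine hg Δ hΔ _ ?_
    rintro γ hγ _ ⟨w, hw, rfl⟩
    refine ⟨g' γ *ᵥ w, hW γ hγ w hw, ?_⟩
    rw [Matrix.toLin'_apply, Matrix.toLin'_apply, hg', Matrix.mulVec_mulVec, Matrix.mulVec_mulVec,
      ← Matrix.mul_assoc, ← Matrix.mul_assoc, h2, Matrix.one_mul]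
  have h4 : ∀ w, Matrix.toLin' M' (Matrix.toLin' M w) = w := by
    intro w
    rw [Matrix.toLin'_apply, Matrix.toLin'_apply, Matrix.mulVec_mulVec, h1, Matrix.one_mulVec]
  rcases h3 with h3 | h3
  · left
    rw [Submodule.eq_bot_iff]
    intro w hw
    have h5 : Matrix.toLin' M w ∈ W.map (Matrix.toLin' M) := ⟨w, hw, rfl⟩
    rw [h3, Submodule.mem_bot] at h5
    rw [← h4 w, h5, map_zero]
  · right
    rw [Submodule.eq_top_iff']
    intro w
    have h5 : Matrix.toLin' M w ∈ W.map (Matrix.toLin' M) := by rw [h3]; trivial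
    obtain ⟨w', hw', h6⟩ := h5
    have h7 := congrArg (Matrix.toLin' M') h6
    rw [h4, h4] at h7
    rw [← h7]
    exact hw'

/-- **the main theorem on Lie algebras**, without coordinates -/
theorem core_Q {n p q : ℕ} {Γ : Type} [Group Γ] {g : Γ →* Matrix (Fin n) (Fin n) ℂ} (hg : SIrr g)
    {Q D : Matrix (Fin n) (Fin n) ℂ} (hQ : Qᵀ = Q) (hQd : Q.det ≠ 0)
    (hD : D * D * D = D) (htr : (D * D).trace = 2 * p)
    (hn : n = q + 2 * p) (hp : 0 < p) (hq : 0 < q)
    (hcond : p = 1 ∨ 2 * p ^ 2 * (p ^ 2 + 1) < (q - 2 * p) * (q + p))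
    (hcop : Nat.Coprime p q) {h : Submodule ℂ (Matrix (Fin n) (Fin n) ℂ)} (hst : Stb g h)
    (hsk : ∀ X ∈ h, Xᵀ * Q + Q * X = 0)
    (hbr : ∀ X ∈ h, ∀ Y ∈ h, X * Y - Y * X ∈ h) (hDh : D ∈ h)
    (Z : Matrix (Fin n) (Fin n) ℂ) (hZ : Zᵀ * Q + Q * Z = 0) : Z ∈ h := by
  obtain ⟨M, M', h1, h2, h3, h4⟩ := coord (p := p) (q := q) hQ hQd hD (hsk D hDh) htr hn
  let φ : Matrix (I p q) (I p q) ℂ →ₗ[ℂ] Matrix (Fin n) (Fin n) ℂ :=
    { toFun := fun X => M * X * M'
      map_add' := fun X Y => by rw [Matrix.mul_add, Matrix.add_mul]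
      map_smul' := fun c X => by
        rw [Matrix.mul_smul, Matrix.smul_mul, RingHom.id_apply] }
  have hφ : ∀ X, φ X = M * X * M' := fun X => rfl
  have hφm : ∀ X Y, φ (X * Y) = φ X * φ Y := by
    intro X Y
    rw [hφ, hφ, hφ]
    calc M * (X * Y) * M' = M * X * (1 : Matrix (I p q) (I p q) ℂ) * Y * M' := by
          rw [Matrix.mul_one]; simp only [Matrix.mul_assoc]
      _ = _ := by rw [← h1]; simp only [Matrix.mul_assoc]
  have hφi : ∀ X, M' * φ X * M = X := by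
    intro X
    calc M' * (M * X * M') * M = (M' * M) * X * (M' * M) := by simp only [Matrix.mul_assoc]
      _ = X := by rw [h1, Matrix.one_mul, Matrix.mul_one]
  have hφi' : ∀ X, φ (M' * X * M) = X := by
    intro X
    calc M * (M' * X * M) * M' = (M * M') * X * (M * M') := by simp only [Matrix.mul_assoc]
      _ = X := by rw [h2, Matrix.one_mul, Matrix.mul_one]
  let g' : Γ →* Matrix (I p q) (I p q) ℂ :=
    { toFun := fun γ => M' * g γ * M
      map_one' := by rw [map_one, Matrix.mul_one, h1]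
      map_mul' := fun a b => by
        rw [map_mul]
        calc M' * (g a * g b) * M = M' * g a * (1 : Matrix (Fin n) (Fin n) ℂ) * g b * M := by
              rw [Matrix.mul_one]; simp only [Matrix.mul_assoc]
          _ = _ := by rw [← h2]; simp only [Matrix.mul_assoc] }
  have hg'a : ∀ γ, g' γ = M' * g γ * M := fun γ => rfl
  have hg' : SIrr g' := hg.conj h1 h2 hg'a
  -- the skew condition
  have hM' : M' = B0 p q * Mᵀ * Q := by
    have h5 : B0 p q * Mᵀ * Q * M = 1 := by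
      rw [Matrix.mul_assoc, Matrix.mul_assoc, ← Matrix.mul_assoc Mᵀ, h3, B0_sq]
    calc M' = (B0 p q * Mᵀ * Q * M) * M' := by rw [h5, Matrix.one_mul]
      _ = B0 p q * Mᵀ * Q := by rw [Matrix.mul_assoc, h2, Matrix.mul_one]
  have hQB : Q = M'ᵀ * B0 p q * M' := by
    rw [← h3]
    calc Q = (M * M')ᵀ * Q * (M * M') := by
          rw [h2, Matrix.transpose_one, Matrix.one_mul, Matrix.mul_one]
      _ = _ := by rw [Matrix.transpose_mul]; simp only [Matrix.mul_assoc]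
  have hskew : ∀ X, (φ X)ᵀ * Q + Q * φ X = M'ᵀ * (Xᵀ * B0 p q + B0 p q * X) * M' := by
    intro X
    have e1 : (φ X)ᵀ * Q = M'ᵀ * (Xᵀ * B0 p q) * M' := by
      rw [hφ, hQB, Matrix.transpose_mul, Matrix.transpose_mul]
      calc M'ᵀ * (Xᵀ * Mᵀ) * (M'ᵀ * B0 p q * M') = M'ᵀ * Xᵀ * (M' * M)ᵀ * B0 p q * M' := by
            rw [Matrix.transpose_mul]; simp only [Matrix.mul_assoc]
        _ = _ := by rw [h1, Matrix.transpose_one, Matrix.mul_one]; simp only [Matrix.mul_assoc]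
    have e2 : Q * φ X = M'ᵀ * (B0 p q * X) * M' := by
      rw [hφ, hQB]
      calc M'ᵀ * B0 p q * M' * (M * X * M') = M'ᵀ * B0 p q * (M' * M) * X * M' := by
            simp only [Matrix.mul_assoc]
        _ = _ := by rw [h1, Matrix.mul_one]; simp only [Matrix.mul_assoc]
    rw [e1, e2, ← Matrix.add_mul, ← Matrix.mul_add]
  have hskew' : ∀ X, (φ X)ᵀ * Q + Q * φ X = 0 → Xᵀ * B0 p q + B0 p q * X = 0 := by
    intro X hX
    rw [hskew] at hX
    calc Xᵀ * B0 p q + B0 p q * X = (M' * M)ᵀ * (Xᵀ * B0 p q + B0 p q * X) * (M' * M) := by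
          rw [h1, Matrix.transpose_one, Matrix.one_mul, Matrix.mul_one]
      _ = Mᵀ * (M'ᵀ * (Xᵀ * B0 p q + B0 p q * X) * M') * M := by
          rw [Matrix.transpose_mul]; simp only [Matrix.mul_assoc]
      _ = 0 := by rw [hX, Matrix.mul_zero, Matrix.zero_mul]
  have hfin := core hg' hp hq hcond hcop (h := h.comap φ) (fun γ X hX => ?_) (fun X hX => ?_)
    (fun X hX Y hY => ?_) ?_ (M' * Z * M) ?_
  · have h5 : φ (M' * Z * M) ∈ h := hfin
    rwa [hφi'] at h5
  · change φ (g' γ * X * g' γ⁻¹) ∈ h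
    rw [hφm, hφm, hg'a, hg'a, hφi', hφi']
    exact hst γ _ hX
  · exact hskew' X (hsk _ hX)
  · change φ (X * Y - Y * X) ∈ h
    rw [map_sub, hφm, hφm]
    exact hbr _ hX _ hY
  · change φ (x0 p q) ∈ h
    have h5 : φ (x0 p q) = D := by
      rw [hφ, ← h4, Matrix.mul_assoc, h2, Matrix.mul_one]
    rw [h5]
    exact hDh
  · exact hskew' _ (by rw [hφi']; exact hZ)

end

end Pool.Agent.Y95.ZL
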