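import Pool.Agent.Y95.ZL.Fin

/-!
# The main theorem on Lie algebras normalised by a strongly irreducible group
-/

open Finset Module Polynomial Matrix
open Pool.Agent.W544.PG Pool.Agent.W216.PG

namespace Pool.Agent.Y95.ZL

noncomputable section

variable {p q : ℕ}

theorem skew_span {n : ℕ} (L : Submodule ℂ (Matrix (Fin n) (Fin n) ℂ))
    (hL : ∀ w w', Matrix.vecMulVec w w' - Matrix.vecMulVec w' w ∈ L)
    {S : Matrix (Fin n) (Fin n) ℂ} (hS : Sᵀ = -S) : S ∈ L := by
  have h1 : S = (1 / 2 : ℂ) • ∑ i, ∑ j, S i j •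
      (Matrix.vecMulVec (Pi.single i 1) (Pi.single j 1) -
        Matrix.vecMulVec (Pi.single j 1) (Pi.single i 1)) := by
    ext a b
    rw [Matrix.smul_apply, Matrix.sum_apply]
    simp only [Matrix.sum_apply, Matrix.smul_apply, Matrix.sub_apply, Matrix.vecMulVec_apply,
      Pi.single_apply, smul_eq_mul, mul_sub, Finset.sum_sub_distrib, mul_ite, ite_mul, mul_one,
      mul_zero, one_mul, zero_mul, Finset.sum_ite_eq, Finset.mem_univ, if_true,
      Finset.sum_ite_irrel, Finset.sum_const_zero]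
    have h2 := congrFun (congrFun hS a) b
    rw [Matrix.transpose_apply, Matrix.neg_apply] at h2
    rw [h2]
    ring
  rw [h1]
  exact L.smul_mem _ (L.sum_mem fun i _ => L.sum_mem fun j _ => L.smul_mem _ (hL _ _))

/-- all skew operators -/
theorem LA.fin {h : Submodule ℂ (Matrix (I p q) (I p q) ℂ)} (H : LA h) (hp : 0 < p) (hq : 0 < q)
    (h1 : ∀ F, big1 F ∈ h) (hm : ∀ G, bigm G ∈ h) (Z : Matrix (I p q) (I p q) ℂ)
    (hZ : Zᵀ * B0 p q + B0 p q * Z = 0) : Z ∈ h := by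
  let a0 : Fin p := ⟨0, hp⟩
  let b0 : Fin q := ⟨0, hq⟩
  have hgl : ∀ a : Matrix (Fin p) (Fin p) ℂ,
      big0 ((a, 0) : Matrix (Fin p) (Fin p) ℂ × Matrix (Fin q) (Fin q) ℂ) ∈ h := by
    intro a
    have h2 := H.b1m (h1 (Matrix.of fun i j => if j = b0 then 0 else 0)) (hm 0)
    have h3 : ∀ w w' : Fin p → ℂ, big0 ((Matrix.vecMulVec w w', 0) :
        Matrix (Fin p) (Fin p) ℂ × Matrix (Fin q) (Fin q) ℂ) ∈ h := by
      intro w w'
      have h4 := H.b1m (h1 (Matrix.vecMulVec w (Pi.single b0 1)))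
        (hm (Matrix.vecMulVec (Pi.single b0 1) w'))
      have e1 : Matrix.vecMulVec w (Pi.single b0 (1 : ℂ)) *
          Matrix.vecMulVec (Pi.single b0 1) w' = Matrix.vecMulVec w w' := by
        rw [Matrix.vecMulVec_mul_vecMulVec, single_dotProduct, Pi.single_eq_same, mul_one,
          one_smul]
      have e2 : (Matrix.vecMulVec (Pi.single b0 (1 : ℂ)) w' *
          Matrix.vecMulVec w (Pi.single b0 1))ᵀ - Matrix.vecMulVec (Pi.single b0 (1 : ℂ)) w' *
          Matrix.vecMulVec w (Pi.single b0 1) = 0 := by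
        rw [Matrix.vecMulVec_mul_vecMulVec, sub_eq_zero]
        ext i j
        simp only [Matrix.transpose_apply, Matrix.vecMulVec_apply, Pi.smul_apply, smul_eq_mul]
        ring
      rw [e1, e2] at h4
      exact h4
    have e3 : big0 ((a, 0) : Matrix (Fin p) (Fin p) ℂ × Matrix (Fin q) (Fin q) ℂ) =
        ∑ j, big0 ((Matrix.vecMulVec (a.col j) (Pi.single j 1), 0) :
          Matrix (Fin p) (Fin p) ℂ × Matrix (Fin q) (Fin q) ℂ) := by
      change GRD.L0 _ = ∑ j, GRD.L0 _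
      rw [← map_sum]
      congr 1
      rw [Prod.ext_iff]
      refine ⟨?_, ?_⟩
      · rw [Prod.fst_sum]
        ext i k
        rw [Matrix.sum_apply]
        simp [Matrix.vecMulVec_apply, Pi.single_apply]
      · rw [Prod.snd_sum]
        simp
    rw [e3]
    exact h.sum_mem fun j _ => h3 _ _
  have hso : ∀ e : Matrix (Fin q) (Fin q) ℂ, eᵀ = -e →
      big0 ((0, e) : Matrix (Fin p) (Fin p) ℂ × Matrix (Fin q) (Fin q) ℂ) ∈ h := by
    intro e he
    refine skew_span ((h.comap (GRD.L0 (p := p) (q := q))).comap (LinearMap.inr ℂ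
      (Matrix (Fin p) (Fin p) ℂ) (Matrix (Fin q) (Fin q) ℂ))) ?_ he
    intro w w'
    have h4 := H.b1m (h1 (Matrix.vecMulVec (Pi.single a0 1) w))
      (hm (Matrix.vecMulVec w' (Pi.single a0 1)))
    have h5 := hgl (-(Matrix.vecMulVec (Pi.single a0 (1 : ℂ)) w *
      Matrix.vecMulVec w' (Pi.single a0 1)))
    have h6 := h.add_mem h4 h5
    change big0 (0, Matrix.vecMulVec w w' - Matrix.vecMulVec w' w) ∈ h
    refine (congrArg (· ∈ h) ?_).mp h6
    change GRD.L0 _ + GRD.L0 _ = GRD.L0 _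
    rw [← map_add]
    congr 1
    rw [Prod.ext_iff]
    refine ⟨?_, ?_⟩
    · simp
    · have e5 : Matrix.vecMulVec w' (Pi.single a0 (1 : ℂ)) *
          Matrix.vecMulVec (Pi.single a0 1) w = Matrix.vecMulVec w' w := by
        rw [Matrix.vecMulVec_mul_vecMulVec, single_dotProduct, Pi.single_eq_same, mul_one,
          one_smul]
      change (Matrix.vecMulVec w' (Pi.single a0 (1 : ℂ)) *
          Matrix.vecMulVec (Pi.single a0 1) w)ᵀ - Matrix.vecMulVec w' (Pi.single a0 (1 : ℂ)) *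
          Matrix.vecMulVec (Pi.single a0 1) w + 0 = _
      rw [e5, add_zero, Matrix.transpose_vecMulVec]
  have h2 : ∀ c : Matrix (Fin p) (Fin p) ℂ, cᵀ = -c →
      (big2 c : Matrix (I p q) (I p q) ℂ) ∈ h := by
    intro c hc
    refine skew_span (h.comap (GRD.L2 p q)) ?_ hc
    intro w w'
    have h4 := H.br _ (h1 (Matrix.vecMulVec w' (Pi.single b0 1))) _
      (h1 (Matrix.vecMulVec w (Pi.single b0 1)))
    refine (congrArg (· ∈ h) ?_).mp h4
    change _ = big2 _
    rw [big1_eq, big1_eq, big2_eq, bl_mul, bl_mul, bl_sub, bl_inj]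
    refine ⟨?_, ?_, ?_, ?_, ?_, ?_, ?_, ?_, ?_⟩
    · simp
    · simp
    · have e1 : ∀ x y : Fin p → ℂ, Matrix.vecMulVec x (Pi.single b0 (1 : ℂ)) *
          (Matrix.vecMulVec y (Pi.single b0 1))ᵀ = Matrix.vecMulVec x y := by
        intro x y
        rw [Matrix.transpose_vecMulVec, Matrix.vecMulVec_mul_vecMulVec, single_dotProduct,
          Pi.single_eq_same, mul_one, one_smul]
      simp only [Matrix.mul_zero, Matrix.zero_mul, add_zero, zero_add, Matrix.mul_neg, e1]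
      abel
    · simp
    · simp
    · simp
    · simp
    · simp
    · simp
  have hn : ∀ c : Matrix (Fin p) (Fin p) ℂ, cᵀ = -c →
      (bign c : Matrix (I p q) (I p q) ℂ) ∈ h := by
    intro c hc
    refine skew_span (h.comap (Ln p q)) ?_ hc
    intro w w'
    have h4 := H.br _ (hm (Matrix.vecMulVec (Pi.single b0 1) w')) _
      (hm (Matrix.vecMulVec (Pi.single b0 1) w))
    refine (congrArg (· ∈ h) ?_).mp h4
    change _ = bign _
    rw [bigm, bigm, bign, bl_mul, bl_mul, bl_sub, bl_inj]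
    refine ⟨?_, ?_, ?_, ?_, ?_, ?_, ?_, ?_, ?_⟩
    · simp
    · simp
    · simp
    · simp
    · simp
    · simp
    · have e1 : ∀ x y : Fin p → ℂ, (Matrix.vecMulVec (Pi.single b0 (1 : ℂ)) x)ᵀ *
          Matrix.vecMulVec (Pi.single b0 1) y = Matrix.vecMulVec x y := by
        intro x y
        rw [Matrix.transpose_vecMulVec, Matrix.vecMulVec_mul_vecMulVec, single_dotProduct,
          Pi.single_eq_same, mul_one, one_smul]
      simp only [Matrix.mul_zero, Matrix.zero_mul, add_zero, zero_add, Matrix.neg_mul, e1]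
      abel
    · simp
    · simp
  obtain ⟨a, b, c, d, e, f, g, k, i, rfl⟩ := GRD.bl_surj Z
  obtain ⟨s1, s2, s3, s4, s5, s6⟩ := GRD.skew_bl hZ
  have e0 : bl a b c d e f g k i = big0 (a, 0) + big0 (0, e) + big1 b + bigm d + big2 c +
      bign g := by
    rw [big0_eq, big0_eq, big1_eq, big2_eq, bigm, bign, bl_add, bl_add, bl_add, bl_add, bl_add,
      bl_inj, s1, s2, s4]
    refine ⟨?_, ?_, ?_, ?_, ?_, ?_, ?_, ?_, ?_⟩ <;> simp
  rw [e0]
  exact h.add_mem (h.add_mem (h.add_mem (h.add_mem (h.add_mem (hgl a) (hso e s5)) (h1 b)) (hm d))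
    (h2 c s3)) (hn g s6)

theorem Zr.dim0 (G : Zr p q) : finrank ℂ G.h0 ≤ p ^ 2 + finrank ℂ G.kk := by
  let f : G.h0 →ₗ[ℂ] Matrix (Fin p) (Fin p) ℂ :=
    (LinearMap.fst ℂ _ _).comp G.h0.subtype
  have h1 := f.finrank_range_add_finrank_ker
  have h2 : finrank ℂ (LinearMap.range f) ≤ p ^ 2 := by
    have := Submodule.finrank_le (LinearMap.range f)
    rw [Module.finrank_matrix, Module.finrank_self, Fintype.card_fin, mul_one] at this
    rw [pow_two]
    exact this
  have h3 : finrank ℂ (LinearMap.ker f) ≤ finrank ℂ G.kk := by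
    let g : LinearMap.ker f →ₗ[ℂ] G.kk :=
      LinearMap.codRestrict G.kk (((LinearMap.snd ℂ _ _).comp G.h0.subtype).comp
        (LinearMap.ker f).subtype) (by
        rintro ⟨⟨X, hX⟩, hXk⟩
        have h4 : X.1 = 0 := hXk
        change ((0, X.2) : Matrix (Fin p) (Fin p) ℂ × Matrix (Fin q) (Fin q) ℂ) ∈ G.h0
        rw [← h4]
        exact hX)
    apply LinearMap.finrank_le_finrank_of_injective (f := g)
    rintro ⟨⟨X, hX⟩, hXk⟩ ⟨⟨Y, hY⟩, hYk⟩ hXY
    have h4 : X.1 = 0 := hXk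
    have h5 : Y.1 = 0 := hYk
    have h6 : X.2 = Y.2 := congrArg Subtype.val hXY
    apply Subtype.ext
    apply Subtype.ext
    exact Prod.ext (h4.trans h5.symm) h6
  omega

theorem Zr.dim1 (G : Zr p q) : q ≤ p * finrank ℂ G.h1 := by
  let f : (Fin q → ℂ) →ₗ[ℂ] (G.h1 →ₗ[ℂ] (Fin p → ℂ)) :=
    LinearMap.mk₂ ℂ (fun u F => F.1 *ᵥ u)
      (fun u u' F => Matrix.mulVec_add _ _ _) (fun c u F => Matrix.mulVec_smul _ _ _)
      (fun u F F' => Matrix.add_mulVec _ _ _) (fun c u F => Matrix.smul_mulVec _ _ _)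
  have h1 : Function.Injective f := by
    rw [← LinearMap.ker_eq_bot, LinearMap.ker_eq_bot']
    intro u hu
    apply G.kerB
    intro F hF
    exact congrArg (fun t => t ⟨F, hF⟩) hu
  have h2 := LinearMap.finrank_le_finrank_of_injective h1
  rw [Module.finrank_linearMap, Module.finrank_fin_fun, Module.finrank_fin_fun, mul_comm] at h2
  exact h2

/-- **the main theorem on Lie algebras** -/
theorem core {Γ : Type} [Group Γ] {g : Γ →* Matrix (I p q) (I p q) ℂ} (hg : SIrr g)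
    (hp : 0 < p) (hq : 0 < q)
    (hcond : p = 1 ∨ 2 * p ^ 2 * (p ^ 2 + 1) < (q - 2 * p) * (q + p))
    (hcop : Nat.Coprime p q) {h : Submodule ℂ (Matrix (I p q) (I p q) ℂ)} (hst : Stb g h)
    (hsk : ∀ X ∈ h, Xᵀ * B0 p q + B0 p q * X = 0)
    (hbr : ∀ X ∈ h, ∀ Y ∈ h, X * Y - Y * X ∈ h) (hx0 : x0 p q ∈ h)
    (Z : Matrix (I p q) (I p q) ℂ) (hZ : Zᵀ * B0 p q + B0 p q * Z = 0) : Z ∈ h := by
  haveI : Nonempty (I p q) := ⟨Sum.inl ⟨0, hp⟩⟩
  haveI : Nonempty (Fin q) := ⟨⟨0, hq⟩⟩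
  have htr : ∀ x ∈ h, x.trace = 0 := by
    intro x hx
    have h1 := congrArg Matrix.trace (skew_conj (hsk x hx))
    rw [Matrix.trace_mul_comm, ← Matrix.mul_assoc, B0_sq, Matrix.one_mul, Matrix.trace_transpose,
      Matrix.trace_neg] at h1
    linear_combination (1 / 2 : ℂ) * h1
  have hcard : Fintype.card (I p q) = p + (q + p) := by
    simp [I]
  have hP : P1 p q = (1 / 2 : ℂ) • (x0 p q * x0 p q + x0 p q) := by
    rw [P1, GRD.x0_eq, bl_mul, bl_add, bl_smul, bl_inj]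
    refine ⟨?_, ?_, ?_, ?_, ?_, ?_, ?_, ?_, ?_⟩ <;> simp
    rw [← two_smul ℂ, smul_smul]
    norm_num
  have hcom := com_scalar hg hst (P := P1 p q) (p := p)
    (by
      rw [P1, bl_mul, bl_inj]
      refine ⟨?_, ?_, ?_, ?_, ?_, ?_, ?_, ?_, ?_⟩ <;> simp)
    (by
      intro c hc
      have h1 := hc _ hx0
      rw [hP, Matrix.smul_mul, Matrix.mul_smul, Matrix.add_mul, Matrix.mul_add, Matrix.mul_assoc,
        h1, ← Matrix.mul_assoc, h1, Matrix.mul_assoc])
    (by
      rw [P1, bl_trace]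
      simp)
    (by
      have h2 : p + (q + p) = q + 2 * p := by ring
      rw [hcard, h2, Nat.coprime_add_mul_right_right]
      exact hcop)
  have hnd := lie_nd hg hst hbr htr
  have hrep : ∀ x ∈ h, ∀ R, Rm R x → aeval x R ∈ h := fun x hx R hR =>
    rep_mem hnd hbr htr hcom hx hR
  have H : LA h := ⟨hsk, hbr, hx0, lie_irr hg hst hcom⟩
  have h1 : ∀ F, F ∈ (H.zr hp hnd hrep).h1 := by
    by_cases hp1 : p = 1
    · exact Zr.top1 hp1
    · have hth : 2 * p ^ 2 * (p ^ 2 + 1) < (q - 2 * p) * (q + p) := by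
        rcases hcond with h | h
        · exact absurd h hp1
        · exact h
      have hκ : 4 ≤ finrank ℂ (H.zr hp hnd hrep).kk :=
        num p q _ _ _ _ hth (H.cas hp hnd hrep hcom) (H.zr hp hnd hrep).dim0
          (H.zr hp hnd hrep).dim1
      have hfac := Zr.fac hq (by omega : 2 ≤ finrank ℂ (H.zr hp hnd hrep).kk)
      refine Zr.top hp hq fun F hF a => ?_
      exact Zr.al1 hF (full hfac.nd (Zr.com hp hq hκ hcop) a)
  have hm := Zr.topm h1
  exact H.fin hp hq h1 hm Z hZ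

end

end Pool.Agent.Y95.ZL
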