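import Pool.Agent.Y95.ZL.Lg
import Pool.Agent.Y95.ZL.Cas

/-!
# The Lie algebra is the whole orthogonal Lie algebra
-/

open Finset Module Polynomial Matrix
open Pool.Agent.W544.PG Pool.Agent.W216.PG

namespace Pool.Agent.Y95.ZL

noncomputable section

variable {p q : ℕ} {G : Zr p q}

/-- the commutant of the algebra is trivial -/
theorem Zr.com (hp : 0 < p) (hq : 0 < q) (hκ : 4 ≤ finrank ℂ G.kk) (hcop : Nat.Coprime p q) :
    ∀ c, (∀ a ∈ G.al, a * c = c * a) → ∃ z : ℂ, c = z • (1 : Matrix (Fin q) (Fin q) ℂ) := by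
  haveI : Nonempty (Fin q) := ⟨⟨0, hq⟩⟩
  haveI : Nonempty (Fin p) := ⟨⟨0, hp⟩⟩
  have hfac := Zr.fac hq (by omega : 2 ≤ finrank ℂ G.kk)
  obtain ⟨F, F', hF, hF', hFF, hFd, hFd'⟩ := dualS (trB (Fin p) (Fin q)) G.h1 G.hm G.nd1 G.ndm
  have hqC : (q : ℂ) ≠ 0 := by exact_mod_cast hq.ne'
  have hpC : (p : ℂ) ≠ 0 := by exact_mod_cast hp.ne'
  have hPm : ∑ i, F' i * F i ∈ G.al := G.al.sum_mem fun i _ => Zr.lg hq hκ (hF i) (hF' i)
  obtain ⟨z, hz⟩ := hfac.cen _ hPm (by
    intro a ha
    rw [Matrix.mul_sum, Matrix.sum_mul]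
    have e1 : ∀ i, a * (F' i * F i) = ∑ j, (F j * (a * F' i)).trace • (F' j * F i) := by
      intro i
      rw [← Matrix.mul_assoc]
      conv_lhs => rw [hFd' _ (Zr.alm (hF' i) ha), Matrix.sum_mul]
      exact Finset.sum_congr rfl fun j _ => by rw [Matrix.smul_mul]; rfl
    have e2 : ∀ i, F' i * F i * a = ∑ j, (F i * a * F' j).trace • (F' i * F j) := by
      intro i
      rw [Matrix.mul_assoc]
      conv_lhs => rw [hFd _ (Zr.al1 (hF i) ha), Matrix.mul_sum]
      exact Finset.sum_congr rfl fun j _ => by rw [Matrix.mul_smul]; rfl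
    simp only [e1, e2]
    rw [Finset.sum_comm]
    refine Finset.sum_congr rfl fun i _ => Finset.sum_congr rfl fun j _ => ?_
    rw [Matrix.mul_assoc])
  obtain ⟨N, hN⟩ : ∃ N, N = finrank ℂ G.h1 := ⟨_, rfl⟩
  have hzt : z * q = N := by
    have h1 := congrArg Matrix.trace hz
    rw [Matrix.trace_smul, Matrix.trace_one, Matrix.trace_sum, Fintype.card_fin, smul_eq_mul] at h1
    rw [← h1]
    have : ∀ i, (F' i * F i).trace = 1 := by
      intro i
      rw [Matrix.trace_mul_comm]
      have := hFF i i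
      rwa [if_pos rfl] at this
    simp only [this, Finset.sum_const, Finset.card_univ, Fintype.card_fin, nsmul_eq_mul, mul_one,
      hN]
  -- the operator on `V_1`
  obtain ⟨Q, hQ⟩ : ∃ Q, Q = ∑ i, F i * F' i := ⟨_, rfl⟩
  have hQc : ∀ X ∈ G.h0, X.1 * Q = Q * X.1 := by
    intro X hX
    rw [← sub_eq_zero, hQ, Matrix.mul_sum, Matrix.sum_mul, ← Finset.sum_sub_distrib]
    have h1 : ∀ i, X.1 * (F i * F' i) - F i * F' i * X.1 =
        (X.1 * F i - F i * X.2) * F' i + F i * (X.2 * F' i - F' i * X.1) := by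
      intro i
      rw [Matrix.sub_mul, Matrix.mul_sub]
      simp only [Matrix.mul_assoc]
      abel
    have h2 : ∀ i, (X.1 * F i - F i * X.2) * F' i =
        ∑ j, ((X.1 * F i - F i * X.2) * F' j).trace • (F j * F' i) := by
      intro i
      conv_lhs => rw [hFd _ (G.b01 X hX _ (hF i)), Matrix.sum_mul]
      exact Finset.sum_congr rfl fun j _ => by rw [Matrix.smul_mul]; rfl
    have h3 : ∀ i, F i * (X.2 * F' i - F' i * X.1) =
        ∑ j, (F j * (X.2 * F' i - F' i * X.1)).trace • (F i * F' j) := by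
      intro i
      conv_lhs => rw [hFd' _ (G.b0m X hX _ (hF' i)), Matrix.mul_sum]
      exact Finset.sum_congr rfl fun j _ => by rw [Matrix.mul_smul]; rfl
    simp only [h1, Finset.sum_add_distrib, h2, h3]
    rw [Finset.sum_comm, ← Finset.sum_add_distrib]
    refine Finset.sum_eq_zero fun j _ => ?_
    rw [← Finset.sum_add_distrib]
    refine Finset.sum_eq_zero fun k _ => ?_
    rw [← add_smul]
    have h4 : ((X.1 * F k - F k * X.2) * F' j).trace +
        (F k * (X.2 * F' j - F' j * X.1)).trace = 0 := by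
      rw [Matrix.sub_mul, Matrix.mul_sub, Matrix.trace_sub, Matrix.trace_sub, Matrix.mul_assoc,
        Matrix.trace_mul_comm X.1]
      simp only [Matrix.mul_assoc]
      ring
    rw [h4, zero_smul]
  obtain ⟨z', hz'⟩ : ∃ z' : ℂ, Q = z' • 1 := by
    obtain ⟨l, hl⟩ := Module.End.exists_eigenvalue (Matrix.toLin' Q)
    obtain ⟨v, hv⟩ := hl.exists_hasEigenvector
    have h1 := G.irrA (End.eigenspace (Matrix.toLin' Q) l) (by
      intro X hX w hw
      rw [End.mem_eigenspace_iff, Matrix.toLin'_apply] at hw ⊢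
      rw [Matrix.mulVec_mulVec, ← hQc X hX, ← Matrix.mulVec_mulVec, hw, Matrix.mulVec_smul])
    rcases h1 with h1 | h1
    · exfalso
      have h2 : v ∈ End.eigenspace (Matrix.toLin' Q) l := hv.1
      rw [h1, Submodule.mem_bot] at h2
      exact hv.2 h2
    · refine ⟨l, ?_⟩
      ext i j
      have h2 : (Pi.single j 1 : Fin p → ℂ) ∈ End.eigenspace (Matrix.toLin' Q) l := by
        rw [h1]; trivial
      rw [End.mem_eigenspace_iff, Matrix.toLin'_apply] at h2
      have := congrFun h2 i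
      simpa [Matrix.one_apply, Pi.single_apply] using this
  have hzt' : z' * p = N := by
    have h1 := congrArg Matrix.trace hz'
    rw [Matrix.trace_smul, Matrix.trace_one, hQ, Matrix.trace_sum, Fintype.card_fin,
      smul_eq_mul] at h1
    rw [← h1]
    have : ∀ i, (F i * F' i).trace = 1 := by
      intro i
      have := hFF i i
      rwa [if_pos rfl] at this
    simp only [this, Finset.sum_const, Finset.card_univ, Fintype.card_fin, nsmul_eq_mul, mul_one,
      hN]
  have hN0 : (N : ℂ) ≠ 0 := by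
    intro h0
    have h1 : finrank ℂ G.h1 = 0 := by
      rw [← hN]; exact_mod_cast h0
    have h2 := Submodule.finrank_eq_zero.1 h1
    have h3 := G.kerB (fun _ => 1) (fun F hF => by
      rw [h2, Submodule.mem_bot] at hF
      rw [hF, Matrix.zero_mulVec])
    have := congrFun h3 ⟨0, hq⟩
    simp at this
  have hz0 : z ≠ 0 := fun h => hN0 (by rw [← hzt, h, zero_mul])
  have hz0' : z' ≠ 0 := fun h => hN0 (by rw [← hzt', h, zero_mul])
  -- spans
  have hon := G.onto ⊤ (fun _ _ _ _ => trivial) (w := fun _ : Fin q => (1 : ℂ)) trivial (by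
    intro h
    have := congrFun h ⟨0, hq⟩
    simp at this)
  have hTI : TI (cm G.al) := by
    intro e he hee
    have he' := mem_cm.1 he
    obtain ⟨Qe, hQe⟩ : ∃ Qe, Qe = ∑ i, F i * e * F' i := ⟨_, rfl⟩
    have h1 : ∀ F0 ∈ G.h1, Qe * F0 = z' • (F0 * e) := by
      intro F0 hF0
      have h2 : Q * F0 * e = z' • (F0 * e) := by
        rw [hz', Matrix.smul_mul, Matrix.one_mul, Matrix.smul_mul]
      rw [← h2, hQe, hQ, Matrix.sum_mul, Matrix.sum_mul, Matrix.sum_mul]
      refine Finset.sum_congr rfl fun i _ => ?_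
      have h3 := he' _ (Zr.lg hq hκ hF0 (hF' i))
      calc F i * e * F' i * F0 = F i * (e * (F' i * F0)) := by simp only [Matrix.mul_assoc]
        _ = F i * (F' i * F0 * e) := by rw [h3]
        _ = _ := by simp only [Matrix.mul_assoc]
    obtain ⟨c1, hc1⟩ : ∃ c1, c1 = z'⁻¹ • Qe := ⟨_, rfl⟩
    have h2 : ∀ F0 ∈ G.h1, c1 * F0 = F0 * e := by
      intro F0 hF0
      rw [hc1, Matrix.smul_mul, h1 F0 hF0, smul_smul, inv_mul_cancel₀ hz0', one_smul]
    have h3 : c1 * c1 = c1 := by
      rw [← sub_eq_zero]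
      apply mul_eq_zero_of_spans (n := 0) hon
      rintro _ ⟨F0, hF0, w, -, rfl⟩
      rw [Matrix.mulVec_mulVec, Matrix.sub_mul, Matrix.mul_assoc, h2 F0 hF0, ← Matrix.mul_assoc,
        h2 F0 hF0, Matrix.mul_assoc, hee, sub_self, Matrix.zero_mulVec]
    obtain ⟨m, hm1, hm2, hm3, hm4⟩ := tr_idem hee
    obtain ⟨m', -, hm2', -, -⟩ := tr_idem h3
    rw [Fintype.card_fin] at hm1 hm4
    have h4 : z' * c1.trace = z * e.trace := by
      have h5 : z' * c1.trace = Qe.trace := by
        rw [hc1, Matrix.trace_smul, smul_eq_mul, ← mul_assoc, mul_inv_cancel₀ hz0', one_mul]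
      have h6 : z * e.trace = (e * ∑ i, F' i * F i).trace := by
        rw [hz, Matrix.mul_smul, Matrix.mul_one, Matrix.trace_smul, smul_eq_mul]
      rw [h5, h6, hQe, Matrix.trace_sum, Matrix.mul_sum, Matrix.trace_sum]
      refine Finset.sum_congr rfl fun i _ => ?_
      rw [Matrix.mul_assoc, Matrix.trace_mul_comm, Matrix.mul_assoc]
    rw [hm2, hm2'] at h4
    have h5 : (q : ℂ) * m' = p * m := by
      have h6 : (N : ℂ) * (q * m') = N * (p * m) := by
        calc (N : ℂ) * (q * m') = (z' * m') * (p * q) := by rw [← hzt']; ring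
          _ = (z * m) * (p * q) := by rw [h4]
          _ = N * (p * m) := by rw [← hzt]; ring
      exact mul_left_cancel₀ hN0 h6
    have h6 : q * m' = p * m := by exact_mod_cast h5
    have h7 : q ∣ m := Nat.Coprime.dvd_of_dvd_mul_left hcop.symm (Dvd.intro _ h6)
    rcases Nat.eq_zero_or_pos m with h8 | h8
    · exact Or.inl (hm3 h8)
    · exact Or.inr (hm4 (le_antisymm hm1 (Nat.le_of_dvd h8 h7)))
  intro c hc
  exact loc hfac.nd_cm hTI (mem_cm.2 hc)

/-- the degree one part is everything -/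
theorem Zr.top (hp : 0 < p) (hq : 0 < q) (h : ∀ F ∈ G.h1, ∀ a : Matrix (Fin q) (Fin q) ℂ,
    F * a ∈ G.h1) (F : Matrix (Fin p) (Fin q) ℂ) : F ∈ G.h1 := by
  have hon := G.onto ⊤ (fun _ _ _ _ => trivial) (w := fun _ : Fin q => (1 : ℂ)) trivial (by
    intro h
    have := congrFun h ⟨0, hq⟩
    simp at this)
  have h1 : ∀ (w : Fin p → ℂ) (v : Fin q → ℂ), Matrix.vecMulVec w v ∈ G.h1 := by
    intro w v
    have hw : w ∈ Submodule.span ℂ {z : Fin p → ℂ | ∃ F ∈ G.h1, ∃ w ∈ (⊤ : Submodule ℂ _),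
      z = F *ᵥ w} := by rw [hon]; trivial
    induction hw using Submodule.span_induction with
    | mem z hz =>
      obtain ⟨F0, hF0, u, -, rfl⟩ := hz
      have h2 := h F0 hF0 (Matrix.vecMulVec u v)
      rwa [Matrix.mul_vecMulVec] at h2
    | zero => rw [Matrix.zero_vecMulVec]; exact G.h1.zero_mem
    | add a b _ _ ha hb => rw [Matrix.add_vecMulVec]; exact G.h1.add_mem ha hb
    | smul c a _ ha => rw [Matrix.smul_vecMulVec]; exact G.h1.smul_mem c ha
  have h2 : F = ∑ j, Matrix.vecMulVec (F.col j) (Pi.single j 1) := by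
    ext i k
    rw [Matrix.sum_apply]
    simp [Matrix.vecMulVec_apply, Pi.single_apply]
  rw [h2]
  exact G.h1.sum_mem fun j _ => h1 _ _

/-- the degree minus one part is everything -/
theorem Zr.topm (h : ∀ F, F ∈ G.h1) (F' : Matrix (Fin q) (Fin p) ℂ) : F' ∈ G.hm := by
  obtain ⟨u, u', hu, hu', huu, hud, -⟩ := dualS (trB (Fin p) (Fin q)) G.h1 G.hm G.nd1 G.ndm
  have h1 : F' = ∑ i, (u i * F').trace • u' i := by
    rw [← sub_eq_zero]
    obtain ⟨D, hD⟩ : ∃ D, D = F' - ∑ i, (u i * F').trace • u' i := ⟨_, rfl⟩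
    rw [← hD]
    have h2 : ∀ F : Matrix (Fin p) (Fin q) ℂ, (F * D).trace = 0 := by
      intro F
      rw [hud F (h F), Matrix.sum_mul, Matrix.trace_sum]
      refine Finset.sum_eq_zero fun j _ => ?_
      rw [Matrix.smul_mul, Matrix.trace_smul, hD, Matrix.mul_sub, Matrix.trace_sub,
        Matrix.mul_sum, Matrix.trace_sum]
      have h3 : ∀ i, (u j * (u i * F').trace • u' i).trace =
          if j = i then (u i * F').trace else 0 := by
        intro i
        rw [Matrix.mul_smul, Matrix.trace_smul, ← trB_apply (u j), huu]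
        split_ifs <;> simp
      simp only [h3]
      rw [Finset.sum_ite_eq]
      simp
    ext i j
    have := h2 (Matrix.single j i 1)
    rw [Matrix.trace_mul_comm] at this
    simpa [Matrix.trace_mul_single] using this
  rw [h1]
  exact G.hm.sum_mem fun i _ => G.hm.smul_mem _ (hu' i)

/-- the case `p = 1` -/
theorem Zr.top1 (hp : p = 1) (F : Matrix (Fin p) (Fin q) ℂ) : F ∈ G.h1 := by
  subst hp
  by_contra hF
  obtain ⟨f, hf1, hf2⟩ := Submodule.exists_dual_map_eq_bot_of_notMem hF inferInstance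
  have hf3 : ∀ x ∈ G.h1, f x = 0 := by
    intro x hx
    have : f x ∈ G.h1.map f := ⟨x, hx, rfl⟩
    rw [hf2] at this
    simpa using this
  obtain ⟨u, hu⟩ : ∃ u : Fin q → ℂ, u = fun j => f (Matrix.single 0 j 1) := ⟨_, rfl⟩
  have hexp : ∀ x : Matrix (Fin 1) (Fin q) ℂ, f x = (x *ᵥ u) 0 := by
    intro x
    have h1 : x = ∑ j, x 0 j • Matrix.single 0 j 1 := by
      ext i k
      rw [Matrix.sum_apply]
      have : i = 0 := Subsingleton.elim _ _
      subst this
      simp [Matrix.single_apply]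
    conv_lhs => rw [h1]
    rw [map_sum]
    simp only [map_smul, smul_eq_mul, Matrix.mulVec, dotProduct, hu]
  have h1 := G.kerB u (fun x hx => by
    funext i
    have : i = 0 := Subsingleton.elim _ _
    rw [this, ← hexp, hf3 x hx]
    rfl)
  apply hf1
  rw [hexp, h1, Matrix.mulVec_zero]
  rfl

end

end Pool.Agent.Y95.ZL
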