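import Pool.Agent.Y95.ZL.Nil
import Pool.Agent.W557.PG.Ahl

/-!
# Algebras of matrices with a nondegenerate trace form
-/

open Finset Module Polynomial Matrix

namespace Pool.Agent.Y95.ZL

noncomputable section

/-- dual bases -/
theorem dualS {M₁ M₂ : Type} [AddCommGroup M₁] [Module ℂ M₁] [AddCommGroup M₂] [Module ℂ M₂]
    [FiniteDimensional ℂ M₁] [FiniteDimensional ℂ M₂] (B : M₁ →ₗ[ℂ] M₂ →ₗ[ℂ] ℂ)
    (W : Submodule ℂ M₁) (W' : Submodule ℂ M₂) (h1 : ∀ x ∈ W, (∀ y ∈ W', B x y = 0) → x = 0)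
    (h2 : ∀ y ∈ W', (∀ x ∈ W, B x y = 0) → y = 0) :
    ∃ (u : Fin (finrank ℂ W) → M₁) (u' : Fin (finrank ℂ W) → M₂), (∀ i, u i ∈ W) ∧
      (∀ i, u' i ∈ W') ∧ (∀ i j, B (u i) (u' j) = if i = j then 1 else 0) ∧
      (∀ x ∈ W, x = ∑ j, B x (u' j) • u j) ∧ (∀ y ∈ W', y = ∑ i, B (u i) y • u' i) := by
  let f : W →ₗ[ℂ] Dual ℂ W' := (LinearMap.domRestrict₁₂ B W W')
  have hf : ∀ (x : W) (y : W'), f x y = B x y := fun x y => rfl
  let g : W' →ₗ[ℂ] Dual ℂ W := f.flip
  have hg : ∀ (x : W) (y : W'), g y x = B x y := fun x y => rfl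
  have if1 : Function.Injective f := by
    rw [← LinearMap.ker_eq_bot, LinearMap.ker_eq_bot']
    intro x hx
    apply Subtype.ext
    apply h1 x x.2
    intro y hy
    have := congrArg (fun t => t ⟨y, hy⟩) hx
    exact this
  have ig : Function.Injective g := by
    rw [← LinearMap.ker_eq_bot, LinearMap.ker_eq_bot']
    intro y hy
    apply Subtype.ext
    apply h2 y y.2
    intro x hx
    have := congrArg (fun t => t ⟨x, hx⟩) hy
    exact this
  have d1 := LinearMap.finrank_le_finrank_of_injective if1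
  have d2 := LinearMap.finrank_le_finrank_of_injective ig
  rw [Subspace.dual_finrank_eq] at d1 d2
  have hd : finrank ℂ W' = finrank ℂ (Dual ℂ W) := by
    rw [Subspace.dual_finrank_eq]
    omega
  let e : W' ≃ₗ[ℂ] Dual ℂ W := LinearEquiv.ofInjectiveOfFinrankEq g ig hd
  have he : ∀ y, e y = g y := fun y => rfl
  let u := finBasis ℂ W
  have key : ∀ i j, B (u i) (e.symm (u.dualBasis j)) = if i = j then 1 else 0 := by
    intro i j
    rw [← hg, ← he, LinearEquiv.apply_symm_apply, Basis.dualBasis_apply_self]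
  refine ⟨fun i => u i, fun i => e.symm (u.dualBasis i), fun i => (u i).2, fun i => (e.symm _).2,
    key, ?_, ?_⟩
  · intro x hx
    have h3 : (⟨x, hx⟩ : W) = ∑ j, (u.repr ⟨x, hx⟩ j) • u j := (u.sum_repr _).symm
    have h4 : x = ∑ j, (u.repr ⟨x, hx⟩ j) • (u j : M₁) := by
      have := congrArg (Submodule.subtype W) h3
      rw [map_sum] at this
      exact this
    have h5 : ∀ j, B x (e.symm (u.dualBasis j)) = u.repr ⟨x, hx⟩ j := by
      intro j
      have : B ((⟨x, hx⟩ : W) : M₁) (e.symm (u.dualBasis j)) = u.repr ⟨x, hx⟩ j := by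
        rw [← hg, ← he, LinearEquiv.apply_symm_apply, Basis.dualBasis_apply]
      exact this
    simp only [h5]
    exact h4
  · intro y hy
    rw [← sub_eq_zero]
    apply h2
    · exact W'.sub_mem hy (W'.sum_mem fun i _ => W'.smul_mem _ (e.symm _).2)
    · intro x hx
      have h3 : (⟨x, hx⟩ : W) = ∑ j, (u.repr ⟨x, hx⟩ j) • u j := (u.sum_repr _).symm
      have h4 : x = ∑ j, (u.repr ⟨x, hx⟩ j) • (u j : M₁) := by
        have := congrArg (Submodule.subtype W) h3
        rw [map_sum] at this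
        exact this
      rw [h4, map_sum, LinearMap.sum_apply]
      refine Finset.sum_eq_zero fun j _ => ?_
      rw [map_smul, LinearMap.smul_apply, map_sub, map_sum]
      simp only [map_smul, key, smul_eq_mul, mul_ite, mul_one, mul_zero]
      rw [Finset.sum_ite_eq]
      simp

/-- orthonormal bases -/
theorem orthoS {M : Type} [AddCommGroup M] [Module ℂ M] [FiniteDimensional ℂ M]
    (B : M →ₗ[ℂ] M →ₗ[ℂ] ℂ) (hB : ∀ x y, B x y = B y x) (W : Submodule ℂ M)
    (h1 : ∀ x ∈ W, (∀ y ∈ W, B x y = 0) → x = 0) :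
    ∃ u : Fin (finrank ℂ W) → M, (∀ i, u i ∈ W) ∧
      (∀ i j, B (u i) (u j) = if i = j then 1 else 0) ∧ (∀ x ∈ W, x = ∑ j, B x (u j) • u j) := by
  obtain ⟨v, v', hv, hv', hvv, hvx, -⟩ := dualS B W W h1 (fun y hy h => h1 y hy fun x hx => by
    rw [hB]; exact h x hx)
  let G : Matrix (Fin (finrank ℂ W)) (Fin (finrank ℂ W)) ℂ := Matrix.of fun i j => B (v i) (v j)
  let H : Matrix (Fin (finrank ℂ W)) (Fin (finrank ℂ W)) ℂ := Matrix.of fun i j => B (v' i) (v' j)
  have hGH : G * H = 1 := by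
    ext i j
    rw [Matrix.mul_apply, Matrix.one_apply]
    have h3 := congrArg (fun t => B (v i) t) (hvx _ (hv' j))
    simp only [map_sum, map_smul, smul_eq_mul, hvv] at h3
    rw [h3]
    refine Finset.sum_congr rfl fun l _ => ?_
    change B (v i) (v l) * B (v' l) (v' j) = B (v' j) (v' l) * B (v i) (v l)
    rw [hB (v' l) (v' j), mul_comm]
  have hdet : G.det ≠ 0 := by
    intro h0
    have := congrArg Matrix.det hGH
    rw [Matrix.det_mul, h0, zero_mul, Matrix.det_one] at this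
    exact zero_ne_one this
  obtain ⟨g, hg⟩ := W557.PG.orth G (by ext i j; exact hB _ _) hdet
  let u : Fin (finrank ℂ W) → M := fun j => ∑ i, g i j • v i
  have hu : ∀ i, u i ∈ W := fun i => W.sum_mem fun j _ => W.smul_mem _ (hv j)
  have huu : ∀ i j, B (u i) (u j) = if i = j then 1 else 0 := by
    intro i j
    have h3 := congrFun (congrFun hg i) j
    rw [Matrix.one_apply, Matrix.mul_apply] at h3
    rw [← h3]
    simp only [u, map_sum, LinearMap.sum_apply, map_smul, LinearMap.smul_apply, smul_eq_mul,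
      Matrix.mul_apply, Matrix.transpose_apply, Finset.sum_mul, Finset.mul_sum]
    refine Finset.sum_congr rfl fun l _ => Finset.sum_congr rfl fun m _ => ?_
    change g l j * (g m i * B (v m) (v l)) = g m i * B (v m) (v l) * g l j
    ring
  refine ⟨u, hu, huu, ?_⟩
  have hli : LinearIndependent ℂ (fun i => (⟨u i, hu i⟩ : W)) := by
    rw [Fintype.linearIndependent_iff]
    intro a ha i
    have h3 : ∑ j, a j • u j = 0 := by
      have := congrArg (Submodule.subtype W) ha
      rw [map_sum, map_zero] at this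
      exact this
    have h4 := congrArg (fun t => B t (u i)) h3
    simpa [map_sum, huu] using h4
  let b := Basis.mk hli (hli.span_eq_top_of_card_eq_finrank' (by simp)).ge
  have hb : ∀ i, ((b i : W) : M) = u i := by
    intro i
    rw [Basis.mk_apply]
  intro x hx
  have h4 : x = ∑ j, (b.repr ⟨x, hx⟩ j) • u j := by
    have := congrArg (Submodule.subtype W) (b.sum_repr ⟨x, hx⟩)
    rw [map_sum] at this
    simp only [map_smul, Submodule.subtype_apply, hb] at this
    exact this.symm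
  have h5 : ∀ i, B x (u i) = b.repr ⟨x, hx⟩ i := by
    intro i
    conv_lhs => rw [h4]
    simp [map_sum, huu]
  simp only [h5]
  exact h4

/-- the trace pairing -/
def trB (m n : Type) [Fintype m] [Fintype n] :
    Matrix m n ℂ →ₗ[ℂ] Matrix n m ℂ →ₗ[ℂ] ℂ :=
  LinearMap.mk₂ ℂ (fun x y => (x * y).trace)
    (fun x x' y => by rw [Matrix.add_mul, Matrix.trace_add])
    (fun c x y => by rw [Matrix.smul_mul, Matrix.trace_smul])
    (fun x y y' => by rw [Matrix.mul_add, Matrix.trace_add])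
    (fun c x y => by rw [Matrix.mul_smul, Matrix.trace_smul])

theorem trB_apply {m n : Type} [Fintype m] [Fintype n] (x : Matrix m n ℂ) (y : Matrix n m ℂ) :
    trB m n x y = (x * y).trace := rfl

variable {ι : Type} [Fintype ι] [DecidableEq ι]

/-- the trace form is nondegenerate on `W` -/
def ND (W : Submodule ℂ (Matrix ι ι ℂ)) : Prop :=
  ∀ x ∈ W, (∀ y ∈ W, (x * y).trace = 0) → x = 0

/-- orthonormal bases for the trace form -/
theorem ND.basis {W : Submodule ℂ (Matrix ι ι ℂ)} (h : ND W) :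
    ∃ u : Fin (finrank ℂ W) → Matrix ι ι ℂ, (∀ i, u i ∈ W) ∧
      (∀ i j, (u i * u j).trace = if i = j then 1 else 0) ∧
      (∀ x ∈ W, x = ∑ j, (x * u j).trace • u j) :=
  orthoS (trB ι ι) (fun x y => Matrix.trace_mul_comm x y) W h

/-- orthogonal projection -/
theorem ND.proj {W : Submodule ℂ (Matrix ι ι ℂ)} (h : ND W) :
    ∃ π : Matrix ι ι ℂ →ₗ[ℂ] Matrix ι ι ℂ, (∀ x, π x ∈ W) ∧
      (∀ x, ∀ y ∈ W, (π x * y).trace = (x * y).trace) ∧ ∀ x ∈ W, π x = x := by
  obtain ⟨u, hu, huu, hx⟩ := h.basis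
  let π : Matrix ι ι ℂ →ₗ[ℂ] Matrix ι ι ℂ :=
    ∑ j, LinearMap.smulRight ((trB ι ι).flip (u j)) (u j)
  have hπ : ∀ x, π x = ∑ j, (x * u j).trace • u j := by
    intro x
    simp only [π, LinearMap.sum_apply, LinearMap.smulRight_apply, LinearMap.flip_apply, trB_apply]
  have hm : ∀ x, π x ∈ W := by
    intro x
    rw [hπ]
    exact W.sum_mem fun j _ => W.smul_mem _ (hu j)
  refine ⟨π, hm, ?_, fun x hxW => by rw [hπ]; exact (hx x hxW).symm⟩
  intro x y hy
  rw [hx y hy, Finset.mul_sum, Finset.mul_sum, Matrix.trace_sum, Matrix.trace_sum]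
  refine Finset.sum_congr rfl fun j _ => ?_
  rw [Matrix.mul_smul, Matrix.mul_smul, Matrix.trace_smul, Matrix.trace_smul, hπ, Finset.sum_mul,
    Matrix.trace_sum]
  congr 1
  simp only [Matrix.smul_mul, Matrix.trace_smul, huu, smul_eq_mul, mul_ite, mul_one, mul_zero]
  rw [Finset.sum_ite_eq']
  simp

theorem tr_ext {a b : Matrix ι ι ℂ} (h : ∀ y : Matrix ι ι ℂ, (a * y).trace = (b * y).trace) :
    a = b := by
  ext i j
  have := h (Matrix.single j i 1)
  simpa [Matrix.trace_mul_single] using this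

end

end Pool.Agent.Y95.ZL
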