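import Pool.Agent.Y95.ZL.Strong
import Pool.Agent.W216.PG.GRD

/-!
# The grading of a Lie algebra of skew operators
-/

open Finset Module Polynomial Matrix
open Pool.Agent.W544.PG Pool.Agent.W216.PG

namespace Pool.Agent.Y95.ZL

noncomputable section

variable {p q : ℕ}

/-- degree `-1` operators -/
def bigm (G : Matrix (Fin q) (Fin p) ℂ) : Matrix (I p q) (I p q) ℂ :=
  bl 0 0 0 G 0 0 0 (-Gᵀ) 0

/-- degree `-2` operators -/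
def bign (Y : Matrix (Fin p) (Fin p) ℂ) : Matrix (I p q) (I p q) ℂ :=
  bl 0 0 0 0 0 0 Y 0 0

/-- `bigm` as a linear map -/
def Lm : Matrix (Fin q) (Fin p) ℂ →ₗ[ℂ] Matrix (I p q) (I p q) ℂ where
  toFun := bigm
  map_add' X X' := by
    rw [bigm, bigm, bigm, bl_add, bl_inj]
    refine ⟨?_, ?_, ?_, ?_, ?_, ?_, ?_, ?_, ?_⟩ <;> simp [add_comm]
  map_smul' c X := by
    rw [bigm, RingHom.id_apply, bigm, bl_smul, bl_inj]
    refine ⟨?_, ?_, ?_, ?_, ?_, ?_, ?_, ?_, ?_⟩ <;> simp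

/-- `bign` as a linear map -/
def Ln (p q : ℕ) : Matrix (Fin p) (Fin p) ℂ →ₗ[ℂ] Matrix (I p q) (I p q) ℂ where
  toFun := bign
  map_add' X X' := by
    rw [bign, bign, bign, bl_add, bl_inj]
    refine ⟨?_, ?_, ?_, ?_, ?_, ?_, ?_, ?_, ?_⟩ <;> simp [add_comm]
  map_smul' c X := by
    rw [bign, RingHom.id_apply, bign, bl_smul, bl_inj]
    refine ⟨?_, ?_, ?_, ?_, ?_, ?_, ?_, ?_, ?_⟩ <;> simp

/-- vectors with three given components -/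
def tsub (W : Submodule ℂ (Fin p → ℂ)) (U : Submodule ℂ (Fin q → ℂ))
    (Z : Submodule ℂ (Fin p → ℂ)) : Submodule ℂ (I p q → ℂ) where
  carrier := {x | x ∘ Sum.inl ∈ W ∧ x ∘ Sum.inr ∘ Sum.inl ∈ U ∧ x ∘ Sum.inr ∘ Sum.inr ∈ Z}
  zero_mem' := ⟨W.zero_mem, U.zero_mem, Z.zero_mem⟩
  add_mem' h h' := ⟨W.add_mem h.1 h'.1, U.add_mem h.2.1 h'.2.1, Z.add_mem h.2.2 h'.2.2⟩
  smul_mem' c _ h := ⟨W.smul_mem c h.1, U.smul_mem c h.2.1, Z.smul_mem c h.2.2⟩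

theorem mem_tsub {W : Submodule ℂ (Fin p → ℂ)} {U : Submodule ℂ (Fin q → ℂ)}
    {Z : Submodule ℂ (Fin p → ℂ)} {u : Fin p → ℂ} {v : Fin q → ℂ} {w : Fin p → ℂ} :
    tri u v w ∈ tsub W U Z ↔ u ∈ W ∧ v ∈ U ∧ w ∈ Z := Iff.rfl

/-- hypotheses on the Lie algebra -/
structure LA (h : Submodule ℂ (Matrix (I p q) (I p q) ℂ)) : Prop where
  sk : ∀ X ∈ h, Xᵀ * B0 p q + B0 p q * X = 0
  br : ∀ X ∈ h, ∀ Y ∈ h, X * Y - Y * X ∈ h
  x0 : x0 p q ∈ h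
  irr : ∀ W : Submodule ℂ (I p q → ℂ), (∀ x ∈ h, ∀ w ∈ W, x *ᵥ w ∈ W) → W = ⊥ ∨ W = ⊤

variable {h : Submodule ℂ (Matrix (I p q) (I p q) ℂ)}

theorem LA.dec (H : LA h) {Z : Matrix (I p q) (I p q) ℂ} (hZ : Z ∈ h) :
    ∃ X F G Y Y', Z = big0 X + big1 F + bigm G + big2 Y + bign Y' ∧ big0 X ∈ h ∧ big1 F ∈ h ∧
      bigm G ∈ h ∧ big2 Y ∈ h ∧ bign Y' ∈ h := by
  obtain ⟨a, b, c, d, e, f, g, k, i, rfl⟩ := GRD.bl_surj Z
  obtain ⟨s1, s2, s3, s4, s5, s6⟩ := GRD.skew_bl (H.sk _ hZ)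
  obtain ⟨p1, p2, p3, p4, p5⟩ := GRD.parts H.br H.x0 hZ
  refine ⟨(a, e), b, d, c, g, ?_, ?_, ?_, ?_, ?_, ?_⟩
  · rw [big0_eq, big1_eq, big2_eq, bigm, bign, bl_add, bl_add, bl_add, bl_add, bl_inj, s1, s2, s4]
    refine ⟨?_, ?_, ?_, ?_, ?_, ?_, ?_, ?_, ?_⟩ <;> simp
  · rw [big0_eq, ← s1]; exact p5
  · rw [big1_eq, ← s2]; exact p3
  · rw [bigm, ← s4]; exact p4
  · rw [big2_eq]; exact p1
  · exact p2

theorem LA.sk0 (H : LA h) {X : Matrix (Fin p) (Fin p) ℂ × Matrix (Fin q) (Fin q) ℂ}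
    (hX : big0 X ∈ h) : X.2ᵀ = -X.2 := by
  have := H.sk _ hX
  rw [big0_eq] at this
  exact (GRD.skew_bl this).2.2.2.2.1

theorem LA.sk2 (H : LA h) {Y : Matrix (Fin p) (Fin p) ℂ} (hY : big2 Y ∈ h) : Yᵀ = -Y := by
  have := H.sk _ hY
  rw [big2_eq] at this
  exact (GRD.skew_bl this).2.2.1

theorem LA.skn (H : LA h) {Y : Matrix (Fin p) (Fin p) ℂ} (hY : bign Y ∈ h) : Yᵀ = -Y := by
  have := H.sk _ hY
  rw [bign] at this
  exact (GRD.skew_bl this).2.2.2.2.2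

/-- brackets -/
theorem LA.b00 (H : LA h) {X X' : Matrix (Fin p) (Fin p) ℂ × Matrix (Fin q) (Fin q) ℂ}
    (hX : big0 X ∈ h) (hX' : big0 X' ∈ h) :
    big0 (X.1 * X'.1 - X'.1 * X.1, X.2 * X'.2 - X'.2 * X.2) ∈ h := by
  have h1 := H.br _ hX _ hX'
  refine (congrArg (· ∈ h) ?_).mp h1
  rw [big0_eq, big0_eq, big0_eq, bl_mul, bl_mul, bl_sub, bl_inj]
  refine ⟨?_, ?_, ?_, ?_, ?_, ?_, ?_, ?_, ?_⟩ <;> simp

theorem LA.b01 (H : LA h) {X : Matrix (Fin p) (Fin p) ℂ × Matrix (Fin q) (Fin q) ℂ}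
    {F : Matrix (Fin p) (Fin q) ℂ} (hX : big0 X ∈ h) (hF : big1 F ∈ h) :
    big1 (X.1 * F - F * X.2) ∈ h := by
  have h1 := H.br _ hX _ hF
  refine (congrArg (· ∈ h) ?_).mp h1
  rw [big0_eq, big1_eq, big1_eq, bl_mul, bl_mul, bl_sub, bl_inj]
  refine ⟨?_, ?_, ?_, ?_, ?_, ?_, ?_, ?_, ?_⟩ <;> simp [H.sk0 hX]
  abel

theorem LA.b0m (H : LA h) {X : Matrix (Fin p) (Fin p) ℂ × Matrix (Fin q) (Fin q) ℂ}
    {G : Matrix (Fin q) (Fin p) ℂ} (hX : big0 X ∈ h) (hG : bigm G ∈ h) :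
    bigm (X.2 * G - G * X.1) ∈ h := by
  have h1 := H.br _ hX _ hG
  refine (congrArg (· ∈ h) ?_).mp h1
  rw [big0_eq, bigm, bigm, bl_mul, bl_mul, bl_sub, bl_inj]
  refine ⟨?_, ?_, ?_, ?_, ?_, ?_, ?_, ?_, ?_⟩ <;> simp [H.sk0 hX]

theorem LA.b0n (H : LA h) {X : Matrix (Fin p) (Fin p) ℂ × Matrix (Fin q) (Fin q) ℂ}
    {Y : Matrix (Fin p) (Fin p) ℂ} (hX : big0 X ∈ h) (hY : bign Y ∈ h) :
    bign (-(X.1ᵀ * Y) - Y * X.1) ∈ h := by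
  have h1 := H.br _ hX _ hY
  refine (congrArg (· ∈ h) ?_).mp h1
  rw [big0_eq, bign, bign, bl_mul, bl_mul, bl_sub, bl_inj]
  refine ⟨?_, ?_, ?_, ?_, ?_, ?_, ?_, ?_, ?_⟩ <;> simp

theorem LA.b1m (H : LA h) {F : Matrix (Fin p) (Fin q) ℂ} {G : Matrix (Fin q) (Fin p) ℂ}
    (hF : big1 F ∈ h) (hG : bigm G ∈ h) : big0 (F * G, (G * F)ᵀ - G * F) ∈ h := by
  have h1 := H.br _ hF _ hG
  refine (congrArg (· ∈ h) ?_).mp h1
  rw [big0_eq, big1_eq, bigm, bl_mul, bl_mul, bl_sub, bl_inj]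
  refine ⟨?_, ?_, ?_, ?_, ?_, ?_, ?_, ?_, ?_⟩ <;> simp

theorem LA.b1n (H : LA h) {F : Matrix (Fin p) (Fin q) ℂ} {Y : Matrix (Fin p) (Fin p) ℂ}
    (hF : big1 F ∈ h) (hY : bign Y ∈ h) : bigm (-(Fᵀ * Y)) ∈ h := by
  have h1 := H.br _ hF _ hY
  refine (congrArg (· ∈ h) ?_).mp h1
  rw [big1_eq, bign, bigm, bl_mul, bl_mul, bl_sub, bl_inj]
  refine ⟨?_, ?_, ?_, ?_, ?_, ?_, ?_, ?_, ?_⟩ <;> simp [H.skn hY]

theorem LA.b2m (H : LA h) {G : Matrix (Fin q) (Fin p) ℂ} {Y : Matrix (Fin p) (Fin p) ℂ}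
    (hG : bigm G ∈ h) (hY : big2 Y ∈ h) : big1 (-(Y * Gᵀ)) ∈ h := by
  have h1 := H.br _ hY _ hG
  refine (congrArg (· ∈ h) ?_).mp h1
  rw [big1_eq, big2_eq, bigm, bl_mul, bl_mul, bl_sub, bl_inj]
  refine ⟨?_, ?_, ?_, ?_, ?_, ?_, ?_, ?_, ?_⟩ <;> simp [H.sk2 hY]

theorem LA.b2n (H : LA h) {Y Y' : Matrix (Fin p) (Fin p) ℂ}
    (hY : big2 Y ∈ h) (hY' : bign Y' ∈ h) : big0 (Y * Y', 0) ∈ h := by
  have h1 := H.br _ hY _ hY'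
  refine (congrArg (· ∈ h) ?_).mp h1
  rw [big0_eq, big2_eq, bign, bl_mul, bl_mul, bl_sub, bl_inj]
  refine ⟨?_, ?_, ?_, ?_, ?_, ?_, ?_, ?_, ?_⟩ <;> simp [H.sk2 hY, H.skn hY']

/-- a criterion for stability -/
theorem LA.stab (H : LA h) (W : Submodule ℂ (Fin p → ℂ)) (U : Submodule ℂ (Fin q → ℂ))
    (Z : Submodule ℂ (Fin p → ℂ))
    (h0 : ∀ X : Matrix (Fin p) (Fin p) ℂ × Matrix (Fin q) (Fin q) ℂ, big0 X ∈ h →
      (∀ w ∈ W, X.1 *ᵥ w ∈ W) ∧ (∀ u ∈ U, X.2 *ᵥ u ∈ U) ∧ ∀ z ∈ Z, -(X.1ᵀ *ᵥ z) ∈ Z)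
    (h1 : ∀ F, big1 F ∈ h → (∀ u ∈ U, F *ᵥ u ∈ W) ∧ ∀ z ∈ Z, -(Fᵀ *ᵥ z) ∈ U)
    (hm : ∀ G, bigm G ∈ h → (∀ w ∈ W, G *ᵥ w ∈ U) ∧ ∀ u ∈ U, -(Gᵀ *ᵥ u) ∈ Z)
    (h2 : ∀ Y, big2 Y ∈ h → ∀ z ∈ Z, Y *ᵥ z ∈ W) (hn : ∀ Y, bign Y ∈ h → ∀ w ∈ W, Y *ᵥ w ∈ Z) :
    tsub W U Z = ⊥ ∨ tsub W U Z = ⊤ := by
  apply H.irr
  intro x hx w hw
  obtain ⟨X, F, G, Y, Y', rfl, m0, m1, mm, m2, mn⟩ := H.dec hx
  obtain ⟨u, v, z, rfl⟩ := tri_surj w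
  rw [mem_tsub] at hw
  obtain ⟨hu, hv, hz⟩ := hw
  rw [Matrix.add_mulVec, Matrix.add_mulVec, Matrix.add_mulVec, Matrix.add_mulVec]
  refine Submodule.add_mem _ (Submodule.add_mem _ (Submodule.add_mem _ (Submodule.add_mem _
    ?_ ?_) ?_) ?_) ?_
  · rw [big0_eq, bl_tri, mem_tsub]
    simp only [Matrix.zero_mulVec, add_zero, zero_add, Matrix.neg_mulVec]
    exact ⟨(h0 X m0).1 u hu, (h0 X m0).2.1 v hv, (h0 X m0).2.2 z hz⟩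
  · rw [big1_eq, bl_tri, mem_tsub]
    simp only [Matrix.zero_mulVec, add_zero, zero_add, Matrix.neg_mulVec]
    exact ⟨(h1 F m1).1 v hv, (h1 F m1).2 z hz, Z.zero_mem⟩
  · rw [bigm, bl_tri, mem_tsub]
    simp only [Matrix.zero_mulVec, add_zero, zero_add, Matrix.neg_mulVec]
    exact ⟨W.zero_mem, (hm G mm).1 u hu, (hm G mm).2 v hv⟩
  · rw [big2_eq, bl_tri, mem_tsub]
    simp only [Matrix.zero_mulVec, add_zero, zero_add]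
    exact ⟨h2 Y m2 z hz, U.zero_mem, Z.zero_mem⟩
  · rw [bign, bl_tri, mem_tsub]
    simp only [Matrix.zero_mulVec, add_zero, zero_add]
    exact ⟨W.zero_mem, U.zero_mem, hn Y' mn u hu⟩

/-- no vector of degree zero is killed by the operators of degree one -/
theorem LA.kerB (H : LA h) (hp : 0 < p) (u : Fin q → ℂ)
    (hu : ∀ F, big1 F ∈ h → F *ᵥ u = 0) : u = 0 := by
  let K : Submodule ℂ (Fin q → ℂ) :=
    { carrier := {u | ∀ F, big1 F ∈ h → F *ᵥ u = 0}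
      zero_mem' := fun F _ => Matrix.mulVec_zero F
      add_mem' := fun {a b} ha hb F hF => by
        rw [Matrix.mulVec_add, ha F hF, hb F hF, add_zero]
      smul_mem' := fun c a ha F hF => by rw [Matrix.mulVec_smul, ha F hF, smul_zero] }
  have hK : ∀ u, u ∈ K ↔ ∀ F, big1 F ∈ h → F *ᵥ u = 0 := fun u => Iff.rfl
  have hK0 : ∀ X : Matrix (Fin p) (Fin p) ℂ × Matrix (Fin q) (Fin q) ℂ, big0 X ∈ h →
      ∀ u ∈ K, X.2 *ᵥ u ∈ K := by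
    intro X hX u hu F hF
    have h1 := hu _ (H.b01 hX hF)
    rw [Matrix.sub_mulVec, ← Matrix.mulVec_mulVec, hu F hF, Matrix.mulVec_zero, zero_sub,
      neg_eq_zero, ← Matrix.mulVec_mulVec] at h1
    exact h1
  let Z : Submodule ℂ (Fin p → ℂ) :=
    Submodule.span ℂ {z | ∃ G, bigm G ∈ h ∧ ∃ u ∈ K, z = Gᵀ *ᵥ u}
  have hZ : ∀ (T : Matrix (Fin p) (Fin p) ℂ) (Z' : Submodule ℂ (Fin p → ℂ)),
      (∀ G, bigm G ∈ h → ∀ u ∈ K, T *ᵥ (Gᵀ *ᵥ u) ∈ Z') → ∀ z ∈ Z, T *ᵥ z ∈ Z' := by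
    intro T Z' hT z hz
    induction hz using Submodule.span_induction with
    | mem z hz =>
      obtain ⟨G, hG, u, hu, rfl⟩ := hz
      exact hT G hG u hu
    | zero => rw [Matrix.mulVec_zero]; exact Z'.zero_mem
    | add a b _ _ ha hb => rw [Matrix.mulVec_add]; exact Z'.add_mem ha hb
    | smul c a _ ha => rw [Matrix.mulVec_smul]; exact Z'.smul_mem c ha
  have hZ' : ∀ (T : Matrix (Fin q) (Fin p) ℂ) (Z' : Submodule ℂ (Fin q → ℂ)),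
      (∀ G, bigm G ∈ h → ∀ u ∈ K, T *ᵥ (Gᵀ *ᵥ u) ∈ Z') → ∀ z ∈ Z, T *ᵥ z ∈ Z' := by
    intro T Z' hT z hz
    induction hz using Submodule.span_induction with
    | mem z hz =>
      obtain ⟨G, hG, u, hu, rfl⟩ := hz
      exact hT G hG u hu
    | zero => rw [Matrix.mulVec_zero]; exact Z'.zero_mem
    | add a b _ _ ha hb => rw [Matrix.mulVec_add]; exact Z'.add_mem ha hb
    | smul c a _ ha => rw [Matrix.mulVec_smul]; exact Z'.smul_mem c ha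
  have hst := H.stab ⊥ K Z ?_ ?_ ?_ ?_ ?_
  · rcases hst with h1 | h1
    · have h2 : tri 0 u 0 ∈ tsub (⊥ : Submodule ℂ (Fin p → ℂ)) K Z :=
        mem_tsub.2 ⟨Submodule.zero_mem _, hu, Z.zero_mem⟩
      rw [h1, Submodule.mem_bot] at h2
      funext i
      exact congrFun h2 (Sum.inr (Sum.inl i))
    · exfalso
      have h2 : tri (fun _ => 1) 0 0 ∈ tsub (⊥ : Submodule ℂ (Fin p → ℂ)) K Z := by
        rw [h1]; trivial
      have h3 := (mem_tsub.1 h2).1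
      rw [Submodule.mem_bot] at h3
      have := congrFun h3 ⟨0, hp⟩
      simp at this
  · intro X hX
    refine ⟨fun w hw => ?_, hK0 X hX, fun z hz => ?_⟩
    · rw [Submodule.mem_bot] at hw
      rw [hw, Matrix.mulVec_zero]
      exact Submodule.zero_mem _
    · rw [← Matrix.neg_mulVec]
      refine hZ (-X.1ᵀ) Z (fun G hG u hu => ?_) z hz
      have h1 : Z.carrier ((X.2 * G - G * X.1)ᵀ *ᵥ u) :=
        Submodule.subset_span ⟨_, H.b0m hX hG, u, hu, rfl⟩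
      have h2 : Z.carrier (Gᵀ *ᵥ (X.2 *ᵥ u)) :=
        Submodule.subset_span ⟨G, hG, _, hK0 X hX u hu, rfl⟩
      have h3 : (-X.1ᵀ) *ᵥ (Gᵀ *ᵥ u) = (X.2 * G - G * X.1)ᵀ *ᵥ u + Gᵀ *ᵥ (X.2 *ᵥ u) := by
        rw [Matrix.transpose_sub, Matrix.transpose_mul, Matrix.transpose_mul, H.sk0 hX,
          Matrix.sub_mulVec, Matrix.mul_neg, Matrix.neg_mulVec, Matrix.neg_mulVec,
          Matrix.mulVec_mulVec, Matrix.mulVec_mulVec]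
        abel
      rw [h3]
      exact Z.add_mem h1 h2
  · intro F hF
    refine ⟨fun u hu => by rw [Submodule.mem_bot]; exact hu F hF, fun z hz => ?_⟩
    rw [← Matrix.neg_mulVec]
    refine hZ' (-Fᵀ) K (fun G hG u hu => ?_) z hz
    have h1 := hK0 _ (H.b1m hF hG) u hu
    have h2 : (-Fᵀ) *ᵥ (Gᵀ *ᵥ u) = -(((G * F)ᵀ - G * F) *ᵥ u) := by
      rw [Matrix.sub_mulVec, ← Matrix.mulVec_mulVec u G, hu F hF, Matrix.mulVec_zero, sub_zero,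
        Matrix.transpose_mul, ← Matrix.mulVec_mulVec, Matrix.neg_mulVec]
    rw [h2]
    exact K.neg_mem h1
  · intro G hG
    refine ⟨fun w hw => ?_, fun u hu => Z.neg_mem (Submodule.subset_span ⟨G, hG, u, hu, rfl⟩)⟩
    rw [Submodule.mem_bot] at hw
    rw [hw, Matrix.mulVec_zero]
    exact Submodule.zero_mem _
  · intro Y hY z hz
    refine hZ Y ⊥ (fun G hG u hu => ?_) z hz
    rw [Submodule.mem_bot]
    have h1 := hu _ (H.b2m hG hY)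
    rw [Matrix.neg_mulVec, neg_eq_zero, ← Matrix.mulVec_mulVec] at h1
    exact h1
  · intro Y _ w hw
    rw [Submodule.mem_bot] at hw
    rw [hw, Matrix.mulVec_zero]
    exact Submodule.zero_mem _

/-- the space of degree one is irreducible under the operators of degree zero -/
theorem LA.irrA (H : LA h) (W : Submodule ℂ (Fin p → ℂ))
    (hW : ∀ X : Matrix (Fin p) (Fin p) ℂ × Matrix (Fin q) (Fin q) ℂ, big0 X ∈ h →
      ∀ w ∈ W, X.1 *ᵥ w ∈ W) : W = ⊥ ∨ W = ⊤ := by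
  let U : Submodule ℂ (Fin q → ℂ) :=
    Submodule.span ℂ {z | ∃ G, bigm G ∈ h ∧ ∃ w ∈ W, z = G *ᵥ w}
  have hU : ∀ {m : ℕ} (T : Matrix (Fin m) (Fin q) ℂ) (Z' : Submodule ℂ (Fin m → ℂ)),
      (∀ G, bigm G ∈ h → ∀ w ∈ W, T *ᵥ (G *ᵥ w) ∈ Z') → ∀ z ∈ U, T *ᵥ z ∈ Z' := by
    intro m T Z' hT z hz
    induction hz using Submodule.span_induction with
    | mem z hz =>
      obtain ⟨G, hG, u, hu, rfl⟩ := hz
      exact hT G hG u hu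
    | zero => rw [Matrix.mulVec_zero]; exact Z'.zero_mem
    | add a b _ _ ha hb => rw [Matrix.mulVec_add]; exact Z'.add_mem ha hb
    | smul c a _ ha => rw [Matrix.mulVec_smul]; exact Z'.smul_mem c ha
  have hU0 : ∀ X : Matrix (Fin p) (Fin p) ℂ × Matrix (Fin q) (Fin q) ℂ, big0 X ∈ h →
      ∀ u ∈ U, X.2 *ᵥ u ∈ U := by
    intro X hX
    refine hU X.2 U fun G hG w hw => ?_
    have h1 : U.carrier ((X.2 * G - G * X.1) *ᵥ w) :=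
      Submodule.subset_span ⟨_, H.b0m hX hG, w, hw, rfl⟩
    have h2 : U.carrier (G *ᵥ (X.1 *ᵥ w)) :=
      Submodule.subset_span ⟨G, hG, _, hW X hX w hw, rfl⟩
    have h3 : X.2 *ᵥ (G *ᵥ w) = (X.2 * G - G * X.1) *ᵥ w + G *ᵥ (X.1 *ᵥ w) := by
      rw [Matrix.sub_mulVec, Matrix.mulVec_mulVec, Matrix.mulVec_mulVec]
      abel
    rw [h3]
    exact U.add_mem h1 h2
  have hUF : ∀ F, big1 F ∈ h → ∀ u ∈ U, F *ᵥ u ∈ W := by
    intro F hF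
    refine hU F W fun G hG w hw => ?_
    rw [Matrix.mulVec_mulVec]
    exact hW _ (H.b1m hF hG) w hw
  let Z : Submodule ℂ (Fin p → ℂ) := Submodule.span ℂ ({z | ∃ G, bigm G ∈ h ∧ ∃ u ∈ U,
    z = Gᵀ *ᵥ u} ∪ {z | ∃ Y : Matrix (Fin p) (Fin p) ℂ, (bign Y : Matrix (I p q) (I p q) ℂ) ∈ h ∧
      ∃ w ∈ W, z = Y *ᵥ w})
  have hZ : ∀ {m : ℕ} (T : Matrix (Fin m) (Fin p) ℂ) (Z' : Submodule ℂ (Fin m → ℂ)),
      (∀ G, bigm G ∈ h → ∀ u ∈ U, T *ᵥ (Gᵀ *ᵥ u) ∈ Z') →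
      (∀ Y : Matrix (Fin p) (Fin p) ℂ, (bign Y : Matrix (I p q) (I p q) ℂ) ∈ h → ∀ w ∈ W,
        T *ᵥ (Y *ᵥ w) ∈ Z') → ∀ z ∈ Z, T *ᵥ z ∈ Z' := by
    intro m T Z' hT hT' z hz
    induction hz using Submodule.span_induction with
    | mem z hz =>
      rcases hz with ⟨G, hG, u, hu, rfl⟩ | ⟨Y, hY, w, hw, rfl⟩
      · exact hT G hG u hu
      · exact hT' Y hY w hw
    | zero => rw [Matrix.mulVec_zero]; exact Z'.zero_mem
    | add a b _ _ ha hb => rw [Matrix.mulVec_add]; exact Z'.add_mem ha hb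
    | smul c a _ ha => rw [Matrix.mulVec_smul]; exact Z'.smul_mem c ha
  have hZ1 : ∀ G, bigm G ∈ h → ∀ u ∈ U, Gᵀ *ᵥ u ∈ Z := fun G hG u hu =>
    Submodule.subset_span (Or.inl ⟨G, hG, u, hu, rfl⟩)
  have hZ2 : ∀ Y : Matrix (Fin p) (Fin p) ℂ, (bign Y : Matrix (I p q) (I p q) ℂ) ∈ h →
      ∀ w ∈ W, Y *ᵥ w ∈ Z := fun Y hY w hw =>
    Submodule.subset_span (Or.inr ⟨Y, hY, w, hw, rfl⟩)
  have hst := H.stab W U Z ?_ ?_ ?_ ?_ ?_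
  · rcases hst with h1 | h1
    · left
      rw [eq_bot_iff]
      intro w hw
      have h2 : tri w 0 0 ∈ tsub W U Z := mem_tsub.2 ⟨hw, U.zero_mem, Z.zero_mem⟩
      rw [h1, Submodule.mem_bot] at h2
      rw [Submodule.mem_bot]
      funext i
      exact congrFun h2 (Sum.inl i)
    · right
      rw [eq_top_iff]
      intro w _
      have h2 : tri w 0 0 ∈ tsub W U Z := by rw [h1]; trivial
      exact (mem_tsub.1 h2).1
  · intro X hX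
    refine ⟨hW X hX, hU0 X hX, fun z hz => ?_⟩
    rw [← Matrix.neg_mulVec]
    refine hZ (-X.1ᵀ) Z (fun G hG u hu => ?_) (fun Y hY w hw => ?_) z hz
    · have h3 : (-X.1ᵀ) *ᵥ (Gᵀ *ᵥ u) = (X.2 * G - G * X.1)ᵀ *ᵥ u + Gᵀ *ᵥ (X.2 *ᵥ u) := by
        rw [Matrix.transpose_sub, Matrix.transpose_mul, Matrix.transpose_mul, H.sk0 hX,
          Matrix.sub_mulVec, Matrix.mul_neg, Matrix.neg_mulVec, Matrix.neg_mulVec,
          Matrix.mulVec_mulVec, Matrix.mulVec_mulVec]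
        abel
      rw [h3]
      exact Z.add_mem (hZ1 _ (H.b0m hX hG) u hu) (hZ1 G hG _ (hU0 X hX u hu))
    · have h3 : (-X.1ᵀ) *ᵥ (Y *ᵥ w) = (-(X.1ᵀ * Y) - Y * X.1) *ᵥ w + Y *ᵥ (X.1 *ᵥ w) := by
        rw [Matrix.sub_mulVec, Matrix.neg_mulVec, Matrix.neg_mulVec, Matrix.mulVec_mulVec,
          Matrix.mulVec_mulVec]
        abel
      rw [h3]
      exact Z.add_mem (hZ2 _ (H.b0n hX hY) w hw) (hZ2 Y hY _ (hW X hX w hw))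
  · intro F hF
    refine ⟨hUF F hF, fun z hz => ?_⟩
    rw [← Matrix.neg_mulVec]
    refine hZ (-Fᵀ) U (fun G hG u hu => ?_) (fun Y hY w hw => ?_) z hz
    · have h1 := hU0 _ (H.b1m hF hG) u hu
      have h2 : (-Fᵀ) *ᵥ (Gᵀ *ᵥ u) = -(((G * F)ᵀ - G * F) *ᵥ u) - G *ᵥ (F *ᵥ u) := by
        rw [Matrix.sub_mulVec, Matrix.transpose_mul, Matrix.neg_mulVec, Matrix.mulVec_mulVec,
          Matrix.mulVec_mulVec]
        abel
      rw [h2]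
      exact U.sub_mem (U.neg_mem h1) (Submodule.subset_span ⟨G, hG, _, hUF F hF u hu, rfl⟩)
    · have h1 : U.carrier ((-(Fᵀ * Y)) *ᵥ w) :=
        Submodule.subset_span ⟨_, H.b1n hF hY, w, hw, rfl⟩
      rw [Matrix.neg_mulVec, ← Matrix.mulVec_mulVec, ← Matrix.neg_mulVec] at h1
      exact h1
  · intro G hG
    exact ⟨fun w hw => Submodule.subset_span ⟨G, hG, w, hw, rfl⟩,
      fun u hu => Z.neg_mem (hZ1 G hG u hu)⟩
  · intro Y hY z hz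
    refine hZ Y W (fun G hG u hu => ?_) (fun Y' hY' w hw => ?_) z hz
    · have h1 := hUF _ (H.b2m hG hY) u hu
      rw [Matrix.neg_mulVec, ← Matrix.mulVec_mulVec] at h1
      exact (Submodule.neg_mem_iff W).1 h1
    · rw [Matrix.mulVec_mulVec]
      exact hW _ (H.b2n hY hY') w hw
  · intro Y hY w hw
    exact hZ2 Y hY w hw

end

end Pool.Agent.Y95.ZL
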