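import Pool.Agent.Y95.ZL.Cen

/-!
# The composites of degree zero lie in the algebra generated by `kk`
-/

open Finset Module Polynomial Matrix
open Pool.Agent.W544.PG Pool.Agent.W216.PG

namespace Pool.Agent.Y95.ZL

noncomputable section

section alg
variable {ι : Type} [Fintype ι] [DecidableEq ι] {A : Subalgebra ℂ (Matrix ι ι ℂ)}

theorem tr_skew {x : Matrix ι ι ℂ} (h : xᵀ = -x) : x.trace = 0 := by
  have h1 := Matrix.trace_transpose x
  rw [h, Matrix.trace_neg] at h1
  linear_combination (-1 / 2 : ℂ) * h1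

theorem tr_sym_skew {x y : Matrix ι ι ℂ} (hx : xᵀ = x) (hy : yᵀ = -y) : (x * y).trace = 0 := by
  have h1 := Matrix.trace_transpose (x * y)
  rw [Matrix.transpose_mul, hx, hy, Matrix.neg_mul, Matrix.trace_neg, Matrix.trace_mul_comm] at h1
  linear_combination (-1 / 2 : ℂ) * h1

theorem half_split (y : Matrix ι ι ℂ) :
    y = (1 / 2 : ℂ) • (y + yᵀ) + (1 / 2 : ℂ) • (y - yᵀ) := by
  rw [← smul_add]
  have h1 : y + yᵀ + (y - yᵀ) = (2 : ℂ) • y := by rw [two_smul]; abel
  rw [h1, smul_smul]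
  norm_num

theorem split_br (s x : Matrix ι ι ℂ) :
    s * x - x * s = (1 / 2 : ℂ) • (s * (x + xᵀ) - (x + xᵀ) * s) +
      (1 / 2 : ℂ) • (s * (x - xᵀ) - (x - xᵀ) * s) := by
  simp only [Matrix.mul_add, Matrix.add_mul, Matrix.mul_sub, Matrix.sub_mul]
  module

/-- a traceless symmetric element which is not isotropic -/
theorem exists_s0 [Nonempty ι] (hA : ND A.toSubmodule) (hT : ∀ a ∈ A, aᵀ ∈ A)
    (hs : ∃ s ∈ A, sᵀ = s ∧ ∀ c : ℂ, s ≠ c • 1) :
    ∃ s ∈ A, sᵀ = s ∧ s.trace = 0 ∧ (s * s).trace ≠ 0 := by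
  by_contra hcon
  push Not at hcon
  obtain ⟨s, hsA, hsT, hs⟩ := hs
  have hcard : (Fintype.card ι : ℂ) ≠ 0 := by
    rw [Nat.cast_ne_zero]
    exact Fintype.card_ne_zero
  have hsub : ∀ x ∈ A, xᵀ = x → x - (x.trace / Fintype.card ι) • 1 ∈ A ∧
      (x - (x.trace / Fintype.card ι) • (1 : Matrix ι ι ℂ))ᵀ =
        x - (x.trace / Fintype.card ι) • 1 ∧
      (x - (x.trace / Fintype.card ι) • (1 : Matrix ι ι ℂ)).trace = 0 := by
    intro x hx hxT
    refine ⟨A.sub_mem hx (A.smul_mem A.one_mem _), ?_, ?_⟩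
    · rw [Matrix.transpose_sub, hxT, Matrix.transpose_smul, Matrix.transpose_one]
    · rw [Matrix.trace_sub, Matrix.trace_smul, Matrix.trace_one, smul_eq_mul,
        div_mul_cancel₀ _ hcard, sub_self]
  have hpol : ∀ x ∈ A, xᵀ = x → x.trace = 0 → ∀ y ∈ A, yᵀ = y → y.trace = 0 →
      (x * y).trace = 0 := by
    intro x hx hxT hx0 y hy hyT hy0
    have h1 := hcon (x + y) (A.add_mem hx hy) (by rw [Matrix.transpose_add, hxT, hyT])
      (by rw [Matrix.trace_add, hx0, hy0, add_zero])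
    rw [mul_add, add_mul, add_mul, Matrix.trace_add, Matrix.trace_add, Matrix.trace_add,
      hcon x hx hxT hx0, hcon y hy hyT hy0, Matrix.trace_mul_comm y x] at h1
    linear_combination (1 / 2 : ℂ) * h1
  obtain ⟨a1, a2, a3⟩ := hsub s hsA hsT
  apply hs (s.trace / Fintype.card ι)
  rw [← sub_eq_zero]
  apply hA _ a1
  intro y hy
  have hy' : y ∈ A := hy
  set s1 := s - (s.trace / Fintype.card ι) • (1 : Matrix ι ι ℂ) with hs1
  have hyT := hT y hy'
  obtain ⟨b1, b2, b3⟩ := hsub (y + yᵀ) (A.add_mem hy' hyT)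
    (by rw [Matrix.transpose_add, Matrix.transpose_transpose, add_comm])
  have h1 := hpol _ a1 a2 a3 _ b1 b2 b3
  rw [Matrix.mul_sub, Matrix.trace_sub, Matrix.mul_smul, Matrix.mul_one, Matrix.trace_smul, a3,
    smul_zero, sub_zero] at h1
  have h2 := tr_sym_skew a2 (y := y - yᵀ)
    (by rw [Matrix.transpose_sub, Matrix.transpose_transpose]; abel)
  conv_lhs => rw [half_split y, Matrix.mul_add, Matrix.mul_smul, Matrix.mul_smul,
    Matrix.trace_add, Matrix.trace_smul, Matrix.trace_smul, h1, h2]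
  simp

/-- the main computation -/
theorem lg_aux [Nonempty ι] (hA : Fac A) (hT : ∀ a ∈ A, aᵀ ∈ A)
    (hs : ∃ s ∈ A, sᵀ = s ∧ ∀ c : ℂ, s ≠ c • 1) {Y : Matrix ι ι ℂ}
    (hφ : ∀ α ∈ A, ∀ a ∈ A, a * ((Y * α)ᵀ - Y * α) = ((Y * α)ᵀ - Y * α) * a) :
    ∀ a ∈ A, a * Y = Y * a := by
  have hcard : (Fintype.card ι : ℂ) ≠ 0 := by
    rw [Nat.cast_ne_zero]
    exact Fintype.card_ne_zero
  obtain ⟨T, ω, hω, t1, t2, t3, t4, t5, t6, t7⟩ := hA.tools
  have hTT : ∀ a ∈ A, ∀ M, T (a * M) = T (M * a) := by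
    intro a ha M
    rw [← sub_eq_zero]
    apply hA.nd_cm _ ((cm A).sub_mem (mem_cm.2 (t1 _)) (mem_cm.2 (t1 _)))
    intro c hc
    have hc' := mem_cm.1 hc
    rw [Matrix.sub_mul, Matrix.trace_sub, t6, t6, t5 c hc', Matrix.mul_smul, Matrix.mul_smul,
      Matrix.trace_smul, Matrix.trace_smul, Matrix.mul_assoc M, hc' a ha, Matrix.trace_mul_comm M,
      Matrix.mul_assoc, Matrix.trace_mul_comm a, Matrix.mul_assoc, Matrix.trace_mul_comm M,
      sub_self]
  obtain ⟨c, hcdef⟩ : ∃ c, c = Yᵀ - Y := ⟨_, rfl⟩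
  have hc : ∀ a ∈ A, a * c = c * a := by
    have := hφ 1 A.one_mem
    rwa [Matrix.mul_one, ← hcdef] at this
  have hYT : Yᵀ = Y + c := by rw [hcdef]; abel
  have hE : ∀ s ∈ A, sᵀ = s → s * Y - Y * s = (s.trace / Fintype.card ι) • c - s * c := by
    intro s hsA hsT
    have h1 : (Y * s)ᵀ - Y * s = s * Y - Y * s + s * c := by
      rw [Matrix.transpose_mul, hsT, hYT, Matrix.mul_add]
      abel
    have h2 := hφ s hsA
    rw [h1] at h2
    have h3 := t5 _ h2
    have h4 : T (s * Y - Y * s + s * c) + T (Y * s) = T (s * Y) + T (s * c) := by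
      rw [← t4, ← t4]
      congr 1
      abel
    rw [h3, hTT s hsA Y, add_comm, add_left_cancel_iff, t3 c hc, t2 s hsA, Matrix.smul_mul,
      Matrix.one_mul] at h4
    have h5 : s * Y - Y * s + s * c = (s.trace / Fintype.card ι) • c := by
      have h6 := congrArg (fun t => ω⁻¹ • t) h4
      simp only [smul_smul] at h6
      rw [inv_mul_cancel₀ hω, one_smul] at h6
      rw [h6]
      congr 1
      field_simp
    rw [← h5]
    abel
  obtain ⟨s0, hs0A, hs0T, hs00, hs01⟩ := exists_s0 hA.nd hT hs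
  have hc0 : c = 0 := by
    apply hA.nd_cm c (mem_cm.2 hc)
    intro c' hc'
    have hc'' := mem_cm.1 hc'
    have h1 := hE s0 hs0A hs0T
    rw [hs00, zero_div, zero_smul, zero_sub] at h1
    have h2 : (s0 * (s0 * c) * c').trace = 0 := by
      have h3 : s0 * c = Y * s0 - s0 * Y := by rw [← neg_sub, h1, neg_neg]
      rw [h3, Matrix.mul_sub, Matrix.sub_mul, Matrix.trace_sub, sub_eq_zero]
      calc (s0 * (Y * s0) * c').trace = (Y * s0 * (c' * s0)).trace := by
            rw [Matrix.mul_assoc, Matrix.trace_mul_comm, Matrix.mul_assoc]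
        _ = (Y * (s0 * s0 * c')).trace := by
            rw [← hc'' s0 hs0A]
            simp only [Matrix.mul_assoc]
        _ = (Y * c' * (s0 * s0)).trace := by
            rw [hc'' _ (A.mul_mem hs0A hs0A), ← Matrix.mul_assoc]
        _ = (s0 * (s0 * Y) * c').trace := by
            rw [Matrix.trace_mul_comm]
            simp only [Matrix.mul_assoc]
    have h4 : s0 * (s0 * c) * c' = s0 * s0 * (c * c') := by simp only [Matrix.mul_assoc]
    rw [h4, hA.tr_cm (A.mul_mem hs0A hs0A) ((cm A).mul_mem (mem_cm.2 hc) hc')] at h2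
    rcases div_eq_zero_iff.1 h2 with h5 | h5
    · rcases mul_eq_zero.1 h5 with h6 | h6
      · exact absurd h6 hs01
      · exact h6
    · exact absurd h5 hcard
  have hYs : ∀ s ∈ A, sᵀ = s → s * Y - Y * s = 0 := by
    intro s hsA hsT
    rw [hE s hsA hsT, hc0, smul_zero, Matrix.mul_zero, sub_zero]
  have hYs' : ∀ s ∈ A, sᵀ = s → Y * s = s * Y := fun s hsA hsT =>
    (sub_eq_zero.1 (hYs s hsA hsT)).symm
  have hbr : ∀ s ∈ A, sᵀ = s → ∀ x ∈ A, Y * (s * x - x * s) = (s * x - x * s) * Y := by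
    intro s hsA hsT x hx
    have h1 := split_br s x
    have h2 : Y * (s * (x + xᵀ) - (x + xᵀ) * s) = (s * (x + xᵀ) - (x + xᵀ) * s) * Y := by
      have e1 := hYs' s hsA hsT
      have e2 := hYs' (x + xᵀ) (A.add_mem hx (hT x hx))
        (by rw [Matrix.transpose_add, Matrix.transpose_transpose, add_comm])
      set w := x + xᵀ
      rw [Matrix.mul_sub, Matrix.sub_mul, ← Matrix.mul_assoc, e1, Matrix.mul_assoc, e2,
        ← Matrix.mul_assoc Y w, e2, Matrix.mul_assoc w, e1]
      simp only [Matrix.mul_assoc]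
    have h3 : Y * (s * (x - xᵀ) - (x - xᵀ) * s) = (s * (x - xᵀ) - (x - xᵀ) * s) * Y := by
      have hm : x - xᵀ ∈ A := A.sub_mem hx (hT x hx)
      apply hYs' _ (A.sub_mem (A.mul_mem hsA hm) (A.mul_mem hm hsA))
      rw [Matrix.transpose_sub, Matrix.transpose_mul, Matrix.transpose_mul, Matrix.transpose_sub,
        Matrix.transpose_transpose, hsT, Matrix.sub_mul, Matrix.mul_sub, Matrix.sub_mul,
        Matrix.mul_sub]
      abel
    obtain ⟨P, hP⟩ : ∃ P, P = s * (x + xᵀ) - (x + xᵀ) * s := ⟨_, rfl⟩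
    obtain ⟨Q, hQ⟩ : ∃ Q, Q = s * (x - xᵀ) - (x - xᵀ) * s := ⟨_, rfl⟩
    rw [← hP] at h1 h2
    rw [← hQ] at h1 h3
    rw [h1, Matrix.mul_add, Matrix.add_mul, Matrix.mul_smul, Matrix.mul_smul, Matrix.smul_mul,
      Matrix.smul_mul, h2, h3]
  by_cases hab : ∃ s ∈ A, sᵀ = s ∧ ∃ s' ∈ A, s'ᵀ = s' ∧ s * s' - s' * s ≠ 0
  · obtain ⟨s, hsA, hsT, s', hsA', hsT', hne⟩ := hab
    have hua : ∀ a ∈ A, Y * ((s * s' - s' * s) * a) = (s * s' - s' * s) * a * Y := by
      intro a ha
      have e1 : (s * s' - s' * s) * a = (s * (s' * a) - (s' * a) * s) - s' * (s * a - a * s) := by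
        simp only [Matrix.sub_mul, Matrix.mul_sub, Matrix.mul_assoc]
        abel
      have e2 := hbr s hsA hsT _ (A.mul_mem hsA' ha)
      have e3 := hbr s hsA hsT _ ha
      have e4 := hYs' s' hsA' hsT'
      obtain ⟨b1, hb1⟩ : ∃ b, b = s * (s' * a) - (s' * a) * s := ⟨_, rfl⟩
      obtain ⟨b2, hb2⟩ : ∃ b, b = s * a - a * s := ⟨_, rfl⟩
      rw [← hb1, ← hb2] at e1
      rw [← hb1] at e2
      rw [← hb2] at e3
      calc Y * ((s * s' - s' * s) * a) = Y * (b1 - s' * b2) := by rw [e1]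
        _ = Y * b1 - (Y * s') * b2 := by rw [Matrix.mul_sub, Matrix.mul_assoc]
        _ = b1 * Y - s' * (Y * b2) := by rw [e2, e4, Matrix.mul_assoc]
        _ = b1 * Y - s' * (b2 * Y) := by rw [e3]
        _ = (b1 - s' * b2) * Y := by rw [Matrix.sub_mul, Matrix.mul_assoc]
        _ = _ := by rw [e1]
    intro a ha
    have h1 := t7 (s * s' - s' * s) (A.sub_mem (A.mul_mem hsA hsA') (A.mul_mem hsA' hsA))
      (Y * a - a * Y) (by
        intro x hx
        have e1 := hua x hx
        have e2 := hua _ (A.mul_mem hx ha)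
        set u := s * s' - s' * s
        calc u * x * (Y * a - a * Y) = (u * x * Y) * a - (u * (x * a)) * Y := by
              simp only [Matrix.mul_sub, Matrix.mul_assoc]
          _ = (Y * (u * x)) * a - Y * (u * (x * a)) := by rw [← e1, ← e2]
          _ = 0 := by
              simp only [Matrix.mul_assoc]
              exact sub_self _)
    rcases h1 with h1 | h1
    · exact absurd h1 hne
    · exact (sub_eq_zero.1 h1).symm
  · exfalso
    push Not at hab
    obtain ⟨s, hsA, hsT, hsn⟩ := hs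
    have hδ : ∀ x ∈ A, s * (s * x - x * s) = (s * x - x * s) * s := by
      intro x hx
      have hw : x + xᵀ ∈ A := A.add_mem hx (hT x hx)
      have hw' : x - xᵀ ∈ A := A.sub_mem hx (hT x hx)
      have h0 := hab s hsA hsT _ hw
        (by rw [Matrix.transpose_add, Matrix.transpose_transpose, add_comm])
      have h1 := split_br s x
      have h3 := hab s hsA hsT _ (A.sub_mem (A.mul_mem hsA hw') (A.mul_mem hw' hsA)) (by
        rw [Matrix.transpose_sub, Matrix.transpose_mul, Matrix.transpose_mul,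
          Matrix.transpose_sub, Matrix.transpose_transpose, hsT, Matrix.sub_mul, Matrix.mul_sub,
          Matrix.sub_mul, Matrix.mul_sub]
        abel)
      rw [h1, h0, smul_zero, zero_add, Matrix.mul_smul, Matrix.smul_mul, sub_eq_zero.1 h3]
    have hprod : ∀ a ∈ A, ∀ b ∈ A, (s * a - a * s) * (s * b - b * s) = 0 := by
      intro a ha b hb
      have e1 := hδ a ha
      have e2 := hδ b hb
      have e3 := hδ _ (A.mul_mem ha hb)
      have e4 : s * (a * b) - a * b * s = (s * a - a * s) * b + a * (s * b - b * s) := by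
        simp only [Matrix.sub_mul, Matrix.mul_sub, Matrix.mul_assoc]
        abel
      rw [e4] at e3
      set x := s * a - a * s with hx
      set y := s * b - b * s with hy
      have e5 : x * y + x * y = 0 := by
        have e6 : s * (x * b + a * y) - (x * b + a * y) * s =
            (s * x - x * s) * b + x * (s * b - b * s) + ((s * a - a * s) * y +
              a * (s * y - y * s)) := by
          simp only [Matrix.mul_add, Matrix.add_mul, Matrix.sub_mul, Matrix.mul_sub,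
            Matrix.mul_assoc]
          abel
        rw [e3, sub_self, e1, sub_self, Matrix.zero_mul, zero_add, e2, sub_self, Matrix.mul_zero,
          add_zero, ← hx, ← hy] at e6
        exact e6.symm
      have e7 : (2 : ℂ) • (x * y) = 0 := by rw [two_smul]; exact e5
      exact (smul_eq_zero.1 e7).resolve_left two_ne_zero
    obtain ⟨z, hz⟩ := hA.cen s hsA (by
      intro a ha
      have h1 := t7 (s * a - a * s) (A.sub_mem (A.mul_mem hsA ha) (A.mul_mem ha hsA))
        (s * a - a * s) (by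
          intro x hx
          have e1 := hprod a ha _ (A.mul_mem hx ha)
          have e2 := hprod a ha x hx
          have e4 : s * (x * a) - x * a * s = (s * x - x * s) * a + x * (s * a - a * s) := by
            simp only [Matrix.sub_mul, Matrix.mul_sub, Matrix.mul_assoc]
            abel
          rw [e4, Matrix.mul_add, ← Matrix.mul_assoc, e2, Matrix.zero_mul, zero_add,
            ← Matrix.mul_assoc] at e1
          exact e1)
      rcases h1 with h1 | h1 <;> exact (sub_eq_zero.1 h1).symm)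
    exact hsn z hz

end alg

variable {p q : ℕ} {G : Zr p q}

/-- there are symmetric operators in the algebra besides the scalars -/
theorem Zr.sym (hq : 0 < q) (hκ : 4 ≤ finrank ℂ G.kk) :
    ∃ s ∈ G.al, sᵀ = s ∧ ∀ c : ℂ, s ≠ c • 1 := by
  by_contra hcon
  push Not at hcon
  haveI : Nonempty (Fin q) := ⟨⟨0, hq⟩⟩
  have hnd := Zr.al_nd hq (by omega : 2 ≤ finrank ℂ G.kk)
  let S : Submodule ℂ (Matrix (Fin q) (Fin q) ℂ) :=
    { carrier := {x | x ∈ G.al ∧ xᵀ = -x}
      zero_mem' := ⟨G.al.zero_mem, by simp⟩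
      add_mem' := fun {a b} ha hb => ⟨G.al.add_mem ha.1 hb.1, by
        rw [Matrix.transpose_add, ha.2, hb.2]; abel⟩
      smul_mem' := fun c a ha => ⟨G.al.smul_mem ha.1 c, by
        rw [Matrix.transpose_smul, ha.2, smul_neg]⟩ }
  have hle : G.kk ≤ S := fun k hk => ⟨Zr.kk_al hk, Zr.kk_T hk⟩
  have hfr : 4 ≤ finrank ℂ S := le_trans hκ (Submodule.finrank_mono hle)
  have hSnd : ND S := by
    intro x hx hxx
    apply hnd x hx.1
    intro y hy
    have hy' : y ∈ G.al := hy
    have hyT := Zr.alT hy'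
    obtain ⟨c, hc⟩ := hcon (y + yᵀ) (G.al.add_mem hy' hyT)
      (by rw [Matrix.transpose_add, Matrix.transpose_transpose, add_comm])
    have h1 : (x * (y - yᵀ)).trace = 0 := hxx _ ⟨G.al.sub_mem hy' hyT, by
      rw [Matrix.transpose_sub, Matrix.transpose_transpose]; abel⟩
    rw [half_split y, hc, Matrix.mul_add, Matrix.mul_smul, Matrix.mul_smul, Matrix.mul_smul,
      Matrix.trace_add, Matrix.trace_smul, Matrix.trace_smul, Matrix.trace_smul, h1,
      Matrix.mul_one, tr_skew hx.2]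
    simp
  obtain ⟨u, hu, huu, -⟩ := hSnd.basis
  have hanti : ∀ x ∈ S, ∀ y ∈ S, (x * y).trace = 0 → x * y = -(y * x) := by
    intro x hx y hy hxy
    obtain ⟨c, hc⟩ := hcon (x * y + y * x) (G.al.add_mem (G.al.mul_mem hx.1 hy.1)
      (G.al.mul_mem hy.1 hx.1)) (by
        rw [Matrix.transpose_add, Matrix.transpose_mul, Matrix.transpose_mul, hx.2, hy.2,
          neg_mul_neg, neg_mul_neg, add_comm])
    have h1 := congrArg Matrix.trace hc
    rw [Matrix.trace_add, hxy, Matrix.trace_mul_comm y, hxy, add_zero, Matrix.trace_smul,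
      Matrix.trace_one, smul_eq_mul] at h1
    rcases mul_eq_zero.1 h1.symm with h2 | h2
    · rw [h2, zero_smul] at hc
      exact eq_neg_of_add_eq_zero_left hc
    · exact absurd (Nat.cast_eq_zero.1 h2) Fintype.card_ne_zero
  have hsq : ∀ x ∈ S, (x * x).trace = 1 → ∃ z : ℂ, z ≠ 0 ∧ x * x = z • 1 := by
    intro x hx hxx
    obtain ⟨c, hc⟩ := hcon (x * x) (G.al.mul_mem hx.1 hx.1) (by
      rw [Matrix.transpose_mul, hx.2, neg_mul_neg])
    refine ⟨c, ?_, hc⟩
    intro h0
    rw [hc, h0, zero_smul, Matrix.trace_zero] at hxx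
    exact zero_ne_one hxx
  let i1 : Fin (finrank ℂ S) := ⟨0, by omega⟩
  let i2 : Fin (finrank ℂ S) := ⟨1, by omega⟩
  let i3 : Fin (finrank ℂ S) := ⟨2, by omega⟩
  let i4 : Fin (finrank ℂ S) := ⟨3, by omega⟩
  have n12 : (u i1 * u i2).trace = 0 := by
    rw [huu, if_neg (by simp [i1, i2, Fin.ext_iff])]
  have n13 : (u i1 * u i3).trace = 0 := by
    rw [huu, if_neg (by simp [i1, i3, Fin.ext_iff])]
  have n23 : (u i2 * u i3).trace = 0 := by
    rw [huu, if_neg (by simp [i2, i3, Fin.ext_iff])]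
  have n41 : (u i4 * u i1).trace = 0 := by
    rw [huu, if_neg (by simp [i1, i4, Fin.ext_iff])]
  have n42 : (u i4 * u i2).trace = 0 := by
    rw [huu, if_neg (by simp [i2, i4, Fin.ext_iff])]
  have n43 : (u i4 * u i3).trace = 0 := by
    rw [huu, if_neg (by simp [i3, i4, Fin.ext_iff])]
  have a12 := hanti _ (hu i1) _ (hu i2) n12
  have a13 := hanti _ (hu i1) _ (hu i3) n13
  have a23 := hanti _ (hu i2) _ (hu i3) n23
  have a41 := hanti _ (hu i4) _ (hu i1) n41
  have a42 := hanti _ (hu i4) _ (hu i2) n42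
  have a43 := hanti _ (hu i4) _ (hu i3) n43
  obtain ⟨z1, hz1, s1⟩ := hsq _ (hu i1) (by rw [huu, if_pos rfl])
  obtain ⟨z2, hz2, s2⟩ := hsq _ (hu i2) (by rw [huu, if_pos rfl])
  have ht3 : (u i3 * u i3).trace = 1 := by rw [huu, if_pos rfl]
  have ht4 : (u i4 * u i4).trace = 1 := by rw [huu, if_pos rfl]
  have T1 := (hu i1).2
  have T2 := (hu i2).2
  have T3 := (hu i3).2
  obtain ⟨z, hz⟩ := hcon (u i1 * u i2 * u i3) (G.al.mul_mem (G.al.mul_mem (hu i1).1 (hu i2).1)
    (hu i3).1) (by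
      rw [Matrix.transpose_mul, Matrix.transpose_mul, T1, T2, T3, neg_mul_neg, Matrix.neg_mul]
      calc -(u i3 * (u i2 * u i1)) = -(u i3 * u i2) * u i1 := by
            rw [Matrix.neg_mul, Matrix.mul_assoc]
        _ = u i2 * (u i3 * u i1) := by rw [← a23, Matrix.mul_assoc]
        _ = -(u i2 * (u i1 * u i3)) := by rw [a13, Matrix.mul_neg, neg_neg]
        _ = -(u i2 * u i1) * u i3 := by rw [Matrix.neg_mul, Matrix.mul_assoc]
        _ = u i1 * u i2 * u i3 := by rw [← a12])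
  have h4 : u i4 * (u i1 * u i2 * u i3) = -(u i1 * u i2 * u i3 * u i4) := by
    calc u i4 * (u i1 * u i2 * u i3) = (u i4 * u i1) * u i2 * u i3 := by
          simp only [Matrix.mul_assoc]
      _ = -(u i1 * (u i4 * u i2) * u i3) := by
          rw [a41, Matrix.neg_mul, Matrix.neg_mul]
          simp only [Matrix.mul_assoc]
      _ = u i1 * u i2 * (u i4 * u i3) := by
          rw [a42, Matrix.mul_neg, Matrix.neg_mul, neg_neg]
          simp only [Matrix.mul_assoc]
      _ = _ := by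
          rw [a43, Matrix.mul_neg]
          simp only [Matrix.mul_assoc]
  rw [hz, Matrix.mul_smul, Matrix.smul_mul, Matrix.mul_one, Matrix.one_mul] at h4
  have h5 : (2 * z) • u i4 = 0 := by
    rw [two_mul, add_smul]
    nth_rw 1 [h4]
    exact neg_add_cancel _
  rcases smul_eq_zero.1 h5 with h6 | h6
  · have hz0 : z = 0 := by
      rcases mul_eq_zero.1 h6 with h | h
      · exact absurd h two_ne_zero
      · exact h
    rw [hz0, zero_smul] at hz
    have h7 : (z1 * z2) • u i3 = 0 := by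
      calc (z1 * z2) • u i3 = u i1 * u i1 * (u i2 * u i2) * u i3 := by
            rw [s1, s2, Matrix.smul_mul, Matrix.one_mul, smul_smul, Matrix.smul_mul,
              Matrix.one_mul]
        _ = -(u i1 * u i2 * (u i1 * u i2 * u i3)) := by
            have : u i1 * (u i2 * u i2) = -(u i2 * u i1 * u i2) := by
              rw [← Matrix.mul_assoc, a12, Matrix.neg_mul]
            calc u i1 * u i1 * (u i2 * u i2) * u i3 = u i1 * (u i1 * (u i2 * u i2)) * u i3 := by
                  simp only [Matrix.mul_assoc]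
              _ = _ := by
                  rw [this, Matrix.mul_neg, Matrix.neg_mul]
                  simp only [Matrix.mul_assoc]
        _ = 0 := by rw [hz, Matrix.mul_zero, neg_zero]
    rcases smul_eq_zero.1 h7 with h8 | h8
    · exact (mul_ne_zero hz1 hz2) h8
    · rw [h8, Matrix.mul_zero, Matrix.trace_zero] at ht3
      exact zero_ne_one ht3
  · rw [h6, Matrix.mul_zero, Matrix.trace_zero] at ht4
    exact zero_ne_one ht4

/-- the composites lie in the algebra -/
theorem Zr.lg (hq : 0 < q) (hκ : 4 ≤ finrank ℂ G.kk) {F : Matrix (Fin p) (Fin q) ℂ}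
    (hF : F ∈ G.h1) {F' : Matrix (Fin q) (Fin p) ℂ} (hF' : F' ∈ G.hm) : F' * F ∈ G.al := by
  haveI : Nonempty (Fin q) := ⟨⟨0, hq⟩⟩
  have hκ2 : 2 ≤ finrank ℂ G.kk := by omega
  have hfac := Zr.fac hq hκ2
  have hsym := Zr.sym hq hκ
  obtain ⟨T, ω, hω, t1, t2, t3, t4, t5, t6, t7⟩ := hfac.tools
  obtain ⟨π, hπ1, hπ2, hπ3⟩ := hfac.nd.proj
  have πl : ∀ a ∈ G.al, ∀ M, π (a * M) = a * π M := by
    intro a ha M
    rw [← sub_eq_zero]
    apply hfac.nd _ (G.al.sub_mem (hπ1 _) (G.al.mul_mem ha (hπ1 _)))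
    intro y hy
    have hy' : y ∈ G.al := hy
    rw [Matrix.sub_mul, Matrix.trace_sub, hπ2 _ y hy, Matrix.mul_assoc, Matrix.mul_assoc,
      Matrix.trace_mul_comm a, Matrix.trace_mul_comm a, Matrix.mul_assoc, Matrix.mul_assoc,
      hπ2 _ _ (G.al.mul_mem hy' ha), sub_self]
  have πr : ∀ a ∈ G.al, ∀ M, π (M * a) = π M * a := by
    intro a ha M
    rw [← sub_eq_zero]
    apply hfac.nd _ (G.al.sub_mem (hπ1 _) (G.al.mul_mem (hπ1 _) ha))
    intro y hy
    have hy' : y ∈ G.al := hy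
    rw [Matrix.sub_mul, Matrix.trace_sub, hπ2 _ y hy, Matrix.mul_assoc, Matrix.mul_assoc,
      hπ2 _ _ (G.al.mul_mem ha hy'), sub_self]
  have πT : ∀ M, π Mᵀ = (π M)ᵀ := by
    intro M
    rw [← sub_eq_zero]
    apply hfac.nd _ (G.al.sub_mem (hπ1 _) (Zr.alT (hπ1 _)))
    intro y hy
    have hy' : y ∈ G.al := hy
    rw [Matrix.sub_mul, Matrix.trace_sub, hπ2 _ y hy, ← Matrix.trace_transpose,
      ← Matrix.trace_transpose ((π M)ᵀ * y), Matrix.transpose_mul, Matrix.transpose_mul,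
      Matrix.transpose_transpose, Matrix.transpose_transpose, Matrix.trace_mul_comm,
      Matrix.trace_mul_comm yᵀ, hπ2 _ _ (Zr.alT hy'), sub_self]
  -- the component orthogonal to the algebra commutes with the algebra
  have key : ∀ F ∈ G.h1, ∀ F' ∈ G.hm, ∀ a ∈ G.al,
      a * (F' * F - π (F' * F)) = (F' * F - π (F' * F)) * a := by
    intro F hF F' hF'
    apply lg_aux hfac (fun a ha => Zr.alT ha) hsym
    intro α hα a ha
    obtain ⟨φ, hφ⟩ : ∃ φ, φ = ((F' * F - π (F' * F)) * α)ᵀ - (F' * F - π (F' * F)) * α :=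
      ⟨_, rfl⟩
    rw [← hφ, ← sub_eq_zero]
    have hπφ : π φ = 0 := by
      have h0 : π (F' * F - π (F' * F)) = 0 := by rw [map_sub, hπ3 _ (hπ1 _), sub_self]
      rw [hφ, map_sub, πT, πr α hα, h0, Matrix.zero_mul, Matrix.transpose_zero, sub_zero]
    have h1 := G.b1m _ (Zr.al1 hF hα) F' hF'
    have h2 := Zr.al0 h1 ha
    change ((F' * (F * α))ᵀ - F' * (F * α)) * a - a * ((F' * (F * α))ᵀ - F' * (F * α)) ∈ G.al
      at h2
    have hm1 : (π (F' * F) * α)ᵀ - π (F' * F) * α ∈ G.al :=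
      G.al.sub_mem (Zr.alT (G.al.mul_mem (hπ1 _) hα)) (G.al.mul_mem (hπ1 _) hα)
    have e1 : φ = ((F' * (F * α))ᵀ - F' * (F * α)) -
        ((π (F' * F) * α)ᵀ - π (F' * F) * α) := by
      rw [hφ, Matrix.sub_mul, Matrix.transpose_sub, Matrix.mul_assoc]
      abel
    have h3 : a * φ - φ * a ∈ G.al := by
      have e2 : a * φ - φ * a = -(((F' * (F * α))ᵀ - F' * (F * α)) * a -
          a * ((F' * (F * α))ᵀ - F' * (F * α))) +
          (((π (F' * F) * α)ᵀ - π (F' * F) * α) * a -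
            a * ((π (F' * F) * α)ᵀ - π (F' * F) * α)) := by
        rw [e1, mul_sub, sub_mul]
        abel
      rw [e2]
      exact G.al.add_mem (G.al.neg_mem h2) (G.al.sub_mem (G.al.mul_mem hm1 ha)
        (G.al.mul_mem ha hm1))
    rw [← hπ3 _ h3, map_sub, πl a ha, πr a ha, hπφ, Matrix.mul_zero, Matrix.zero_mul, sub_zero]
  obtain ⟨k, hk, k', hk', hne⟩ := Zr.nonab hq hκ2
  obtain ⟨Y, hY⟩ : ∃ Y, Y = F' * F - π (F' * F) := ⟨_, rfl⟩
  have hYc : ∀ a ∈ G.al, a * Y = Y * a := by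
    intro a ha
    rw [hY]
    exact key F hF F' hF' a ha
  have hYk : ∀ a ∈ G.al, a * (k' * Y) = k' * Y * a := by
    intro a ha
    have h1 := key F hF _ (Zr.alm hF' (Zr.kk_al hk')) a ha
    rw [Matrix.mul_assoc k', πl _ (Zr.kk_al hk'), ← Matrix.mul_sub, ← hY] at h1
    exact h1
  have h1 := t7 (k * k' - k' * k) (G.al.sub_mem (G.al.mul_mem (Zr.kk_al hk) (Zr.kk_al hk'))
    (G.al.mul_mem (Zr.kk_al hk') (Zr.kk_al hk))) Y (by
      intro x hx
      have h2 := hYk k (Zr.kk_al hk)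
      rw [Matrix.mul_assoc, hYc x hx, ← Matrix.mul_assoc]
      have h3 : (k * k' - k' * k) * Y = 0 := by
        rw [Matrix.sub_mul, Matrix.mul_assoc, h2, Matrix.mul_assoc, ← hYc k (Zr.kk_al hk),
          ← Matrix.mul_assoc, sub_self]
      rw [h3, Matrix.zero_mul])
  rcases h1 with h1 | h1
  · exact absurd (sub_eq_zero.1 h1) hne
  · rw [hY, sub_eq_zero] at h1
    rw [h1]
    exact hπ1 _

end

end Pool.Agent.Y95.ZL
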