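import Pool.Agent.Y95.ZL.Spec

/-!
# Replicas of matrices; Engel's theorem for spaces of matrices
-/

open Finset Module Polynomial Matrix

namespace Pool.Agent.Y95.ZL

noncomputable section

variable {ι : Type} [Fintype ι] [DecidableEq ι]

/-- `R(x)` acts on the generalised eigenspace of `x` for `l` as `h l`. -/
def RmF (h : ℂ → ℂ) (R : ℂ[X]) (x : Matrix ι ι ℂ) : Prop := RepF h R (Matrix.toLin' x)

/-- `R(x)` is the replica of `x` given by complex conjugation. -/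
def Rm (R : ℂ[X]) (x : Matrix ι ι ℂ) : Prop := RmF (starRingEnd ℂ) R x

theorem aeval_lin (x : Matrix ι ι ℂ) (R : ℂ[X]) :
    aeval (Matrix.toLin' x) R = Matrix.toLin' (aeval x R) := by
  have h := Polynomial.aeval_algHom_apply (Matrix.toLinAlgEquiv' (R := ℂ) (n := ι)).toAlgHom x R
  exact h

theorem aeval_commM (x : Matrix ι ι ℂ) (R : ℂ[X]) : aeval x R * x = x * aeval x R := by
  have h := (Commute.all R (X : ℂ[X])).map (aeval x : ℂ[X] →ₐ[ℂ] Matrix ι ι ℂ)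
  rw [aeval_X] at h
  exact h

theorem aeval_commM' {x y : Matrix ι ι ℂ} (R : ℂ[X]) (h : x * y = y * x) :
    aeval x R * y = y * aeval x R := by
  induction R using Polynomial.induction_on' with
  | add p q hp hq => rw [map_add, add_mul, mul_add, hp, hq]
  | monomial n a =>
    rw [aeval_monomial]
    have h1 : x ^ n * y = y * x ^ n := (Commute.pow_left h n).eq
    rw [mul_assoc, h1, ← mul_assoc, ← mul_assoc, Algebra.commutes]

/-- the eigenvalues of a matrix -/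
theorem exists_ev (x : Matrix ι ι ℂ) :
    ∃ L : Finset ℂ, ∀ l, End.HasEigenvalue (Matrix.toLin' x) l → l ∈ L :=
  ⟨(End.finite_hasEigenvalue (Matrix.toLin' x)).toFinset, fun l hl => by
    rw [Set.Finite.mem_toFinset]; exact hl⟩

theorem exists_rep (h : ℂ → ℂ) (x : Matrix ι ι ℂ) : ∃ R : ℂ[X], RmF h R x := by
  obtain ⟨L, hL⟩ := exists_ev x
  obtain ⟨R, hR⟩ := exists_R h L (finrank ℂ (ι → ℂ))
  exact ⟨R, Rep_of hR hL le_rfl⟩

theorem exists_rep3 {κ μ : Type} [Fintype κ] [DecidableEq κ] [Fintype μ] [DecidableEq μ]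
    (h : ℂ → ℂ) (x : Matrix ι ι ℂ) (y : Matrix κ κ ℂ) (z : Matrix μ μ ℂ) :
    ∃ R : ℂ[X], RmF h R x ∧ RmF h R y ∧ RmF h R z := by
  obtain ⟨L, hL⟩ := exists_ev x
  obtain ⟨L', hL'⟩ := exists_ev y
  obtain ⟨L'', hL''⟩ := exists_ev z
  obtain ⟨R, hR⟩ := exists_R h (L ∪ L' ∪ L'')
    (finrank ℂ (ι → ℂ) + finrank ℂ (κ → ℂ) + finrank ℂ (μ → ℂ))
  exact ⟨R, Rep_of hR (fun l hl => by simp [hL l hl]) (by omega),
    Rep_of hR (fun l hl => by simp [hL' l hl]) (by omega),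
    Rep_of hR (fun l hl => by simp [hL'' l hl]) (by omega)⟩

theorem nil_lin {x : Matrix ι ι ℂ} : IsNilpotent (Matrix.toLin' x) ↔ IsNilpotent x := by
  constructor
  · rintro ⟨k, hk⟩
    refine ⟨k, ?_⟩
    rw [← Matrix.toLin'_pow] at hk
    exact (Matrix.toLin' (R := ℂ)).injective (by rw [hk, map_zero])
  · rintro ⟨k, hk⟩
    refine ⟨k, ?_⟩
    rw [← Matrix.toLin'_pow, hk, map_zero]

theorem tr_rep {R : ℂ[X]} {x : Matrix ι ι ℂ} (hR : Rm R x) :
    ∃ r : ℝ, 0 ≤ r ∧ (x * aeval x R).trace = r ∧ (r = 0 → IsNilpotent x) := by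
  obtain ⟨r, h1, h2, h3⟩ := trace_rep hR
  refine ⟨r, h1, ?_, fun h => nil_lin.1 (h3 h)⟩
  rw [← h2, aeval_lin]
  change _ = LinearMap.trace ℂ _ (Matrix.toLin' x ∘ₗ Matrix.toLin' (aeval x R))
  rw [← Matrix.toLin'_mul, Matrix.trace_toLin'_eq]

theorem tr_conj {R : ℂ[X]} {x : Matrix ι ι ℂ} (hR : Rm R x) :
    (aeval x R).trace = starRingEnd ℂ x.trace := by
  have h := trace_conj hR
  rwa [aeval_lin, Matrix.trace_toLin'_eq, Matrix.trace_toLin'_eq] at h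

theorem ad_repM {R : ℂ[X]} {x : Matrix ι ι ℂ} (hR : Rm R x) (W : Submodule ℂ (Matrix ι ι ℂ))
    (hW : ∀ Y ∈ W, x * Y - Y * x ∈ W) : ∀ Y ∈ W, aeval x R * Y - Y * aeval x R ∈ W := by
  have h := ad_rep hR (W.map (Matrix.toLin' (R := ℂ) (m := ι) (n := ι)).toLinearMap) (by
    rintro _ ⟨Y, hY, rfl⟩
    refine ⟨x * Y - Y * x, hW Y hY, ?_⟩
    change Matrix.toLin' (x * Y - Y * x) = _
    rw [map_sub, Matrix.toLin'_mul, Matrix.toLin'_mul]
    rfl)
  intro Y hY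
  obtain ⟨Y', hY', h2⟩ := h (Matrix.toLin' Y) ⟨Y, hY, rfl⟩
  have h3 : Y' = aeval x R * Y - Y * aeval x R := by
    apply (Matrix.toLin' (R := ℂ)).injective
    rw [aeval_lin] at h2
    rw [map_sub, Matrix.toLin'_mul, Matrix.toLin'_mul]
    exact h2
  rw [← h3]
  exact hY'

section engel

attribute [local instance 100] LieRing.ofAssociativeRing

/-- Engel's theorem -/
theorem engel [Nonempty ι] (N : Submodule ℂ (Matrix ι ι ℂ))
    (hbr : ∀ x ∈ N, ∀ y ∈ N, x * y - y * x ∈ N) (hnil : ∀ x ∈ N, IsNilpotent x) :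
    ∃ v : ι → ℂ, v ≠ 0 ∧ ∀ x ∈ N, x *ᵥ v = 0 := by
  let L : LieSubalgebra ℂ (Module.End ℂ (ι → ℂ)) :=
    { N.map (Matrix.toLin' (R := ℂ) (m := ι) (n := ι)).toLinearMap with
      lie_mem' := by
        rintro _ _ ⟨x, hx, rfl⟩ ⟨y, hy, rfl⟩
        refine ⟨x * y - y * x, hbr x hx y hy, ?_⟩
        change Matrix.toLin' (x * y - y * x) = _
        rw [map_sub, Matrix.toLin'_mul, Matrix.toLin'_mul]
        rfl }
  have h1 : LieModule.IsNilpotent L (ι → ℂ) := by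
    rw [LieModule.isNilpotent_iff_forall' (R := ℂ)]
    rintro ⟨_, x, hx, rfl⟩
    exact nil_lin.2 (hnil x hx)
  have h2 := LieModule.nontrivial_max_triv_of_isNilpotent ℂ L (ι → ℂ)
  obtain ⟨⟨v, hv⟩, hv0⟩ := exists_ne (0 : LieModule.maxTrivSubmodule ℂ L (ι → ℂ))
  refine ⟨v, fun h => hv0 (Subtype.ext h), fun x hx => ?_⟩
  rw [LieModule.mem_maxTrivSubmodule] at hv
  have h3 := hv ⟨Matrix.toLin' x, x, hx, rfl⟩
  change Matrix.toLin' x v = 0 at h3
  rwa [Matrix.toLin'_apply] at h3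

end engel

end

end Pool.Agent.Y95.ZL
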