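import Mathlib

/-!
# Replicas

Let `x` be an operator on a finite dimensional complex vector space. A polynomial `R` which
interpolates complex conjugation on the eigenvalues of `x` to high order gives a replica `R(x)`
of `x` in the sense of Chevalley.
-/

open Finset Module Polynomial

namespace Pool.Agent.Y95.ZL

noncomputable section

/-- `R` interpolates `h` to high order. -/
theorem exists_R (h : ℂ → ℂ) (L : Finset ℂ) (N : ℕ) :
    ∃ R : ℂ[X], ∀ l ∈ L, (X - C l) ^ N ∣ R - C (h l) := by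
  have hI : Pairwise (Function.onFun IsCoprime
      fun i : L => Ideal.span {(X - C (i : ℂ) : ℂ[X]) ^ N}) := by
    intro i j hij
    change IsCoprime _ _
    rw [Ideal.isCoprime_span_singleton_iff]
    exact (isCoprime_X_sub_C_of_isUnit_sub
      (sub_ne_zero.2 (fun h => hij (Subtype.ext h))).isUnit).pow
  obtain ⟨R, hR⟩ := Ideal.exists_forall_sub_mem_ideal hI (fun l => C (h (l : ℂ)))
  exact ⟨R, fun l hl => Ideal.mem_span_singleton.1 (hR ⟨l, hl⟩)⟩

section rep

attribute [local instance 100] LieRing.ofAssociativeRing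

variable {V : Type} [AddCommGroup V] [Module ℂ V]

/-- `R(f)` acts on the generalised eigenspace of `f` for `l` as `h l`. -/
def RepF (h : ℂ → ℂ) (R : ℂ[X]) (f : End ℂ V) : Prop :=
  ∀ l, ∀ v ∈ f.maxGenEigenspace l, (aeval f R) v = h l • v

/-- `R(f)` acts on the generalised eigenspace of `f` for `l` as the conjugate of `l`. -/
def Rep (R : ℂ[X]) (f : End ℂ V) : Prop := RepF (starRingEnd ℂ) R f

theorem aeval_comm (f : End ℂ V) (R : ℂ[X]) : Commute f (aeval f R) := by
  have h := (Commute.all (X : ℂ[X]) R).map (aeval f : ℂ[X] →ₐ[ℂ] End ℂ V)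
  rwa [aeval_X] at h

/-- polynomials in `f` preserve generalised eigenspaces -/
theorem aeval_maps (f : End ℂ V) (R : ℂ[X]) (l : ℂ) :
    Set.MapsTo (aeval f R) (f.maxGenEigenspace l) (f.maxGenEigenspace l) :=
  End.mapsTo_maxGenEigenspace_of_comm (aeval_comm f R) l

variable [FiniteDimensional ℂ V]

theorem ev_of_ne {f : End ℂ V} {l : ℂ} (h : f.maxGenEigenspace l ≠ ⊥) : f.HasEigenvalue l := by
  have h4 : f.HasUnifEigenvalue l ⊤ := h
  exact h4.lt zero_lt_one

theorem Rep_of {h : ℂ → ℂ} {R : ℂ[X]} {L : Finset ℂ} {N : ℕ}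
    (hR : ∀ l ∈ L, (X - C l) ^ N ∣ R - C (h l)) {f : End ℂ V}
    (hL : ∀ l, f.HasEigenvalue l → l ∈ L) (hN : finrank ℂ V ≤ N) : RepF h R f := by
  intro l v hv
  by_cases hv0 : v = 0
  · subst hv0; simp
  have hl : l ∈ L := by
    apply hL
    apply ev_of_ne
    intro h2
    rw [h2] at hv
    exact hv0 (by simpa using hv)
  obtain ⟨Q, hQ⟩ := hR l hl
  have h1 : R = C (h l) + Q * (X - C l) ^ N := by
    rw [mul_comm Q, ← hQ]; ring
  have h2 : ((f - algebraMap ℂ (End ℂ V) l) ^ N) v = 0 := by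
    rw [End.maxGenEigenspace_eq_genEigenspace_finrank] at hv
    have h3 : v ∈ f.genEigenspace l N := (f.genEigenspace l).mono (by exact_mod_cast hN) hv
    rw [End.mem_genEigenspace_nat] at h3
    rw [Algebra.algebraMap_eq_smul_one]
    exact h3
  rw [h1]
  simp only [map_add, map_mul, map_pow, map_sub, aeval_X, aeval_C, LinearMap.add_apply,
    Module.End.mul_apply, h2, map_zero, add_zero, Module.algebraMap_end_apply]

/-- The trace of an operator which acts on the generalised eigenspaces of `f`. -/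
theorem trace_dec (f g : End ℂ V) (hg : ∀ l, Set.MapsTo g (f.maxGenEigenspace l)
    (f.maxGenEigenspace l)) (h : ℂ → ℂ)
    (ht : ∀ l, LinearMap.trace ℂ _ (g.restrict (hg l)) =
      h l * finrank ℂ (f.maxGenEigenspace l)) :
    ∃ S : Finset ℂ, (∀ l, l ∈ S ↔ f.maxGenEigenspace l ≠ ⊥) ∧
    LinearMap.trace ℂ V g = ∑ l ∈ S, h l * finrank ℂ (f.maxGenEigenspace l) := by
  have hds := DirectSum.isInternal_submodule_of_iSupIndep_of_iSup_eq_top
    f.independent_maxGenEigenspace (End.iSup_maxGenEigenspace_eq_top f)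
  have h_fin : {μ | f.maxGenEigenspace μ ≠ ⊥}.Finite :=
    WellFoundedGT.finite_ne_bot_of_iSupIndep f.independent_maxGenEigenspace
  refine ⟨h_fin.toFinset, fun l => by simp, ?_⟩
  rw [LinearMap.trace_eq_sum_trace_restrict' hds h_fin hg]
  exact Finset.sum_congr rfl fun l _ => ht l

theorem trace_gen (f : End ℂ V) (l : ℂ) (hf : Set.MapsTo f (f.maxGenEigenspace l)
    (f.maxGenEigenspace l)) :
    LinearMap.trace ℂ _ (f.restrict hf) = l * finrank ℂ (f.maxGenEigenspace l) := by
  have h0 : Set.MapsTo (f - algebraMap ℂ (End ℂ V) l) (f.maxGenEigenspace l)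
      (f.maxGenEigenspace l) :=
    End.mapsTo_maxGenEigenspace_of_comm (Algebra.mul_sub_algebraMap_commutes f l) l
  have h1 := End.isNilpotent_restrict_maxGenEigenspace_sub_algebraMap f l h0
  have h2 := (LinearMap.isNilpotent_trace_of_isNilpotent h1).eq_zero
  have h3 : f.restrict hf = (f - algebraMap ℂ (End ℂ V) l).restrict h0 +
      l • (LinearMap.id : End ℂ (f.maxGenEigenspace l)) := by
    ext v
    change f v.1 = (f - algebraMap ℂ (End ℂ V) l) v.1 + l • v.1
    rw [LinearMap.sub_apply, Module.algebraMap_end_apply, sub_add_cancel]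
  rw [h3, map_add, h2, zero_add, map_smul, LinearMap.trace_id, smul_eq_mul]

theorem trace_rep {R : ℂ[X]} {f : End ℂ V} (hR : Rep R f) :
    ∃ r : ℝ, 0 ≤ r ∧ LinearMap.trace ℂ V (f * aeval f R) = r ∧ (r = 0 → IsNilpotent f) := by
  have hf : ∀ l, Set.MapsTo f (f.maxGenEigenspace l) (f.maxGenEigenspace l) := fun l =>
    End.mapsTo_maxGenEigenspace_of_comm (Commute.refl f) l
  have hg : ∀ l, Set.MapsTo (f * aeval f R) (f.maxGenEigenspace l) (f.maxGenEigenspace l) :=
    fun l => (hf l).comp (aeval_maps f R l)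
  obtain ⟨S, hS, hSt⟩ := trace_dec f (f * aeval f R) hg (fun l => ((Complex.normSq l : ℝ) : ℂ)) (by
    intro l
    have h3 : (f * aeval f R).restrict (hg l) = (starRingEnd ℂ l) • f.restrict (hf l) := by
      ext v
      change f (aeval f R v.1) = (starRingEnd ℂ l) • f v.1
      rw [hR l v v.2, map_smul]
    rw [h3, map_smul, trace_gen, smul_eq_mul, ← mul_assoc]
    congr 1
    rw [mul_comm, Complex.mul_conj])
  refine ⟨∑ l ∈ S, Complex.normSq l * finrank ℂ (f.maxGenEigenspace l), ?_, ?_, ?_⟩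
  · exact Finset.sum_nonneg fun l _ => mul_nonneg (Complex.normSq_nonneg l) (Nat.cast_nonneg _)
  · rw [hSt]
    push_cast
    rfl
  · intro h0
    have h1 := (Finset.sum_eq_zero_iff_of_nonneg (fun l _ =>
      mul_nonneg (Complex.normSq_nonneg l) (Nat.cast_nonneg _))).1 h0
    have h2 : ∀ l, l ≠ 0 → f.maxGenEigenspace l = ⊥ := by
      intro l hl
      by_contra hne
      have h3 := h1 l ((hS l).2 hne)
      rcases mul_eq_zero.1 h3 with h4 | h4
      · exact hl (Complex.normSq_eq_zero.1 h4)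
      · apply hne
        have h5 : finrank ℂ (f.maxGenEigenspace l) = 0 := by exact_mod_cast h4
        exact Submodule.finrank_eq_zero.1 h5
    have h3 : f.maxGenEigenspace 0 = ⊤ := by
      rw [eq_top_iff, ← End.iSup_maxGenEigenspace_eq_top f]
      refine iSup_le fun l => ?_
      by_cases hl : l = 0
      · rw [hl]
      · rw [h2 l hl]
        exact bot_le
    rw [End.maxGenEigenspace_eq_genEigenspace_finrank] at h3
    refine ⟨finrank ℂ V, ?_⟩
    ext v
    have h4 : v ∈ f.genEigenspace 0 (finrank ℂ V) := by rw [h3]; trivial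
    rw [End.mem_genEigenspace_nat] at h4
    simpa using h4

theorem trace_conj {R : ℂ[X]} {f : End ℂ V} (hR : Rep R f) :
    LinearMap.trace ℂ V (aeval f R) = starRingEnd ℂ (LinearMap.trace ℂ V f) := by
  have hf : ∀ l, Set.MapsTo f (f.maxGenEigenspace l) (f.maxGenEigenspace l) := fun l =>
    End.mapsTo_maxGenEigenspace_of_comm (Commute.refl f) l
  obtain ⟨S, hS, hSt⟩ := trace_dec f (aeval f R) (aeval_maps f R) (starRingEnd ℂ) (by
    intro l
    have h3 : (aeval f R).restrict (aeval_maps f R l) =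
        (starRingEnd ℂ l) • (LinearMap.id : End ℂ (f.maxGenEigenspace l)) := by
      ext v
      exact hR l v v.2
    rw [h3, map_smul, LinearMap.trace_id, smul_eq_mul])
  obtain ⟨S', hS', hSt'⟩ := trace_dec f f hf (fun l => l) (fun l => trace_gen f l (hf l))
  have h1 : S = S' := by
    ext l
    rw [hS, hS']
  rw [hSt, hSt', h1, map_sum]
  refine Finset.sum_congr rfl fun l _ => ?_
  rw [map_mul]
  simp

/-- A space of operators which is stable under `ad f` is stable under `ad R(f)`. -/
theorem ad_rep {R : ℂ[X]} {f : End ℂ V} (hR : Rep R f) (W : Submodule ℂ (End ℂ V))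
    (hW : ∀ Y ∈ W, f * Y - Y * f ∈ W) : ∀ Y ∈ W, aeval f R * Y - Y * aeval f R ∈ W := by
  let A : End ℂ (End ℂ V) := LieModule.toEnd ℂ (End ℂ V) (End ℂ V) f
  have hA : ∀ Y, A Y = f * Y - Y * f := fun Y => rfl
  have h1 := Submodule.eq_iSup_inf_genEigenspace (p := W) (f := A) ⊤
    (fun Y hY => by rw [hA]; exact hW Y hY) (End.iSup_maxGenEigenspace_eq_top A)
  let B : End ℂ (End ℂ V) := LieModule.toEnd ℂ (End ℂ V) (End ℂ V) (aeval f R)
  have hB : ∀ Y, B Y = aeval f R * Y - Y * aeval f R := fun Y => rfl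
  have key : ∀ ν, ∀ Y ∈ A.maxGenEigenspace ν, B Y = (starRingEnd ℂ ν) • Y := by
    intro ν Y hY
    have h2 : ∀ l, ∀ v ∈ f.maxGenEigenspace l, B Y v = ((starRingEnd ℂ ν) • Y) v := by
      intro l v hv
      have h3 : ⁅Y, v⁆ ∈ f.maxGenEigenspace (ν + l) := by
        have hv' : v ∈ (LieModule.toEnd ℂ (End ℂ V) V f).maxGenEigenspace l := by
          rwa [LieModule.toEnd_module_end]
        have := LieModule.lie_mem_maxGenEigenspace_toEnd (R := ℂ) (x := f) hY hv'
        rwa [LieModule.toEnd_module_end] at this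
      change Y v ∈ f.maxGenEigenspace (ν + l) at h3
      rw [hB, LinearMap.sub_apply, Module.End.mul_apply, Module.End.mul_apply, hR _ _ h3,
        hR _ _ hv, map_smul, map_add, add_smul, add_sub_cancel_right, LinearMap.smul_apply]
    have h4 : (⨆ l, f.maxGenEigenspace l) ≤ LinearMap.ker (B Y - (starRingEnd ℂ ν) • Y) := by
      refine iSup_le fun l v hv => ?_
      rw [LinearMap.mem_ker, LinearMap.sub_apply, h2 l v hv, sub_self]
    rw [End.iSup_maxGenEigenspace_eq_top f] at h4
    ext v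
    have h5 := h4 (Submodule.mem_top (x := v))
    rw [LinearMap.mem_ker, LinearMap.sub_apply, sub_eq_zero] at h5
    exact h5
  have h2 : W ≤ W.comap B := by
    conv_lhs => rw [h1]
    refine iSup_le fun ν Y hY => ?_
    rw [Submodule.mem_comap, key ν Y hY.2]
    exact W.smul_mem _ hY.1
  intro Y hY
  rw [← hB]
  exact h2 hY

end rep

end

end Pool.Agent.Y95.ZL
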