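import Pool.Agent.Y95.ZL.Alg

/-!
# Lie algebras normalised by a strongly irreducible group
-/

open Finset Module Polynomial Matrix

namespace Pool.Agent.Y95.ZL

noncomputable section

variable {ι : Type} [Fintype ι] [DecidableEq ι] {Γ : Type} [Group Γ]

/-- strong irreducibility over the complex numbers -/
def SIrr (g : Γ →* Matrix ι ι ℂ) : Prop := ∀ Δ : Subgroup Γ, Δ.FiniteIndex →
  ∀ W : Submodule ℂ (ι → ℂ), (∀ γ ∈ Δ, ∀ w ∈ W, g γ *ᵥ w ∈ W) → W = ⊥ ∨ W = ⊤

/-- `W` is stable under conjugation. -/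
def Stb (g : Γ →* Matrix ι ι ℂ) (W : Submodule ℂ (Matrix ι ι ℂ)) : Prop :=
  ∀ γ, ∀ x ∈ W, g γ * x * g γ⁻¹ ∈ W

variable {g : Γ →* Matrix ι ι ℂ}

theorem g_inv (γ : Γ) : g γ * g γ⁻¹ = 1 := by
  rw [← map_mul, mul_inv_cancel, map_one]

theorem g_inv' (γ : Γ) : g γ⁻¹ * g γ = 1 := by
  rw [← map_mul, inv_mul_cancel, map_one]

theorem Stb.inv {W : Submodule ℂ (Matrix ι ι ℂ)} (h : Stb g W) (γ : Γ) {x : Matrix ι ι ℂ}
    (hx : x ∈ W) : g γ⁻¹ * x * g γ ∈ W := by
  have := h γ⁻¹ x hx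
  rwa [inv_inv] at this

theorem conj_mulc (γ : Γ) (x y : Matrix ι ι ℂ) :
    g γ * x * g γ⁻¹ * (g γ * y * g γ⁻¹) = g γ * (x * y) * g γ⁻¹ := by
  calc g γ * x * g γ⁻¹ * (g γ * y * g γ⁻¹) = g γ * x * (g γ⁻¹ * g γ) * y * g γ⁻¹ := by
        simp only [Matrix.mul_assoc]
    _ = _ := by rw [g_inv', Matrix.mul_one]; simp only [Matrix.mul_assoc]

theorem tr_conjc (γ : Γ) (x y : Matrix ι ι ℂ) :
    (g γ * x * g γ⁻¹ * y).trace = (x * (g γ⁻¹ * y * g γ)).trace := by
  rw [Matrix.mul_assoc, Matrix.mul_assoc, Matrix.trace_mul_comm]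
  simp only [Matrix.mul_assoc]

theorem zero_of_ker (hg : SIrr g) {W : Submodule ℂ (Matrix ι ι ℂ)} (hW : Stb g W) {v : ι → ℂ}
    (hv0 : v ≠ 0) (hv : ∀ x ∈ W, x *ᵥ v = 0) : ∀ x ∈ W, x = 0 := by
  let K : Submodule ℂ (ι → ℂ) :=
    { carrier := {v | ∀ x ∈ W, x *ᵥ v = 0}
      zero_mem' := fun x _ => Matrix.mulVec_zero x
      add_mem' := fun {a b} ha hb x hx => by rw [Matrix.mulVec_add, ha x hx, hb x hx, add_zero]
      smul_mem' := fun c a ha x hx => by rw [Matrix.mulVec_smul, ha x hx, smul_zero] }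
  have hK : ∀ v, v ∈ K ↔ ∀ x ∈ W, x *ᵥ v = 0 := fun v => Iff.rfl
  have h1 := hg ⊤ inferInstance K (by
    intro γ _ w hw
    rw [hK] at hw ⊢
    intro x hx
    have h2 := hw _ (hW.inv γ hx)
    have h3 : x *ᵥ (g γ *ᵥ w) = g γ *ᵥ ((g γ⁻¹ * x * g γ) *ᵥ w) := by
      rw [Matrix.mulVec_mulVec, Matrix.mulVec_mulVec, ← Matrix.mul_assoc, ← Matrix.mul_assoc,
        g_inv, Matrix.one_mul]
    rw [h3, h2, Matrix.mulVec_zero])
  rcases h1 with h1 | h1
  · exfalso
    have : v ∈ K := hv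
    rw [h1] at this
    exact hv0 (by simpa using this)
  · intro x hx
    ext i j
    have : (Pi.single j 1 : ι → ℂ) ∈ K := by rw [h1]; trivial
    have h2 := congrFun (this x hx) i
    simpa using h2

/-- a stable algebra has nondegenerate trace form -/
theorem nd_of_stb [Nonempty ι] (hg : SIrr g) {A : Subalgebra ℂ (Matrix ι ι ℂ)}
    (hA : Stb g A.toSubmodule) : ND A.toSubmodule := by
  let J : Submodule ℂ (Matrix ι ι ℂ) :=
    { carrier := {x | x ∈ A ∧ ∀ y ∈ A, (x * y).trace = 0}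
      zero_mem' := ⟨A.zero_mem, fun y _ => by rw [Matrix.zero_mul, Matrix.trace_zero]⟩
      add_mem' := fun {a b} ha hb => ⟨A.add_mem ha.1 hb.1, fun y hy => by
        rw [Matrix.add_mul, Matrix.trace_add, ha.2 y hy, hb.2 y hy, add_zero]⟩
      smul_mem' := fun c a ha => ⟨A.smul_mem ha.1 c, fun y hy => by
        rw [Matrix.smul_mul, Matrix.trace_smul, ha.2 y hy, smul_zero]⟩ }
  have hJ : ∀ x, x ∈ J ↔ x ∈ A ∧ ∀ y ∈ A, (x * y).trace = 0 := fun x => Iff.rfl
  have hmul : ∀ x ∈ J, ∀ y ∈ A, x * y ∈ J := by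
    intro x hx y hy
    exact ⟨A.mul_mem hx.1 hy, fun z hz => by rw [Matrix.mul_assoc]; exact hx.2 _ (A.mul_mem hy hz)⟩
  have hnil : ∀ x ∈ J, IsNilpotent x := by
    intro x hx
    obtain ⟨R, hR⟩ := exists_rep (starRingEnd ℂ) x
    obtain ⟨r, -, h2, h3⟩ := tr_rep hR
    apply h3
    have h4 := hx.2 _ (aeval_memB hx.1 R)
    rw [h2] at h4
    exact_mod_cast h4
  obtain ⟨v, hv0, hv⟩ := engel J (fun x hx y hy => J.sub_mem (hmul x hx y hy.1)
    (hmul y hy x hx.1)) hnil
  have hst : Stb g J := by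
    intro γ x hx
    refine ⟨hA γ x hx.1, fun y hy => ?_⟩
    rw [tr_conjc]
    exact hx.2 _ (hA.inv γ hy)
  intro x hx hxx
  exact zero_of_ker hg hst hv0 hv x ⟨hx, hxx⟩

theorem finite_idem (A : Subalgebra ℂ (Matrix ι ι ℂ)) (hc : ∀ a ∈ A, ∀ b ∈ A, a * b = b * a) :
    Finite {e : Matrix ι ι ℂ // e ∈ A ∧ e * e = e} := by
  letI : CommRing A := { (inferInstance : Ring A) with
    mul_comm := fun a b => Subtype.ext (hc a a.2 b b.2) }
  haveI : IsArtinianRing A := IsArtinianRing.of_finite ℂ A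
  haveI : Finite (TopologicalSpace.Clopens (PrimeSpectrum A)) :=
    Finite.of_injective (fun s => (s : Set (PrimeSpectrum A))) SetLike.coe_injective
  haveI : Finite {e : A // IsIdempotentElem e} :=
    Finite.of_equiv _ PrimeSpectrum.isIdempotentElemEquivClopens.toEquiv.symm
  refine Finite.of_injective (β := {e : A // IsIdempotentElem e})
    (fun e => ⟨⟨e.1, e.2.1⟩, Subtype.ext e.2.2⟩) ?_
  intro e f hef
  apply Subtype.ext
  exact congrArg (fun t => ((t.1 : A) : Matrix ι ι ℂ)) hef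

theorem idem_comm (hg : SIrr g) {A : Subalgebra ℂ (Matrix ι ι ℂ)}
    (hA : Stb g A.toSubmodule) (hc : ∀ a ∈ A, ∀ b ∈ A, a * b = b * a) : TI A := by
  intro e he hee
  haveI := finite_idem A hc
  let X := {e : Matrix ι ι ℂ // e ∈ A ∧ e * e = e}
  letI : MulAction Γ X :=
    { smul := fun γ x => ⟨g γ * x.1 * g γ⁻¹, hA γ x.1 x.2.1, by rw [conj_mulc, x.2.2]⟩
      one_smul := fun x => Subtype.ext (by
        change g 1 * x.1 * g 1⁻¹ = x.1
        rw [inv_one, map_one, Matrix.one_mul, Matrix.mul_one])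
      mul_smul := fun γ δ x => Subtype.ext (by
        change g (γ * δ) * x.1 * g (γ * δ)⁻¹ = g γ * (g δ * x.1 * g δ⁻¹) * g γ⁻¹
        rw [_root_.mul_inv_rev, map_mul, map_mul]
        simp only [Matrix.mul_assoc]) }
  let x : X := ⟨e, he, hee⟩
  haveI : Finite (Γ ⧸ MulAction.stabilizer Γ x) :=
    Finite.of_equiv _ (MulAction.orbitEquivQuotientStabilizer Γ x)
  have hfi : (MulAction.stabilizer Γ x).FiniteIndex := Subgroup.finiteIndex_of_finite_quotient
  have h1 := hg (MulAction.stabilizer Γ x) hfi (LinearMap.range (Matrix.toLin' e)) (by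
    rintro γ hγ _ ⟨w, rfl⟩
    rw [MulAction.mem_stabilizer_iff] at hγ
    have h2 : g γ * e * g γ⁻¹ = e := congrArg Subtype.val hγ
    have h3 : g γ * e = e * g γ := by
      calc g γ * e = g γ * e * (g γ⁻¹ * g γ) := by rw [g_inv', Matrix.mul_one]
        _ = e * g γ := by rw [← Matrix.mul_assoc, h2]
    refine ⟨g γ *ᵥ w, ?_⟩
    rw [Matrix.toLin'_apply, Matrix.toLin'_apply, Matrix.mulVec_mulVec, Matrix.mulVec_mulVec, h3])
  rcases h1 with h1 | h1
  · left
    rw [LinearMap.range_eq_bot] at h1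
    exact (Matrix.toLin' (R := ℂ)).injective (by rw [h1, map_zero])
  · right
    apply (Matrix.toLin' (R := ℂ)).injective
    rw [Matrix.toLin'_one]
    ext1 i
    apply LinearMap.ext
    intro c
    obtain ⟨w, hw⟩ : (LinearMap.single ℂ (fun _ : ι => ℂ) i) c ∈
      LinearMap.range (Matrix.toLin' e) := by rw [h1]; trivial
    rw [LinearMap.comp_apply, LinearMap.comp_apply, LinearMap.id_apply, ← hw, Matrix.toLin'_apply,
      Matrix.toLin'_apply, Matrix.mulVec_mulVec, hee]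

/-- a stable commutative algebra is the algebra of scalars -/
theorem comm_scalar [Nonempty ι] (hg : SIrr g) {A : Subalgebra ℂ (Matrix ι ι ℂ)}
    (hA : Stb g A.toSubmodule) (hc : ∀ a ∈ A, ∀ b ∈ A, a * b = b * a) {a : Matrix ι ι ℂ}
    (ha : a ∈ A) : ∃ c : ℂ, a = c • (1 : Matrix ι ι ℂ) :=
  loc (nd_of_stb hg hA) (idem_comm hg hA hc) ha

theorem tr_idem {e : Matrix ι ι ℂ} (he : e * e = e) :
    ∃ m : ℕ, m ≤ Fintype.card ι ∧ e.trace = m ∧ (m = 0 → e = 0) ∧
      (m = Fintype.card ι → e = 1) := by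
  let f := Matrix.toLin' e
  have hf : ∀ v, f (f v) = f v := by
    intro v
    change Matrix.toLin' e (Matrix.toLin' e v) = Matrix.toLin' e v
    rw [Matrix.toLin'_apply, Matrix.toLin'_apply, Matrix.mulVec_mulVec, he]
  have hp : LinearMap.IsProj (LinearMap.range f) f :=
    ⟨fun x => ⟨x, rfl⟩, by rintro _ ⟨w, rfl⟩; exact hf w⟩
  have h1 := hp.trace
  refine ⟨finrank ℂ (LinearMap.range f), ?_, ?_, ?_, ?_⟩
  · have := Submodule.finrank_le (LinearMap.range f)
    rwa [Module.finrank_fintype_fun_eq_card] at this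
  · rw [← h1]
    exact (Matrix.trace_toLin'_eq e).symm
  · intro h0
    rw [Submodule.finrank_eq_zero, LinearMap.range_eq_bot] at h0
    exact (Matrix.toLin' (R := ℂ)).injective (by rw [map_zero]; exact h0)
  · intro h0
    have h2 : LinearMap.range f = ⊤ := by
      apply Submodule.eq_top_of_finrank_eq
      rw [h0, Module.finrank_fintype_fun_eq_card]
    apply (Matrix.toLin' (R := ℂ)).injective
    rw [Matrix.toLin'_one]
    ext1 i
    apply LinearMap.ext
    intro c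
    obtain ⟨w, hw⟩ : (LinearMap.single ℂ (fun _ : ι => ℂ) i) c ∈ LinearMap.range f := by
      rw [h2]; trivial
    rw [LinearMap.comp_apply, LinearMap.comp_apply, LinearMap.id_apply, ← hw]
    exact hf w

/-- the commutant is trivial -/
theorem com_scalar [Nonempty ι] (hg : SIrr g) {S : Submodule ℂ (Matrix ι ι ℂ)} (hS : Stb g S)
    {P : Matrix ι ι ℂ} (hP : P * P = P) (hPc : ∀ c, (∀ s ∈ S, s * c = c * s) → P * c = c * P)
    {p : ℕ} (hp : P.trace = p) (hcop : Nat.Coprime p (Fintype.card ι)) :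
    ∀ c, (∀ s ∈ S, s * c = c * s) → ∃ z : ℂ, c = z • (1 : Matrix ι ι ℂ) := by
  let C : Subalgebra ℂ (Matrix ι ι ℂ) := Subalgebra.centralizer ℂ (S : Set (Matrix ι ι ℂ))
  have hC : ∀ c, c ∈ C ↔ ∀ s ∈ S, s * c = c * s := fun c => Subalgebra.mem_centralizer_iff ℂ
  have hCs : Stb g C.toSubmodule := by
    intro γ c hc
    rw [Subalgebra.mem_toSubmodule, hC] at hc ⊢
    intro s hs
    have h1 := hc _ (hS.inv γ hs)
    calc s * (g γ * c * g γ⁻¹) = (g γ * g γ⁻¹) * s * g γ * c * g γ⁻¹ := by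
          rw [g_inv, Matrix.one_mul]; simp only [Matrix.mul_assoc]
      _ = g γ * (g γ⁻¹ * s * g γ * c) * g γ⁻¹ := by simp only [Matrix.mul_assoc]
      _ = g γ * (c * (g γ⁻¹ * s * g γ)) * g γ⁻¹ := by rw [h1]
      _ = g γ * c * g γ⁻¹ * s * (g γ * g γ⁻¹) := by simp only [Matrix.mul_assoc]
      _ = _ := by rw [g_inv, Matrix.mul_one]
  have hCn := nd_of_stb hg hCs
  let Z : Subalgebra ℂ (Matrix ι ι ℂ) := C ⊓ cm C
  have hZ : ∀ z, z ∈ Z ↔ z ∈ C ∧ ∀ c ∈ C, c * z = z * c := fun z => by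
    rw [Algebra.mem_inf, mem_cm]
  have hZs : Stb g Z.toSubmodule := by
    intro γ z hz
    rw [Subalgebra.mem_toSubmodule, hZ] at hz ⊢
    refine ⟨hCs γ z hz.1, fun c hc => ?_⟩
    have h1 := hz.2 _ (hCs.inv γ hc)
    calc c * (g γ * z * g γ⁻¹) = (g γ * g γ⁻¹) * c * g γ * z * g γ⁻¹ := by
          rw [g_inv, Matrix.one_mul]; simp only [Matrix.mul_assoc]
      _ = g γ * (g γ⁻¹ * c * g γ * z) * g γ⁻¹ := by simp only [Matrix.mul_assoc]
      _ = g γ * (z * (g γ⁻¹ * c * g γ)) * g γ⁻¹ := by rw [h1]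
      _ = g γ * z * g γ⁻¹ * c * (g γ * g γ⁻¹) := by simp only [Matrix.mul_assoc]
      _ = _ := by rw [g_inv, Matrix.mul_one]
  obtain ⟨π, hπ1, hπ2, hπ3⟩ := hCn.proj
  have hz0 : π P ∈ Z := by
    rw [hZ]
    refine ⟨hπ1 P, fun c hc => ?_⟩
    rw [← sub_eq_zero]
    apply hCn _ (C.sub_mem (C.mul_mem hc (hπ1 P)) (C.mul_mem (hπ1 P) hc))
    intro y hy
    have hy' : y ∈ C := hy
    have hcP := hPc c ((hC c).1 hc)
    rw [Matrix.sub_mul, Matrix.trace_sub]
    have e1 : (c * π P * y).trace = (P * (y * c)).trace := by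
      rw [← hπ2 P (y * c) (C.mul_mem hy' hc), Matrix.mul_assoc, Matrix.trace_mul_comm,
        Matrix.mul_assoc]
    have e2 : (π P * c * y).trace = (P * (c * y)).trace := by
      rw [← hπ2 P (c * y) (C.mul_mem hc hy'), Matrix.mul_assoc]
    rw [e1, e2, sub_eq_zero, ← Matrix.mul_assoc, Matrix.trace_mul_comm, ← Matrix.mul_assoc, ← hcP,
      Matrix.mul_assoc]
  obtain ⟨ρ, hρ⟩ := comm_scalar hg hZs
    (fun a ha b hb => ((hZ b).1 hb).2 a ((hZ a).1 ha).1) hz0
  have htr : ∀ c ∈ C, (P * c).trace = ρ * c.trace := by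
    intro c hc
    rw [← hπ2 P c hc, hρ, Matrix.smul_mul, Matrix.one_mul, Matrix.trace_smul, smul_eq_mul]
  have hpn : (p : ℂ) = ρ * Fintype.card ι := by
    have := htr 1 C.one_mem
    rwa [Matrix.mul_one, hp, Matrix.trace_one] at this
  have hTI : TI C := by
    intro e he hee
    obtain ⟨m, hm1, hm2, hm3, hm4⟩ := tr_idem hee
    have hPe : P * e * (P * e) = P * e := by
      have hcP := hPc e ((hC e).1 he)
      calc P * e * (P * e) = P * (e * P) * e := by simp only [Matrix.mul_assoc]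
        _ = P * (P * e) * e := by rw [hcP]
        _ = (P * P) * (e * e) := by simp only [Matrix.mul_assoc]
        _ = P * e := by rw [hP, hee]
    obtain ⟨m', -, hm2', -, -⟩ := tr_idem hPe
    have h1 := htr e he
    rw [hm2, hm2'] at h1
    have h2 : (Fintype.card ι : ℂ) * m' = p * m := by rw [h1, hpn]; ring
    have h3 : Fintype.card ι * m' = p * m := by exact_mod_cast h2
    have h4 : Fintype.card ι ∣ m :=
      (Nat.Coprime.dvd_of_dvd_mul_left hcop.symm (Dvd.intro _ h3))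
    rcases Nat.eq_zero_or_pos m with h5 | h5
    · exact Or.inl (hm3 h5)
    · exact Or.inr (hm4 (le_antisymm hm1 (Nat.le_of_dvd h5 h4)))
  intro c hc
  exact loc hCn hTI ((hC c).2 hc)

/-- the trace form is nondegenerate on a stable Lie algebra -/
theorem lie_nd [Nonempty ι] (hg : SIrr g) {h : Submodule ℂ (Matrix ι ι ℂ)} (hst : Stb g h)
    (hbr : ∀ x ∈ h, ∀ y ∈ h, x * y - y * x ∈ h) (htr : ∀ x ∈ h, x.trace = 0) : ND h := by
  let r : Submodule ℂ (Matrix ι ι ℂ) :=
    { carrier := {x | x ∈ h ∧ ∀ y ∈ h, (x * y).trace = 0}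
      zero_mem' := ⟨h.zero_mem, fun y _ => by rw [Matrix.zero_mul, Matrix.trace_zero]⟩
      add_mem' := fun {a b} ha hb => ⟨h.add_mem ha.1 hb.1, fun y hy => by
        rw [Matrix.add_mul, Matrix.trace_add, ha.2 y hy, hb.2 y hy, add_zero]⟩
      smul_mem' := fun c a ha => ⟨h.smul_mem c ha.1, fun y hy => by
        rw [Matrix.smul_mul, Matrix.trace_smul, ha.2 y hy, smul_zero]⟩ }
  have hr : ∀ x, x ∈ r ↔ x ∈ h ∧ ∀ y ∈ h, (x * y).trace = 0 := fun x => Iff.rfl
  have hid : ∀ x ∈ h, ∀ y ∈ r, x * y - y * x ∈ r := by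
    intro x hx y hy
    refine ⟨hbr x hx y hy.1, fun z hz => ?_⟩
    have h1 := hy.2 _ (hbr z hz x hx)
    rw [Matrix.mul_sub, Matrix.trace_sub] at h1
    rw [Matrix.sub_mul, Matrix.trace_sub, ← h1]
    congr 1
    · rw [Matrix.mul_assoc, Matrix.trace_mul_comm, Matrix.mul_assoc]
    · rw [Matrix.mul_assoc]
  have hrst : Stb g r := by
    intro γ x hx
    refine ⟨hst γ x hx.1, fun y hy => ?_⟩
    rw [tr_conjc]
    exact hx.2 _ (hst.inv γ hy)
  let N : Submodule ℂ (Matrix ι ι ℂ) :=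
    Submodule.span ℂ {z | ∃ x ∈ r, ∃ y ∈ r, z = x * y - y * x}
  have hNr : N ≤ r := Submodule.span_le.2 (by
    rintro _ ⟨x, hx, y, hy, rfl⟩
    exact hid x hx.1 y hy)
  have hNnil : ∀ x ∈ N, IsNilpotent x := by
    intro x hx
    obtain ⟨R, hR⟩ := exists_rep (starRingEnd ℂ) x
    obtain ⟨s, -, h2, h3⟩ := tr_rep hR
    have h4 := ad_repM hR r (fun Y hY => hid x (hNr hx).1 Y hY)
    set y := aeval x R with hy
    have h5 : ∀ z ∈ N, (z * y).trace = 0 := by
      intro z hz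
      induction hz using Submodule.span_induction with
      | mem z hz =>
        obtain ⟨a, ha, b, hb, rfl⟩ := hz
        have h6 := ha.2 _ (h4 b hb).1
        rw [Matrix.mul_sub, Matrix.trace_sub] at h6
        rw [Matrix.sub_mul, Matrix.trace_sub]
        have e1 : (a * b * y).trace = (a * (b * y)).trace := by rw [Matrix.mul_assoc]
        have e2 : (b * a * y).trace = (a * (y * b)).trace := by
          rw [Matrix.mul_assoc, Matrix.trace_mul_comm, Matrix.mul_assoc]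
        rw [e1, e2]
        linear_combination -h6
      | zero => rw [Matrix.zero_mul, Matrix.trace_zero]
      | add a b _ _ ha hb => rw [Matrix.add_mul, Matrix.trace_add, ha, hb, add_zero]
      | smul c a _ ha => rw [Matrix.smul_mul, Matrix.trace_smul, ha, smul_zero]
    apply h3
    have h6 := h5 x hx
    rw [h2] at h6
    exact_mod_cast h6
  have hNst : Stb g N := by
    intro γ x hx
    induction hx using Submodule.span_induction with
    | mem z hz =>
      obtain ⟨a, ha, b, hb, rfl⟩ := hz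
      apply Submodule.subset_span
      refine ⟨_, hrst γ a ha, _, hrst γ b hb, ?_⟩
      rw [conj_mulc, conj_mulc, Matrix.mul_sub, Matrix.sub_mul]
    | zero => rw [Matrix.mul_zero, Matrix.zero_mul]; exact N.zero_mem
    | add a b _ _ ha hb => rw [Matrix.mul_add, Matrix.add_mul]; exact N.add_mem ha hb
    | smul c a _ ha => rw [Matrix.mul_smul, Matrix.smul_mul]; exact N.smul_mem c ha
  obtain ⟨v, hv0, hv⟩ := engel N (fun x hx y hy => Submodule.subset_span
    ⟨x, hNr hx, y, hNr hy, rfl⟩) hNnil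
  have hN0 := zero_of_ker hg hNst hv0 hv
  have hrc : ∀ x ∈ r, ∀ y ∈ r, x * y = y * x := fun x hx y hy =>
    sub_eq_zero.1 (hN0 _ (Submodule.subset_span ⟨x, hx, y, hy, rfl⟩))
  let A : Subalgebra ℂ (Matrix ι ι ℂ) := Algebra.adjoin ℂ (r : Set (Matrix ι ι ℂ))
  have hAc : ∀ a ∈ A, ∀ b ∈ A, a * b = b * a := by
    have h1 : ∀ a ∈ A, ∀ y ∈ r, a * y = y * a := by
      intro a ha y hy
      induction ha using Algebra.adjoin_induction with
      | mem x hx => exact hrc x hx y hy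
      | algebraMap c => exact Algebra.commutes c y
      | add a b _ _ ha hb => rw [add_mul, mul_add, ha, hb]
      | mul a b _ _ ha hb => rw [mul_assoc, hb, ← mul_assoc, ha, mul_assoc]
    intro a ha b hb
    induction hb using Algebra.adjoin_induction with
    | mem x hx => exact h1 a ha x hx
    | algebraMap c => exact (Algebra.commutes c a).symm
    | add b b' _ _ hb hb' => rw [add_mul, mul_add, hb, hb']
    | mul b b' _ _ hb hb' => rw [← mul_assoc, hb, mul_assoc, hb', mul_assoc]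
  have hAst : Stb g A.toSubmodule := by
    intro γ a ha
    have ha' : a ∈ A := ha
    change g γ * a * g γ⁻¹ ∈ A
    induction ha' using Algebra.adjoin_induction with
    | mem x hx => exact Algebra.subset_adjoin (hrst γ x hx)
    | algebraMap c =>
      rw [← Algebra.commutes c, mul_assoc, g_inv, mul_one]
      exact A.algebraMap_mem c
    | add b b' hb hb' h1 h2 =>
      rw [mul_add, add_mul]
      exact A.add_mem (h1 hb) (h2 hb')
    | mul b b' hb hb' h1 h2 =>
      rw [← conj_mulc]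
      exact A.mul_mem (h1 hb) (h2 hb')
  intro x hx hxx
  obtain ⟨c, hc⟩ := comm_scalar hg hAst hAc (Algebra.subset_adjoin (show x ∈ r from ⟨hx, hxx⟩))
  have h1 := htr x hx
  rw [hc, Matrix.trace_smul, Matrix.trace_one, smul_eq_mul, mul_eq_zero, Nat.cast_eq_zero] at h1
  rcases h1 with h1 | h1
  · rw [hc, h1, zero_smul]
  · exact absurd h1 Fintype.card_ne_zero

/-- the Lie algebra contains its replicas -/
theorem rep_mem [Nonempty ι] {h : Submodule ℂ (Matrix ι ι ℂ)} (hnd : ND h)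
    (hbr : ∀ x ∈ h, ∀ y ∈ h, x * y - y * x ∈ h) (htr : ∀ x ∈ h, x.trace = 0)
    (hc : ∀ c, (∀ s ∈ h, s * c = c * s) → ∃ z : ℂ, c = z • (1 : Matrix ι ι ℂ))
    {x : Matrix ι ι ℂ} (hx : x ∈ h) {R : ℂ[X]} (hR : Rm R x) : aeval x R ∈ h := by
  obtain ⟨π, hπ1, hπ2, hπ3⟩ := hnd.proj
  have h4 := ad_repM hR h (fun Y hY => hbr x hx Y hY)
  have h5 := tr_conj hR
  rw [htr x hx, map_zero] at h5
  set y := aeval x R with hy
  obtain ⟨z, hz⟩ := hc (y - π y) (by
    intro s hs
    rw [← sub_eq_zero]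
    have e1 : s * (y - π y) - (y - π y) * s = (π y * s - s * π y) - (y * s - s * y) := by
      rw [mul_sub, sub_mul]; abel
    apply hnd
    · rw [e1]
      exact h.sub_mem (hbr _ (hπ1 y) s hs) (h4 s hs)
    · intro t ht
      have h6 := hπ2 y _ (hbr t ht s hs)
      rw [Matrix.mul_sub, Matrix.mul_sub, Matrix.trace_sub, Matrix.trace_sub] at h6
      rw [e1, Matrix.sub_mul, Matrix.sub_mul, Matrix.sub_mul, Matrix.trace_sub, Matrix.trace_sub,
        Matrix.trace_sub]
      have f1 : ∀ w : Matrix ι ι ℂ, (w * s * t).trace = (w * (s * t)).trace := fun w => by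
        rw [Matrix.mul_assoc]
      have f2 : ∀ w : Matrix ι ι ℂ, (s * w * t).trace = (w * (t * s)).trace := fun w => by
        rw [Matrix.mul_assoc, Matrix.trace_mul_comm, Matrix.mul_assoc]
      rw [f1, f1, f2, f2]
      linear_combination -h6)
  have h7 : y = π y + z • 1 := by rw [← hz]; abel
  have h8 := congrArg Matrix.trace h7
  rw [h5, Matrix.trace_add, htr _ (hπ1 y), zero_add, Matrix.trace_smul, Matrix.trace_one,
    smul_eq_mul] at h8
  have h9 : z = 0 := by
    rcases mul_eq_zero.1 h8.symm with h | h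
    · exact h
    · exact absurd (Nat.cast_eq_zero.1 h) Fintype.card_ne_zero
  rw [h7, h9, zero_smul, add_zero]
  exact hπ1 y

/-- the space is irreducible under the Lie algebra -/
theorem lie_irr [Nonempty ι] (hg : SIrr g) {h : Submodule ℂ (Matrix ι ι ℂ)} (hst : Stb g h)
    (hc : ∀ c, (∀ s ∈ h, s * c = c * s) → ∃ z : ℂ, c = z • (1 : Matrix ι ι ℂ))
    (W : Submodule ℂ (ι → ℂ)) (hW : ∀ x ∈ h, ∀ w ∈ W, x *ᵥ w ∈ W) : W = ⊥ ∨ W = ⊤ := by
  let A : Subalgebra ℂ (Matrix ι ι ℂ) := Algebra.adjoin ℂ (h : Set (Matrix ι ι ℂ))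
  have hAst : Stb g A.toSubmodule := by
    intro γ a ha
    have ha' : a ∈ A := ha
    change g γ * a * g γ⁻¹ ∈ A
    induction ha' using Algebra.adjoin_induction with
    | mem x hx => exact Algebra.subset_adjoin (hst γ x hx)
    | algebraMap c =>
      rw [← Algebra.commutes c, mul_assoc, g_inv, mul_one]
      exact A.algebraMap_mem c
    | add b b' hb hb' h1 h2 =>
      rw [mul_add, add_mul]
      exact A.add_mem (h1 hb) (h2 hb')
    | mul b b' hb hb' h1 h2 =>
      rw [← conj_mulc]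
      exact A.mul_mem (h1 hb) (h2 hb')
  have hfull := full (nd_of_stb hg hAst) (fun c hcc => hc c fun s hs =>
    hcc s (Algebra.subset_adjoin hs))
  have hAW : ∀ a ∈ A, ∀ w ∈ W, a *ᵥ w ∈ W := by
    intro a ha
    induction ha using Algebra.adjoin_induction with
    | mem x hx => exact hW x hx
    | algebraMap c =>
      intro w hw
      rw [Algebra.algebraMap_eq_smul_one, Matrix.smul_mulVec, Matrix.one_mulVec]
      exact W.smul_mem c hw
    | add b b' hb hb' h1 h2 =>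
      intro w hw
      rw [Matrix.add_mulVec]
      exact W.add_mem (h1 w hw) (h2 w hw)
    | mul b b' hb hb' h1 h2 =>
      intro w hw
      rw [← Matrix.mulVec_mulVec]
      exact h1 _ (h2 w hw)
  by_cases h0 : W = ⊥
  · exact Or.inl h0
  right
  obtain ⟨w, hw, hw0⟩ := Submodule.exists_mem_ne_zero_of_ne_bot h0
  obtain ⟨i, hi⟩ : ∃ i, w i ≠ 0 := by
    by_contra hcon
    push Not at hcon
    exact hw0 (funext hcon)
  rw [eq_top_iff]
  intro u _
  have h1 := hAW _ (hfull (Matrix.vecMulVec u (Pi.single i (w i)⁻¹))) w hw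
  rw [Matrix.vecMulVec_mulVec] at h1
  have h2 : (Pi.single i (w i)⁻¹ : ι → ℂ) ⬝ᵥ w = 1 := by
    rw [single_dotProduct, inv_mul_cancel₀ hi]
  rw [h2] at h1
  simpa using h1

end

end Pool.Agent.Y95.ZL
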