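import Pool.Agent.Y95.ZL.Zr

/-!
# Ideals in degree zero
-/

open Finset Module Polynomial Matrix
open Pool.Agent.W544.PG Pool.Agent.W216.PG

namespace Pool.Agent.Y95.ZL

noncomputable section

variable {p q : ℕ} (G : Zr p q)

theorem mul_eq_zero_of_spans {l m n : ℕ} {A : Matrix (Fin l) (Fin m) ℂ}
    {S : Set (Fin m → ℂ)} (hS : Submodule.span ℂ S = ⊤) (h : ∀ v ∈ S, A *ᵥ v = 0) : A = 0 := by
  have h1 : ∀ v ∈ Submodule.span ℂ S, A *ᵥ v = 0 := by
    intro v hv
    induction hv using Submodule.span_induction with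
    | mem z hz => exact h z hz
    | zero => rw [Matrix.mulVec_zero]
    | add a b _ _ ha hb => rw [Matrix.mulVec_add, ha, hb, add_zero]
    | smul c a _ ha => rw [Matrix.mulVec_smul, ha, smul_zero]
  rw [hS] at h1
  ext i j
  have := congrFun (h1 (Pi.single j 1) trivial) i
  simpa using this

/-- the operators of degree one carry a stable subspace onto `V_1` -/
theorem Zr.onto (W : Submodule ℂ (Fin q → ℂ)) (hW : ∀ X ∈ G.h0, ∀ w ∈ W, X.2 *ᵥ w ∈ W)
    {w : Fin q → ℂ} (hw : w ∈ W) (hw0 : w ≠ 0) :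
    Submodule.span ℂ {z : Fin p → ℂ | ∃ F ∈ G.h1, ∃ w ∈ W, z = F *ᵥ w} = ⊤ := by
  have h1 := G.irrA (Submodule.span ℂ {z : Fin p → ℂ | ∃ F ∈ G.h1, ∃ w ∈ W, z = F *ᵥ w}) (by
    intro X hX z hz
    induction hz using Submodule.span_induction with
    | mem z hz =>
      obtain ⟨F, hF, w, hw, rfl⟩ := hz
      have h3 : X.1 *ᵥ (F *ᵥ w) = (X.1 * F - F * X.2) *ᵥ w + F *ᵥ (X.2 *ᵥ w) := by
        rw [Matrix.sub_mulVec, Matrix.mulVec_mulVec, Matrix.mulVec_mulVec]
        abel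
      rw [h3]
      exact Submodule.add_mem _ (Submodule.subset_span ⟨_, G.b01 X hX F hF, w, hw, rfl⟩)
        (Submodule.subset_span ⟨F, hF, _, hW X hX w hw, rfl⟩)
    | zero => rw [Matrix.mulVec_zero]; exact Submodule.zero_mem _
    | add a b _ _ ha hb => rw [Matrix.mulVec_add]; exact Submodule.add_mem _ ha hb
    | smul c a _ ha => rw [Matrix.mulVec_smul]; exact Submodule.smul_mem _ c ha)
  rcases h1 with h1 | h1
  · exfalso
    apply hw0
    apply G.kerB
    intro F hF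
    have h2 : F *ᵥ w ∈ Submodule.span ℂ {z : Fin p → ℂ | ∃ F ∈ G.h1, ∃ w ∈ W, z = F *ᵥ w} :=
      Submodule.subset_span ⟨F, hF, w, hw, rfl⟩
    rw [h1, Submodule.mem_bot] at h2
    exact h2
  · exact h1

/-- right cancellation of the operators of degree minus one -/
theorem Zr.cancel {m : ℕ} {A : Matrix (Fin m) (Fin q) ℂ} (h : ∀ F ∈ G.hm, A * F = 0) : A = 0 := by
  have h1 : ∀ v, Aᵀ *ᵥ v = 0 := by
    intro v
    apply G.kerB'
    intro F hF
    rw [Matrix.mulVec_mulVec, ← Matrix.transpose_mul, h F hF, Matrix.transpose_zero,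
      Matrix.zero_mulVec]
  ext i j
  have := congrFun (h1 (Pi.single i 1)) j
  simpa using this

/-- left cancellation of the operators of degree one -/
theorem Zr.cancel' {m : ℕ} {A : Matrix (Fin q) (Fin m) ℂ} (h : ∀ F ∈ G.h1, F * A = 0) : A = 0 := by
  have h1 : ∀ v, A *ᵥ v = 0 := by
    intro v
    apply G.kerB
    intro F hF
    rw [Matrix.mulVec_mulVec, h F hF, Matrix.zero_mulVec]
  ext i j
  have := congrFun (h1 (Pi.single j 1)) i
  simpa using this

/-- An ideal of the degree zero part which acts as zero on `V_1` and kills a vector of `V_0`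
is zero. -/
theorem Zr.ideal (s : Submodule ℂ (Matrix (Fin q) (Fin q) ℂ))
    (hs : ∀ k ∈ s, ((0, k) : Matrix (Fin p) (Fin p) ℂ × Matrix (Fin q) (Fin q) ℂ) ∈ G.h0)
    (hid : ∀ X ∈ G.h0, ∀ k ∈ s, X.2 * k - k * X.2 ∈ s) {v : Fin q → ℂ} (hv0 : v ≠ 0)
    (hv : ∀ k ∈ s, k *ᵥ v = 0) : ∀ k ∈ s, k = 0 := by
  let W : Submodule ℂ (Fin q → ℂ) :=
    { carrier := {v | ∀ k ∈ s, k *ᵥ v = 0}
      zero_mem' := fun x _ => Matrix.mulVec_zero x
      add_mem' := fun {a b} ha hb x hx => by rw [Matrix.mulVec_add, ha x hx, hb x hx, add_zero]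
      smul_mem' := fun c a ha x hx => by rw [Matrix.mulVec_smul, ha x hx, smul_zero] }
  have hW : ∀ v, v ∈ W ↔ ∀ k ∈ s, k *ᵥ v = 0 := fun v => Iff.rfl
  have hWs : ∀ X ∈ G.h0, ∀ w ∈ W, X.2 *ᵥ w ∈ W := by
    intro X hX w hw k hk
    have h1 := hw _ (hid X hX k hk)
    rw [Matrix.sub_mulVec, ← Matrix.mulVec_mulVec, hw k hk, Matrix.mulVec_zero, zero_sub,
      neg_eq_zero, ← Matrix.mulVec_mulVec] at h1
    exact h1
  have hon := G.onto W hWs (w := v) hv hv0
  have hkk : ∀ k' ∈ s, ∀ k ∈ s, k' * k = 0 := by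
    intro k' hk' k hk
    apply G.cancel
    intro F' hF'
    apply mul_eq_zero_of_spans (n := 0) hon
    rintro _ ⟨F, hF, w, hw, rfl⟩
    have h1 : k * F' ∈ G.hm := by
      have := G.b0m _ (hs k hk) F' hF'
      simpa using this
    have h2 := hWs _ (G.b1m F hF _ h1) w hw
    have hkt : kᵀ = -k := G.skew0 _ (hs k hk)
    have h3 : ((k * F' * F)ᵀ - k * F' * F) *ᵥ w = -(k *ᵥ (F' *ᵥ (F *ᵥ w))) := by
      rw [Matrix.sub_mulVec, Matrix.mul_assoc, Matrix.transpose_mul, hkt, Matrix.mul_neg,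
        Matrix.neg_mulVec, ← Matrix.mulVec_mulVec w _ k, hw k hk, Matrix.mulVec_zero, neg_zero,
        zero_sub, ← Matrix.mulVec_mulVec, ← Matrix.mulVec_mulVec]
    change ((k * F' * F)ᵀ - k * F' * F) *ᵥ w ∈ W at h2
    rw [h3] at h2
    have h4 := h2 k' hk'
    rw [Matrix.mulVec_neg, neg_eq_zero] at h4
    rw [← Matrix.mulVec_mulVec, ← Matrix.mulVec_mulVec]
    exact h4
  intro k hk
  have h0 : ((0, k) : Matrix (Fin p) (Fin p) ℂ × Matrix (Fin q) (Fin q) ℂ) = 0 := by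
    apply G.nd0 _ (hs k hk)
    intro X hX
    have h1 := hkk k hk _ (hid X hX k hk)
    rw [Matrix.mul_sub, ← Matrix.mul_assoc, ← Matrix.mul_assoc, hkk k hk k hk, Matrix.zero_mul,
      sub_zero] at h1
    have h2 : IsNilpotent (k * X.2) := by
      refine ⟨2, ?_⟩
      rw [pow_two, ← Matrix.mul_assoc, h1, Matrix.zero_mul]
    change 2 * ((0 : Matrix (Fin p) (Fin p) ℂ) * X.1).trace + (k * X.2).trace = 0
    rw [Matrix.zero_mul, Matrix.trace_zero, mul_zero, zero_add]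
    exact tr_nil h2
  exact congrArg Prod.snd h0

/-- the eigenvalues of the partial trace form are nonnegative real numbers -/
theorem Zr.eig (hp : 0 < p) {μ : ℂ} {x : Matrix (Fin p) (Fin p) ℂ × Matrix (Fin q) (Fin q) ℂ}
    (hx : x ∈ G.h0) (hx0 : x ≠ 0) (hxx : ∀ Y ∈ G.h0, (x.1 * Y.1).trace =
      μ * (2 * (x.1 * Y.1).trace + (x.2 * Y.2).trace)) : ∃ r : ℝ, 0 ≤ r ∧ μ = r := by
  let E : Submodule ℂ (Matrix (Fin p) (Fin p) ℂ × Matrix (Fin q) (Fin q) ℂ) :=
    { carrier := {x | x ∈ G.h0 ∧ ∀ Y ∈ G.h0, (x.1 * Y.1).trace =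
        μ * (2 * (x.1 * Y.1).trace + (x.2 * Y.2).trace)}
      zero_mem' := ⟨G.h0.zero_mem, fun Y _ => by simp⟩
      add_mem' := fun {a b} ha hb => ⟨G.h0.add_mem ha.1 hb.1, fun Y hY => by
        have h1 := ha.2 Y hY
        have h2 := hb.2 Y hY
        simp only [Prod.fst_add, Prod.snd_add, Matrix.add_mul, Matrix.trace_add]
        linear_combination h1 + h2⟩
      smul_mem' := fun c a ha => ⟨G.h0.smul_mem c ha.1, fun Y hY => by
        have h1 := ha.2 Y hY
        simp only [Prod.smul_fst, Prod.smul_snd, Matrix.smul_mul, Matrix.trace_smul, smul_eq_mul]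
        linear_combination c * h1⟩ }
  have hE : ∀ x, x ∈ E ↔ x ∈ G.h0 ∧ ∀ Y ∈ G.h0, (x.1 * Y.1).trace =
        μ * (2 * (x.1 * Y.1).trace + (x.2 * Y.2).trace) := fun x => Iff.rfl
  have f1 : ∀ {m : ℕ} (a b c : Matrix (Fin m) (Fin m) ℂ), ((a * b - b * a) * c).trace =
      (b * (c * a - a * c)).trace := by
    intro m a b c
    rw [Matrix.sub_mul, Matrix.mul_sub, Matrix.trace_sub, Matrix.trace_sub, Matrix.mul_assoc a,
      Matrix.trace_mul_comm a, Matrix.mul_assoc b, Matrix.mul_assoc b]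
  have hid : ∀ X ∈ G.h0, ∀ x ∈ E, ((X.1 * x.1 - x.1 * X.1, X.2 * x.2 - x.2 * X.2) :
    Matrix (Fin p) (Fin p) ℂ × Matrix (Fin q) (Fin q) ℂ) ∈ E := by
    intro X hX x hx
    refine ⟨G.b00 X hX x hx.1, fun Y hY => ?_⟩
    have h1 := hx.2 _ (G.b00 Y hY X hX)
    change ((X.1 * x.1 - x.1 * X.1) * Y.1).trace =
      μ * (2 * ((X.1 * x.1 - x.1 * X.1) * Y.1).trace + ((X.2 * x.2 - x.2 * X.2) * Y.2).trace)
    rw [f1, f1]
    exact h1
  have key : ∃ x ∈ E, ¬ (IsNilpotent x.1 ∧ IsNilpotent x.2) := by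
    by_contra hcon
    push Not at hcon
    haveI : Nonempty (Fin p) := ⟨⟨0, hp⟩⟩
    obtain ⟨v, hv0, hv⟩ := engel (E.map (LinearMap.fst ℂ _ _)) (by
      rintro _ ⟨a, ha, rfl⟩ _ ⟨b, hb, rfl⟩
      exact ⟨_, hid a ha.1 b hb, rfl⟩) (by
      rintro _ ⟨a, ha, rfl⟩
      exact (hcon a ha).1)
    have hv' : ∀ x ∈ E, x.1 *ᵥ v = 0 := fun x hx => hv _ ⟨x, hx, rfl⟩
    let K : Submodule ℂ (Fin p → ℂ) :=
      { carrier := {v | ∀ x ∈ E, x.1 *ᵥ v = 0}
        zero_mem' := fun x _ => Matrix.mulVec_zero _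
        add_mem' := fun {a b} ha hb x hx => by rw [Matrix.mulVec_add, ha x hx, hb x hx, add_zero]
        smul_mem' := fun c a ha x hx => by rw [Matrix.mulVec_smul, ha x hx, smul_zero] }
    have hK := G.irrA K (by
      intro X hX w hw x hx
      have h1 := hw _ (hid X hX x hx)
      change (X.1 * x.1 - x.1 * X.1) *ᵥ w = 0 at h1
      rw [Matrix.sub_mulVec, ← Matrix.mulVec_mulVec, hw x hx, Matrix.mulVec_zero, zero_sub,
        neg_eq_zero, ← Matrix.mulVec_mulVec] at h1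
      exact h1)
    have hE1 : ∀ x ∈ E, x.1 = 0 := by
      rcases hK with hK | hK
      · exfalso
        have : v ∈ K := hv'
        rw [hK] at this
        exact hv0 (by simpa using this)
      · intro x hx
        ext i j
        have h1 : (Pi.single j 1 : Fin p → ℂ) ∈ K := by rw [hK]; trivial
        have := congrFun (h1 x hx) i
        simpa using this
    have hpair : ∀ x ∈ E, x = (0, x.2) := fun x hx => Prod.ext (hE1 x hx) rfl
    rcases Nat.eq_zero_or_pos q with hq | hq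
    · subst hq
      apply hx0
      rw [hpair x ⟨hx, hxx⟩]
      exact Prod.ext rfl (by ext i; exact i.elim0)
    · haveI : Nonempty (Fin q) := ⟨⟨0, hq⟩⟩
      obtain ⟨u, hu0, hu⟩ := engel (E.map (LinearMap.snd ℂ _ _)) (by
        rintro _ ⟨a, ha, rfl⟩ _ ⟨b, hb, rfl⟩
        exact ⟨_, hid a ha.1 b hb, rfl⟩) (by
        rintro _ ⟨a, ha, rfl⟩
        exact (hcon a ha).2)
      have h1 := G.ideal (E.map (LinearMap.snd ℂ _ _)) (by
        rintro _ ⟨a, ha, rfl⟩
        have := hpair a ha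
        rw [LinearMap.snd_apply, ← this]
        exact ha.1) (by
        rintro X hX _ ⟨a, ha, rfl⟩
        exact ⟨_, hid X hX a ha, rfl⟩) hu0 hu
      apply hx0
      rw [hpair x ⟨hx, hxx⟩]
      exact Prod.ext rfl (h1 _ ⟨x, ⟨hx, hxx⟩, rfl⟩)
  obtain ⟨x, hx, hxn⟩ := key
  obtain ⟨R, hR1, hR2, hR0⟩ := G.rep0 x hx.1
  obtain ⟨r1, a1, b1, c1⟩ := tr_rep hR1
  obtain ⟨r2, a2, b2, c2⟩ := tr_rep hR2
  have h1 := hx.2 _ hR0
  change (x.1 * aeval x.1 R).trace =
    μ * (2 * (x.1 * aeval x.1 R).trace + (x.2 * aeval x.2 R).trace) at h1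
  rw [b1, b2] at h1
  have hpos : 0 < 2 * r1 + r2 := by
    by_contra hcon
    exact hxn ⟨c1 (by linarith), c2 (by linarith)⟩
  refine ⟨r1 / (2 * r1 + r2), div_nonneg a1 hpos.le, ?_⟩
  have h2 : ((2 * r1 + r2 : ℝ) : ℂ) ≠ 0 := by
    rw [Complex.ofReal_ne_zero]
    exact hpos.ne'
  rw [Complex.ofReal_div, eq_div_iff h2]
  push_cast
  exact h1.symm

/-- the form in degree zero -/
def B00 (p q : ℕ) : (Matrix (Fin p) (Fin p) ℂ × Matrix (Fin q) (Fin q) ℂ) →ₗ[ℂ]
    (Matrix (Fin p) (Fin p) ℂ × Matrix (Fin q) (Fin q) ℂ) →ₗ[ℂ] ℂ :=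
  LinearMap.mk₂ ℂ (fun x y => 2 * (x.1 * y.1).trace + (x.2 * y.2).trace)
    (fun x x' y => by
      simp only [Prod.fst_add, Prod.snd_add, Matrix.add_mul, Matrix.trace_add]; ring)
    (fun c x y => by
      simp only [Prod.smul_fst, Prod.smul_snd, Matrix.smul_mul, Matrix.trace_smul, smul_eq_mul]
      ring)
    (fun x y y' => by
      simp only [Prod.fst_add, Prod.snd_add, Matrix.mul_add, Matrix.trace_add]; ring)
    (fun c x y => by
      simp only [Prod.smul_fst, Prod.smul_snd, Matrix.mul_smul, Matrix.trace_smul, smul_eq_mul]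
      ring)

theorem B00_apply (x y : Matrix (Fin p) (Fin p) ℂ × Matrix (Fin q) (Fin q) ℂ) :
    B00 p q x y = 2 * (x.1 * y.1).trace + (x.2 * y.2).trace := rfl

/-- the partial trace form has trace at least one half -/
theorem Zr.theta (hp : 0 < p) {k : ℕ}
    {X : Fin k → Matrix (Fin p) (Fin p) ℂ × Matrix (Fin q) (Fin q) ℂ} (hX : ∀ i, X i ∈ G.h0)
    (hXX : ∀ i j, B00 p q (X i) (X j) = if i = j then 1 else 0)
    (hd : ∀ x ∈ G.h0, x = ∑ j, B00 p q x (X j) • X j) :
    ∃ θ : ℝ, 1 / 2 ≤ θ ∧ ∑ i, ((X i).1 * (X i).1).trace = θ := by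
  let T : Matrix (Fin k) (Fin k) ℂ := Matrix.of fun i j => ((X i).1 * (X j).1).trace
  have hT : ∀ i j, T i j = ((X i).1 * (X j).1).trace := fun i j => rfl
  have hroot : ∀ μ ∈ T.charpoly.roots, ∃ r : ℝ, 0 ≤ r ∧ μ = r := by
    intro μ hμ
    rw [Polynomial.mem_roots T.charpoly_monic.ne_zero, Polynomial.IsRoot.def,
      Matrix.eval_charpoly] at hμ
    obtain ⟨c, hc0, hc⟩ := Matrix.exists_mulVec_eq_zero_iff.2 hμ
    rw [Matrix.sub_mulVec, sub_eq_zero] at hc
    have hc' : ∀ i, ∑ j, T i j * c j = μ * c i := by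
      intro i
      have := congrFun hc i
      rw [Matrix.scalar_apply, Matrix.mulVec_diagonal] at this
      exact this.symm
    have hB : ∀ i, B00 p q (∑ j, c j • X j) (X i) = c i := by
      intro i
      simp [map_sum, hXX]
    apply G.eig hp (x := ∑ j, c j • X j)
    · exact G.h0.sum_mem fun j _ => G.h0.smul_mem _ (hX j)
    · intro h0
      apply hc0
      funext i
      rw [← hB i, h0]
      simp
    · intro Y hY
      have e1 : ∀ i, ((∑ j, c j • X j).1 * (X i).1).trace = μ * c i := by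
        intro i
        rw [← hc' i, Prod.fst_sum, Finset.sum_mul, Matrix.trace_sum]
        refine Finset.sum_congr rfl fun j _ => ?_
        rw [Prod.smul_fst, Matrix.smul_mul, Matrix.trace_smul, hT, Matrix.trace_mul_comm,
          smul_eq_mul, mul_comm]
      have e2 : ∀ x : Matrix (Fin p) (Fin p) ℂ, (x * Y.1).trace =
          ∑ i, B00 p q Y (X i) * (x * (X i).1).trace := by
        intro x
        conv_lhs => rw [hd Y hY, Prod.fst_sum, Finset.mul_sum, Matrix.trace_sum]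
        refine Finset.sum_congr rfl fun i _ => ?_
        rw [Prod.smul_fst, Matrix.mul_smul, Matrix.trace_smul, smul_eq_mul]
      have e3 : B00 p q (∑ j, c j • X j) Y = ∑ i, B00 p q Y (X i) * c i := by
        conv_lhs => rw [hd Y hY, map_sum]
        refine Finset.sum_congr rfl fun i _ => ?_
        rw [map_smul, hB, smul_eq_mul]
      rw [← B00_apply, e2, e3, Finset.mul_sum]
      refine Finset.sum_congr rfl fun i _ => ?_
      rw [e1]
      ring
  have hhalf : (1 / 2 : ℂ) ∈ T.charpoly.roots := by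
    rw [Polynomial.mem_roots T.charpoly_monic.ne_zero, Polynomial.IsRoot.def,
      Matrix.eval_charpoly]
    apply Matrix.exists_mulVec_eq_zero_iff.1
    have hBD : ∀ x, B00 p q x ((1, 0) : Matrix (Fin p) (Fin p) ℂ × Matrix (Fin q) (Fin q) ℂ) =
        2 * x.1.trace := by
      intro x
      rw [B00_apply]
      simp
    have hBs : ∀ x y, B00 p q x y = B00 p q y x := by
      intro x y
      rw [B00_apply, B00_apply, Matrix.trace_mul_comm x.1, Matrix.trace_mul_comm x.2]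
    refine ⟨fun j => B00 p q (1, 0) (X j), ?_, ?_⟩
    · intro h0
      have h1 := hd _ G.one
      have h2 : ((1, 0) : Matrix (Fin p) (Fin p) ℂ × Matrix (Fin q) (Fin q) ℂ) = 0 := by
        rw [h1]
        refine Finset.sum_eq_zero fun j _ => ?_
        have := congrFun h0 j
        simp only [Pi.zero_apply] at this
        rw [this, zero_smul]
      have h3 := congrFun (congrFun (congrArg Prod.fst h2) ⟨0, hp⟩) ⟨0, hp⟩
      simp at h3
    · rw [Matrix.sub_mulVec, sub_eq_zero]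
      funext i
      rw [Matrix.scalar_apply, Matrix.mulVec_diagonal]
      change 1 / 2 * B00 p q (1, 0) (X i) = ∑ j, T i j * B00 p q (1, 0) (X j)
      have h1 : (X i).1.trace = ∑ j, T i j * B00 p q (1, 0) (X j) := by
        have h2 := congrArg (fun t => ((X i).1 * t.1).trace) (hd _ G.one)
        simp only [Matrix.mul_one] at h2
        rw [h2, Prod.fst_sum, Finset.mul_sum, Matrix.trace_sum]
        refine Finset.sum_congr rfl fun j _ => ?_
        rw [Prod.smul_fst, Matrix.mul_smul, Matrix.trace_smul, hT, smul_eq_mul, mul_comm]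
      rw [← h1, hBs, hBD]
      ring
  have htr : T.trace = T.charpoly.roots.sum := Matrix.trace_eq_sum_roots_charpoly T
  have hsum : ∑ i, ((X i).1 * (X i).1).trace = T.trace := rfl
  rw [hsum, htr, ← Multiset.cons_erase hhalf, Multiset.sum_cons]
  have h3 : ∀ s : Multiset ℂ, (∀ μ ∈ s, ∃ r : ℝ, 0 ≤ r ∧ μ = r) →
      ∃ r : ℝ, 0 ≤ r ∧ s.sum = r := by
    intro s
    induction s using Multiset.induction_on with
    | empty => intro _; exact ⟨0, le_rfl, by simp⟩
    | cons a s ih =>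
      intro h
      obtain ⟨r, h1, h2⟩ := h a (Multiset.mem_cons_self a s)
      obtain ⟨r', h1', h2'⟩ := ih fun μ hμ => h μ (Multiset.mem_cons_of_mem hμ)
      exact ⟨r + r', by linarith, by rw [Multiset.sum_cons, h2, h2']; push_cast; rfl⟩
  obtain ⟨r, h4, h5⟩ := h3 _ fun μ hμ => hroot μ (Multiset.mem_of_mem_erase hμ)
  refine ⟨1 / 2 + r, by linarith, ?_⟩
  rw [h5]
  push_cast
  ring

end

end Pool.Agent.Y95.ZL
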