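import Pool.Agent.Y95.ZL.Grd
import Pool.Agent.W544.PG.Core

/-!
# The graded pieces of a Lie algebra of skew operators
-/

open Finset Module Polynomial Matrix
open Pool.Agent.W544.PG Pool.Agent.W216.PG

namespace Pool.Agent.Y95.ZL

noncomputable section

variable {p q : ℕ} {h : Submodule ℂ (Matrix (I p q) (I p q) ℂ)}

/-- the transposed Lie algebra -/
def tsp (h : Submodule ℂ (Matrix (I p q) (I p q) ℂ)) : Submodule ℂ (Matrix (I p q) (I p q) ℂ) where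
  carrier := {X | Xᵀ ∈ h}
  zero_mem' := by simp
  add_mem' := by
    intro a b ha hb
    change (a + b)ᵀ ∈ h
    rw [Matrix.transpose_add]
    exact h.add_mem ha hb
  smul_mem' := by
    intro c a ha
    change (c • a)ᵀ ∈ h
    rw [Matrix.transpose_smul]
    exact h.smul_mem c ha

theorem mem_tsp {X : Matrix (I p q) (I p q) ℂ} : X ∈ tsp h ↔ Xᵀ ∈ h := Iff.rfl

theorem LA.tsp (H : LA h) : LA (tsp h) where
  sk := by
    intro X hX
    have h1 := H.sk _ hX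
    rw [Matrix.transpose_transpose] at h1
    have h2 : B0 p q * (X * B0 p q + B0 p q * Xᵀ) * B0 p q = 0 := by
      rw [h1, Matrix.mul_zero, Matrix.zero_mul]
    have h3 : B0 p q * (X * B0 p q + B0 p q * Xᵀ) * B0 p q =
        B0 p q * X * (B0 p q * B0 p q) + (B0 p q * B0 p q) * Xᵀ * B0 p q := by
      rw [Matrix.mul_add, Matrix.add_mul]
      simp only [Matrix.mul_assoc]
    rw [h3, B0_sq, Matrix.mul_one, Matrix.one_mul, add_comm] at h2
    exact h2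
  br := by
    intro X hX Y hY
    rw [mem_tsp] at hX hY ⊢
    rw [Matrix.transpose_sub, Matrix.transpose_mul, Matrix.transpose_mul]
    exact H.br _ hY _ hX
  x0 := by
    rw [mem_tsp, W544.PG.x0_eq, Matrix.diagonal_transpose, ← W544.PG.x0_eq]
    exact H.x0
  irr := by
    intro W hW
    let W' : Submodule ℂ (I p q → ℂ) := W.comap (Matrix.toLin' (B0 p q))
    have hW' : ∀ w, w ∈ W' ↔ B0 p q *ᵥ w ∈ W := fun w => Iff.rfl
    have h1 := H.irr W' (by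
      intro x hx w hw
      rw [hW'] at hw ⊢
      have h2 := hW xᵀ (by rw [mem_tsp, Matrix.transpose_transpose]; exact hx) _ hw
      have h3 : B0 p q * x = -(xᵀ * B0 p q) := eq_neg_of_add_eq_zero_right (H.sk x hx)
      rw [Matrix.mulVec_mulVec, h3, Matrix.neg_mulVec, ← Matrix.mulVec_mulVec]
      exact W.neg_mem h2)
    rcases h1 with h1 | h1
    · left
      rw [eq_bot_iff]
      intro w hw
      have h2 : B0 p q *ᵥ w ∈ W' := by
        rw [hW', Matrix.mulVec_mulVec, B0_sq, Matrix.one_mulVec]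
        exact hw
      rw [h1, Submodule.mem_bot] at h2
      have h3 := congrArg (fun v => B0 p q *ᵥ v) h2
      simp only [Matrix.mulVec_mulVec, B0_sq, Matrix.one_mulVec, Matrix.mulVec_zero] at h3
      rw [Submodule.mem_bot]
      exact h3
    · right
      rw [eq_top_iff]
      intro w _
      have h2 : B0 p q *ᵥ w ∈ W' := by rw [h1]; trivial
      rw [hW', Matrix.mulVec_mulVec, B0_sq, Matrix.one_mulVec] at h2
      exact h2

theorem big1_T (F : Matrix (Fin p) (Fin q) ℂ) : (big1 F)ᵀ = bigm Fᵀ := by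
  rw [big1_eq, bigm, bl_t, bl_inj]
  refine ⟨?_, ?_, ?_, ?_, ?_, ?_, ?_, ?_, ?_⟩ <;> simp

/-- no vector of degree zero is killed by the transposes of the operators of degree minus one -/
theorem LA.kerB' (H : LA h) (hp : 0 < p) (u : Fin q → ℂ)
    (hu : ∀ G, bigm G ∈ h → Gᵀ *ᵥ u = 0) : u = 0 := by
  refine H.tsp.kerB hp u fun F hF => ?_
  rw [mem_tsp, big1_T] at hF
  have := hu _ hF
  rwa [Matrix.transpose_transpose] at this

/-- the graded pieces of a Lie algebra of skew operators, with the properties used below -/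
structure Zr (p q : ℕ) where
  /-- degree zero -/
  h0 : Submodule ℂ (Matrix (Fin p) (Fin p) ℂ × Matrix (Fin q) (Fin q) ℂ)
  /-- degree one -/
  h1 : Submodule ℂ (Matrix (Fin p) (Fin q) ℂ)
  /-- degree minus one -/
  hm : Submodule ℂ (Matrix (Fin q) (Fin p) ℂ)
  one : ((1, 0) : Matrix (Fin p) (Fin p) ℂ × Matrix (Fin q) (Fin q) ℂ) ∈ h0
  skew0 : ∀ X ∈ h0, X.2ᵀ = -X.2
  b00 : ∀ X ∈ h0, ∀ X' ∈ h0, ((X.1 * X'.1 - X'.1 * X.1, X.2 * X'.2 - X'.2 * X.2) :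
    Matrix (Fin p) (Fin p) ℂ × Matrix (Fin q) (Fin q) ℂ) ∈ h0
  b01 : ∀ X ∈ h0, ∀ F ∈ h1, X.1 * F - F * X.2 ∈ h1
  b0m : ∀ X ∈ h0, ∀ G ∈ hm, X.2 * G - G * X.1 ∈ hm
  b1m : ∀ F ∈ h1, ∀ G ∈ hm, ((F * G, (G * F)ᵀ - G * F) :
    Matrix (Fin p) (Fin p) ℂ × Matrix (Fin q) (Fin q) ℂ) ∈ h0
  nd0 : ∀ X ∈ h0, (∀ Y ∈ h0, 2 * (X.1 * Y.1).trace + (X.2 * Y.2).trace = 0) → X = 0
  nd1 : ∀ F ∈ h1, (∀ G ∈ hm, (F * G).trace = 0) → F = 0
  ndm : ∀ G ∈ hm, (∀ F ∈ h1, (F * G).trace = 0) → G = 0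
  irrA : ∀ W : Submodule ℂ (Fin p → ℂ), (∀ X ∈ h0, ∀ w ∈ W, X.1 *ᵥ w ∈ W) → W = ⊥ ∨ W = ⊤
  kerB : ∀ u : Fin q → ℂ, (∀ F ∈ h1, F *ᵥ u = 0) → u = 0
  kerB' : ∀ u : Fin q → ℂ, (∀ G ∈ hm, Gᵀ *ᵥ u = 0) → u = 0
  rep0 : ∀ X ∈ h0, ∃ R : ℂ[X], Rm R X.1 ∧ Rm R X.2 ∧
    ((aeval X.1 R, aeval X.2 R) : Matrix (Fin p) (Fin p) ℂ × Matrix (Fin q) (Fin q) ℂ) ∈ h0

theorem bl_trace (a : Matrix (Fin p) (Fin p) ℂ) (b : Matrix (Fin p) (Fin q) ℂ)
    (c : Matrix (Fin p) (Fin p) ℂ) (d : Matrix (Fin q) (Fin p) ℂ) (e : Matrix (Fin q) (Fin q) ℂ)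
    (f : Matrix (Fin q) (Fin p) ℂ) (g : Matrix (Fin p) (Fin p) ℂ) (k : Matrix (Fin p) (Fin q) ℂ)
    (i : Matrix (Fin p) (Fin p) ℂ) :
    (bl a b c d e f g k i).trace = a.trace + e.trace + i.trace := by
  simp only [Matrix.trace, Matrix.diag_apply, Fintype.sum_sum_type, bl_11, bl_22, bl_33]
  ring

/-- the trace form in degree zero -/
theorem tr00 (X Y : Matrix (Fin p) (Fin p) ℂ × Matrix (Fin q) (Fin q) ℂ) :
    (big0 X * big0 Y).trace = 2 * (X.1 * Y.1).trace + (X.2 * Y.2).trace := by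
  rw [big0_eq, big0_eq, bl_mul, bl_trace]
  simp only [Matrix.mul_zero, Matrix.zero_mul, add_zero, zero_add, Matrix.neg_mul, Matrix.mul_neg,
    neg_neg]
  rw [← Matrix.transpose_mul, Matrix.trace_transpose, Matrix.trace_mul_comm Y.1 X.1]
  ring

theorem tr1m (F : Matrix (Fin p) (Fin q) ℂ) (G : Matrix (Fin q) (Fin p) ℂ) :
    (big1 F * bigm G).trace = 2 * (F * G).trace := by
  rw [big1_eq, bigm, bl_mul, bl_trace]
  simp only [Matrix.mul_zero, Matrix.zero_mul, add_zero, zero_add, Matrix.neg_mul, Matrix.mul_neg,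
    neg_neg, Matrix.trace_zero]
  rw [← Matrix.transpose_mul, Matrix.trace_transpose, Matrix.trace_mul_comm G F]
  ring

theorem tr2n (Y Y' : Matrix (Fin p) (Fin p) ℂ) :
    ((big2 Y : Matrix (I p q) (I p q) ℂ) * bign Y').trace = (Y * Y').trace := by
  rw [big2_eq, bign, bl_mul, bl_trace]
  simp

theorem tr01 (X : Matrix (Fin p) (Fin p) ℂ × Matrix (Fin q) (Fin q) ℂ)
    (F : Matrix (Fin p) (Fin q) ℂ) : (big0 X * big1 F).trace = 0 := by
  rw [big0_eq, big1_eq, bl_mul, bl_trace]; simp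

theorem tr0m (X : Matrix (Fin p) (Fin p) ℂ × Matrix (Fin q) (Fin q) ℂ)
    (G : Matrix (Fin q) (Fin p) ℂ) : (big0 X * bigm G).trace = 0 := by
  rw [big0_eq, bigm, bl_mul, bl_trace]; simp

theorem tr02 (X : Matrix (Fin p) (Fin p) ℂ × Matrix (Fin q) (Fin q) ℂ)
    (Y : Matrix (Fin p) (Fin p) ℂ) : (big0 X * big2 Y).trace = 0 := by
  rw [big0_eq, big2_eq, bl_mul, bl_trace]; simp

theorem tr0n (X : Matrix (Fin p) (Fin p) ℂ × Matrix (Fin q) (Fin q) ℂ)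
    (Y : Matrix (Fin p) (Fin p) ℂ) : (big0 X * bign Y).trace = 0 := by
  rw [big0_eq, bign, bl_mul, bl_trace]; simp

theorem tr11 (F F' : Matrix (Fin p) (Fin q) ℂ) : (big1 F * big1 F').trace = 0 := by
  rw [big1_eq, big1_eq, bl_mul, bl_trace]; simp

theorem tr12 (F : Matrix (Fin p) (Fin q) ℂ) (Y : Matrix (Fin p) (Fin p) ℂ) :
    (big1 F * big2 Y).trace = 0 := by
  rw [big1_eq, big2_eq, bl_mul, bl_trace]; simp

theorem tr1n (F : Matrix (Fin p) (Fin q) ℂ) (Y : Matrix (Fin p) (Fin p) ℂ) :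
    (big1 F * bign Y).trace = 0 := by
  rw [big1_eq, bign, bl_mul, bl_trace]; simp

theorem trmm (G G' : Matrix (Fin q) (Fin p) ℂ) : (bigm G * bigm G').trace = 0 := by
  rw [bigm, bigm, bl_mul, bl_trace]; simp

theorem trm2 (G : Matrix (Fin q) (Fin p) ℂ) (Y : Matrix (Fin p) (Fin p) ℂ) :
    (bigm G * big2 Y).trace = 0 := by
  rw [bigm, big2_eq, bl_mul, bl_trace]; simp

theorem trmn (G : Matrix (Fin q) (Fin p) ℂ) (Y : Matrix (Fin p) (Fin p) ℂ) :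
    (bigm G * bign Y).trace = 0 := by
  rw [bigm, bign, bl_mul, bl_trace]; simp

theorem tr22 (Y Y' : Matrix (Fin p) (Fin p) ℂ) :
    ((big2 Y : Matrix (I p q) (I p q) ℂ) * big2 Y').trace = 0 := by
  rw [big2_eq, big2_eq, bl_mul, bl_trace]; simp

theorem trnn (Y Y' : Matrix (Fin p) (Fin p) ℂ) :
    ((bign Y : Matrix (I p q) (I p q) ℂ) * bign Y').trace = 0 := by
  rw [bign, bign, bl_mul, bl_trace]; simp

theorem LA.nd0 (H : LA h) (hnd : ND h) {X : Matrix (Fin p) (Fin p) ℂ × Matrix (Fin q) (Fin q) ℂ}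
    (hX : big0 X ∈ h)
    (hXX : ∀ Y, big0 Y ∈ h → 2 * (X.1 * Y.1).trace + (X.2 * Y.2).trace = 0) : big0 X = 0 := by
  apply hnd _ hX
  intro Z hZ
  obtain ⟨X', F, G, Y, Y', rfl, m0, m1, mm, m2, mn⟩ := H.dec hZ
  rw [mul_add, mul_add, mul_add, mul_add, Matrix.trace_add, Matrix.trace_add, Matrix.trace_add,
    Matrix.trace_add, tr00, tr01, tr0m, tr02, tr0n, hXX X' m0]
  simp

theorem LA.nd1 (H : LA h) (hnd : ND h) {F : Matrix (Fin p) (Fin q) ℂ}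
    (hF : big1 F ∈ h) (hFF : ∀ G, bigm G ∈ h → (F * G).trace = 0) : big1 F = 0 := by
  apply hnd _ hF
  intro Z hZ
  obtain ⟨X', F', G, Y, Y', rfl, m0, m1, mm, m2, mn⟩ := H.dec hZ
  rw [mul_add, mul_add, mul_add, mul_add, Matrix.trace_add, Matrix.trace_add, Matrix.trace_add,
    Matrix.trace_add, Matrix.trace_mul_comm, tr01, tr11, tr1m, tr12, tr1n, hFF G mm]
  simp

theorem LA.ndm (H : LA h) (hnd : ND h) {G : Matrix (Fin q) (Fin p) ℂ}
    (hG : bigm G ∈ h) (hGG : ∀ F, big1 F ∈ h → (F * G).trace = 0) : bigm G = 0 := by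
  apply hnd _ hG
  intro Z hZ
  obtain ⟨X', F, G', Y, Y', rfl, m0, m1, mm, m2, mn⟩ := H.dec hZ
  rw [mul_add, mul_add, mul_add, mul_add, Matrix.trace_add, Matrix.trace_add, Matrix.trace_add,
    Matrix.trace_add, Matrix.trace_mul_comm, tr0m, Matrix.trace_mul_comm, tr1m, trmm, trm2, trmn,
    hGG F m1]
  simp

theorem LA.nd2 (H : LA h) (hnd : ND h) {Y : Matrix (Fin p) (Fin p) ℂ}
    (hY : big2 Y ∈ h) (hYY : ∀ Y' : Matrix (Fin p) (Fin p) ℂ,
      (bign Y' : Matrix (I p q) (I p q) ℂ) ∈ h → (Y * Y').trace = 0) :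
    (big2 Y : Matrix (I p q) (I p q) ℂ) = 0 := by
  apply hnd _ hY
  intro Z hZ
  obtain ⟨X', F, G', Y1, Y', rfl, m0, m1, mm, m2, mn⟩ := H.dec hZ
  rw [mul_add, mul_add, mul_add, mul_add, Matrix.trace_add, Matrix.trace_add, Matrix.trace_add,
    Matrix.trace_add, Matrix.trace_mul_comm, tr02, Matrix.trace_mul_comm, tr12,
    Matrix.trace_mul_comm, trm2, tr22, tr2n, hYY Y' mn]
  simp

theorem LA.ndn (H : LA h) (hnd : ND h) {Y : Matrix (Fin p) (Fin p) ℂ}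
    (hY : bign Y ∈ h) (hYY : ∀ Y' : Matrix (Fin p) (Fin p) ℂ,
      (big2 Y' : Matrix (I p q) (I p q) ℂ) ∈ h → (Y' * Y).trace = 0) :
    (bign Y : Matrix (I p q) (I p q) ℂ) = 0 := by
  apply hnd _ hY
  intro Z hZ
  obtain ⟨X', F, G', Y1, Y', rfl, m0, m1, mm, m2, mn⟩ := H.dec hZ
  rw [mul_add, mul_add, mul_add, mul_add, Matrix.trace_add, Matrix.trace_add, Matrix.trace_add,
    Matrix.trace_add, Matrix.trace_mul_comm, tr0n, Matrix.trace_mul_comm, tr1n,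
    Matrix.trace_mul_comm, trmn, Matrix.trace_mul_comm, tr2n, hYY Y1 m2, trnn]
  simp

theorem big0_inj {X Y : Matrix (Fin p) (Fin p) ℂ × Matrix (Fin q) (Fin q) ℂ}
    (h : big0 X = big0 Y) : X = Y := by
  rw [big0_eq, big0_eq, bl_inj] at h
  exact Prod.ext h.1 h.2.2.2.2.1

theorem big0_zero : big0 (0 : Matrix (Fin p) (Fin p) ℂ × Matrix (Fin q) (Fin q) ℂ) = 0 := by
  rw [big0_eq, ← bl_zero, bl_inj]
  refine ⟨?_, ?_, ?_, ?_, ?_, ?_, ?_, ?_, ?_⟩ <;> simp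

theorem big1_z {F : Matrix (Fin p) (Fin q) ℂ} (h : big1 F = 0) : F = 0 := by
  rw [big1_eq, ← bl_zero, bl_inj] at h
  exact h.2.1

theorem bigm_z {G : Matrix (Fin q) (Fin p) ℂ} (h : bigm G = 0) : G = 0 := by
  rw [bigm, ← bl_zero, bl_inj] at h
  exact h.2.2.2.1

theorem big2_z {Y : Matrix (Fin p) (Fin p) ℂ} (h : (big2 Y : Matrix (I p q) (I p q) ℂ) = 0) :
    Y = 0 := by
  rw [big2_eq, ← bl_zero, bl_inj] at h
  exact h.2.2.1

theorem bign_z {Y : Matrix (Fin p) (Fin p) ℂ} (h : (bign Y : Matrix (I p q) (I p q) ℂ) = 0) :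
    Y = 0 := by
  rw [bign, ← bl_zero, bl_inj] at h
  exact h.2.2.2.2.2.2.1

/-- block diagonal matrices -/
theorem aeval_bl (a : Matrix (Fin p) (Fin p) ℂ) (e : Matrix (Fin q) (Fin q) ℂ)
    (i : Matrix (Fin p) (Fin p) ℂ) (R : ℂ[X]) :
    aeval (bl a 0 0 0 e 0 0 0 i) R = bl (aeval a R) 0 0 0 (aeval e R) 0 0 0 (aeval i R) := by
  induction R using Polynomial.induction_on' with
  | add r s hr hs =>
    rw [map_add, map_add, map_add, map_add, hr, hs, bl_add]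
    simp only [add_zero]
  | monomial n c =>
    have hpow : ∀ n : ℕ, (bl a 0 0 0 e 0 0 0 i) ^ n = bl (a ^ n) 0 0 0 (e ^ n) 0 0 0 (i ^ n) := by
      intro n
      induction n with
      | zero =>
        ext x y
        rcases x with x | x | x <;> rcases y with y | y | y <;> simp [Matrix.one_apply]
      | succ n ih =>
        rw [pow_succ, ih, bl_mul, bl_inj]
        refine ⟨?_, ?_, ?_, ?_, ?_, ?_, ?_, ?_, ?_⟩ <;> simp [pow_succ]
    rw [aeval_monomial, aeval_monomial, aeval_monomial, aeval_monomial, hpow,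
      Algebra.algebraMap_eq_smul_one, Algebra.algebraMap_eq_smul_one,
      Algebra.algebraMap_eq_smul_one, Matrix.smul_mul, Matrix.smul_mul, Matrix.smul_mul,
      Matrix.smul_mul, Matrix.one_mul, Matrix.one_mul, Matrix.one_mul, Matrix.one_mul, bl_smul]
    simp only [smul_zero]

theorem LA.rep0 (H : LA h) (hrep : ∀ x ∈ h, ∀ R, Rm R x → aeval x R ∈ h)
    {X : Matrix (Fin p) (Fin p) ℂ × Matrix (Fin q) (Fin q) ℂ} (hX : big0 X ∈ h) :
    ∃ R : ℂ[X], Rm R X.1 ∧ Rm R X.2 ∧ big0 (aeval X.1 R, aeval X.2 R) ∈ h := by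
  obtain ⟨R, h1, h2, h3⟩ := exists_rep3 (starRingEnd ℂ) (big0 X) X.1 X.2
  refine ⟨R, h2, h3, ?_⟩
  have h4 := hrep _ hX R h1
  rw [big0_eq, aeval_bl] at h4
  have h5 := (GRD.skew_bl (H.sk _ h4)).1
  rw [h5] at h4
  rw [big0_eq]
  exact h4

/-- the graded pieces -/
def LA.zr (H : LA h) (hp : 0 < p) (hnd : ND h) (hrep : ∀ x ∈ h, ∀ R, Rm R x → aeval x R ∈ h) :
    Zr p q where
  h0 := h.comap GRD.L0
  h1 := h.comap GRD.L1
  hm := h.comap Lm
  one := H.x0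
  skew0 X hX := H.sk0 hX
  b00 X hX X' hX' := H.b00 hX hX'
  b01 X hX F hF := H.b01 hX hF
  b0m X hX G hG := H.b0m hX hG
  b1m F hF G hG := H.b1m hF hG
  nd0 X hX hXX := big0_inj ((H.nd0 hnd hX hXX).trans big0_zero.symm)
  nd1 F hF hFF := big1_z (H.nd1 hnd hF hFF)
  ndm G hG hGG := bigm_z (H.ndm hnd hG hGG)
  irrA W hW := H.irrA W hW
  kerB u hu := H.kerB hp u hu
  kerB' u hu := H.kerB' hp u hu
  rep0 X hX := H.rep0 hrep hX

end

end Pool.Agent.Y95.ZL
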